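import Pool.Agent.H14.CN.Beta

set_option autoImplicit false

/-!
# Good members for three linear forms at once
-/

namespace Pool.Agent.H14.CN

open Finset
open scoped Classical

/-- conditions on `t` for the three forms `q t + a`, `q₂ t + c`, `q₃ t + d` -/
def GoodT (q a q2 c q3 d y : ℕ) (D : Finset ℕ) (l : ℝ) (t : ℕ) : Prop :=
  (¬ ∃ p : ℕ, p.Prime ∧ ¬ p ∣ q ∧ p ^ 2 ∣ q * t + a) ∧
  (¬ ∃ p : ℕ, p.Prime ∧ ¬ p ∣ q2 ∧ p ^ 2 ∣ q2 * t + c) ∧
  (¬ ∃ p : ℕ, p.Prime ∧ ¬ p ∣ q3 ∧ p ^ 2 ∣ q3 * t + d) ∧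
  (¬ ∃ p ∈ D, ¬ p ∣ q ∧ p ∣ q * t + a) ∧
  lsum q y (q * t + a) ≤ l ∧ lsum q2 y (q2 * t + c) ≤ l

lemma card_goodT {q a q2 c q3 d y V L P : ℕ} {l E : ℝ} {D : Finset ℕ}
    (hP : ∀ p : ℕ, p.Prime → p ≤ P → p ∣ q) (hP2 : ∀ p : ℕ, p.Prime → p ≤ P → p ∣ q2)
    (hP3 : ∀ p : ℕ, p.Prime → p ≤ P → p ∣ q3) (hP0 : 1000 ≤ P) (ha : 0 < a) (hc : 0 < c) (hd : 0 < d)
    (hV : ∀ t, t < L → q * t + a ≤ V) (hV2 : ∀ t, t < L → q2 * t + c ≤ V)
    (hV3 : ∀ t, t < L → q3 * t + d ≤ V)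
    (hD : ∀ p ∈ D, p.Prime)
    (hDs : ∑ p ∈ D.filter (fun p => ¬ p ∣ q), (1 : ℝ) / p ≤ 2 / 100)
    (hDE : (D.card : ℝ) ≤ E) (hy : 1 ≤ y) (hl : 0 < l)
    (h1 : Real.log y + Real.log 4 ≤ l / 10) (hE : Real.log 4 * y ≤ E * l)
    (hVE : (Nat.sqrt V : ℝ) ≤ E) (hJ : 2000 * E ≤ L) :
    (L : ℝ) / 2 ≤ ((range L).filter (GoodT q a q2 c q3 d y D l)).card := by
  have hPr : (1000 : ℝ) ≤ P := by exact_mod_cast hP0
  have hJ0 : (0 : ℝ) ≤ L := by positivity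
  have e1 := card_sq (A := q) (B := a) (L := L) hV ha hP (by omega)
  have e2 := card_sq (A := q2) (B := c) (L := L) hV2 hc hP2 (by omega)
  have e3 := card_sq (A := q3) (B := d) (L := L) hV3 hd hP3 (by omega)
  have e4 := card_primes (A := q) (B := a) (L := L) (D.filter (fun p => ¬ p ∣ q))
    (fun p hp => hD p (mem_filter.1 hp).1)
  have e5 := card_lsum (A := q) (B := a) (L := L) hy hl h1 hE
  have e6 := card_lsum (A := q2) (B := c) (L := L) hy hl h1 hE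
  have hsub : range L ⊆ (range L).filter (GoodT q a q2 c q3 d y D l) ∪
      ((range L).filter (fun t => ∃ p : ℕ, p.Prime ∧ ¬ p ∣ q ∧ p ^ 2 ∣ q * t + a) ∪
      ((range L).filter (fun t => ∃ p : ℕ, p.Prime ∧ ¬ p ∣ q2 ∧ p ^ 2 ∣ q2 * t + c) ∪
      ((range L).filter (fun t => ∃ p : ℕ, p.Prime ∧ ¬ p ∣ q3 ∧ p ^ 2 ∣ q3 * t + d) ∪
      ((range L).filter (fun t => ∃ p ∈ D.filter (fun p => ¬ p ∣ q), ¬ p ∣ q ∧ p ∣ q * t + a) ∪
      ((range L).filter (fun t => l < lsum q y (q * t + a)) ∪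
      (range L).filter (fun t => l < lsum q2 y (q2 * t + c))))))) := by
    intro t ht
    simp only [mem_union, mem_filter, ht, true_and]
    by_contra hcon
    push Not at hcon
    obtain ⟨c1, c2, c3, c4, c5, c6, c7⟩ := hcon
    apply c1
    refine ⟨?_, ?_, ?_, ?_, c6, c7⟩
    · rintro ⟨p, hp, hpQ, hpd⟩
      exact c2 p hp hpQ hpd
    · rintro ⟨p, hp, hpQ, hpd⟩
      exact c3 p hp hpQ hpd
    · rintro ⟨p, hp, hpQ, hpd⟩
      exact c4 p hp hpQ hpd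
    · rintro ⟨p, hp, hpQ, hpd⟩
      exact c5 p ⟨hp, hpQ⟩ hpQ hpd
  have hcard := card_le_card hsub
  rw [card_range] at hcard
  have hcard2 : (L : ℝ) ≤ ((range L).filter (GoodT q a q2 c q3 d y D l)).card +
      (((range L).filter (fun t => ∃ p : ℕ, p.Prime ∧ ¬ p ∣ q ∧ p ^ 2 ∣ q * t + a)).card +
      (((range L).filter (fun t => ∃ p : ℕ, p.Prime ∧ ¬ p ∣ q2 ∧ p ^ 2 ∣ q2 * t + c)).card +
      (((range L).filter (fun t => ∃ p : ℕ, p.Prime ∧ ¬ p ∣ q3 ∧ p ^ 2 ∣ q3 * t + d)).card +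
      (((range L).filter (fun t => ∃ p ∈ D.filter (fun p => ¬ p ∣ q), ¬ p ∣ q ∧ p ∣ q * t + a)).card +
      (((range L).filter (fun t => l < lsum q y (q * t + a))).card +
      ((range L).filter (fun t => l < lsum q2 y (q2 * t + c))).card))))) := by
    have := hcard.trans ((card_union_le _ _).trans (Nat.add_le_add_left ((card_union_le _ _).trans
      (Nat.add_le_add_left ((card_union_le _ _).trans (Nat.add_le_add_left ((card_union_le _ _).trans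
      (Nat.add_le_add_left ((card_union_le _ _).trans (Nat.add_le_add_left (card_union_le _ _) _)) _)) _))
      _)) _))
    exact_mod_cast this
  have e4' : ∑ p ∈ D.filter (fun p => ¬ p ∣ q), ((L : ℝ) / p + 1) ≤ L * (2 / 100) + E := by
    have h3 : ∑ p ∈ D.filter (fun p => ¬ p ∣ q), ((L : ℝ) / p + 1) =
        L * ∑ p ∈ D.filter (fun p => ¬ p ∣ q), (1 : ℝ) / p + (D.filter (fun p => ¬ p ∣ q)).card := by
      rw [sum_add_distrib, mul_sum, sum_const, nsmul_eq_mul, mul_one]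
      congr 1
      apply sum_congr rfl
      intro p _
      ring
    rw [h3]
    have h4 : ((D.filter (fun p => ¬ p ∣ q)).card : ℝ) ≤ D.card := by
      exact_mod_cast card_le_card (filter_subset _ _)
    have h5 := mul_le_mul_of_nonneg_left hDs hJ0
    linarith
  have e1' : (L : ℝ) / P ≤ L / 1000 := div_le_div_of_nonneg_left hJ0 (by norm_num) hPr
  linarith

end Pool.Agent.H14.CN
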