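import Mathlib

set_option autoImplicit false

/-!
# Elementary counting lemmas for linear forms
-/

namespace Pool.Agent.H14.CN

open Finset
open scoped Classical

lemma card_le_of_modEq {L m : ℕ} (S : Finset ℕ) (hS : ∀ t ∈ S, t < L)
    (h : ∀ t ∈ S, ∀ t' ∈ S, t % m = t' % m) : S.card ≤ L / m + 1 := by
  have hinj : Set.InjOn (fun t => t / m) (S : Set ℕ) := by
    intro t ht t' ht' h1
    have h2 := h t ht t' ht'
    have h1' : t / m = t' / m := h1
    rw [← Nat.div_add_mod t m, ← Nat.div_add_mod t' m, h1', h2]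
  calc S.card = (S.image (fun t => t / m)).card := (card_image_of_injOn hinj).symm
    _ ≤ (range (L / m + 1)).card := by
        apply card_le_card
        intro x hx
        rw [mem_image] at hx
        obtain ⟨t, ht, rfl⟩ := hx
        rw [mem_range]
        have h3 := hS t ht
        have h4 : t / m ≤ L / m := Nat.div_le_div_right h3.le
        omega
    _ = L / m + 1 := card_range _

lemma card_dvd_linear {A B L m : ℕ} (hA : Nat.Coprime m A) :
    ((range L).filter (fun t => m ∣ A * t + B)).card ≤ L / m + 1 := by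
  apply card_le_of_modEq
  · intro t ht
    rw [mem_filter, mem_range] at ht
    exact ht.1
  · intro t ht t' ht'
    rw [mem_filter] at ht ht'
    have h1 : A * t + B ≡ A * t' + B [MOD m] :=
      ((Nat.modEq_zero_iff_dvd).2 ht.2).trans ((Nat.modEq_zero_iff_dvd).2 ht'.2).symm
    have h2 : A * t ≡ A * t' [MOD m] := Nat.ModEq.add_right_cancel' B h1
    exact Nat.ModEq.cancel_left_of_coprime hA h2

lemma card_dvd_linear_real {A B L m : ℕ} (hA : Nat.Coprime m A) :
    (((range L).filter (fun t => m ∣ A * t + B)).card : ℝ) ≤ (L : ℝ) / m + 1 := by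
  have h1 := card_dvd_linear (B := B) (L := L) hA
  have h2 : ((L / m : ℕ) : ℝ) ≤ (L : ℝ) / m := Nat.cast_div_le
  have h3 : (((range L).filter (fun t => m ∣ A * t + B)).card : ℝ) ≤ ((L / m + 1 : ℕ) : ℝ) := by
    exact_mod_cast h1
  push_cast at h3
  linarith

/-- values divisible by the square of a prime not dividing the leading coefficient -/
lemma card_sq {A B L V P : ℕ} (hV : ∀ t, t < L → A * t + B ≤ V) (hB : 0 < B)
    (hP : ∀ p : ℕ, p.Prime → p ≤ P → p ∣ A) (hP0 : 0 < P) :
    (((range L).filter (fun t => ∃ p : ℕ, p.Prime ∧ ¬ p ∣ A ∧ p ^ 2 ∣ A * t + B)).card : ℝ) ≤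
      (L : ℝ) / P + Nat.sqrt V := by
  classical
  set D := (Ioc P (Nat.sqrt V)).filter (fun p => p.Prime ∧ ¬ p ∣ A) with hD
  have hsub : (range L).filter (fun t => ∃ p : ℕ, p.Prime ∧ ¬ p ∣ A ∧ p ^ 2 ∣ A * t + B) ⊆
      D.biUnion (fun p => (range L).filter (fun t => p ^ 2 ∣ A * t + B)) := by
    intro t ht
    rw [mem_filter] at ht
    obtain ⟨htL, p, hp, hpA, hpd⟩ := ht
    rw [mem_biUnion]
    refine ⟨p, ?_, ?_⟩
    · rw [hD, mem_filter, mem_Ioc]
      refine ⟨⟨?_, ?_⟩, hp, hpA⟩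
      · by_contra h
        exact hpA (hP p hp (not_lt.1 h))
      · rw [Nat.le_sqrt']
        have h1 : p ^ 2 ≤ A * t + B := Nat.le_of_dvd (by omega) hpd
        exact h1.trans (hV t (mem_range.1 htL))
    · rw [mem_filter]
      exact ⟨htL, hpd⟩
  have h1 : (((range L).filter (fun t => ∃ p : ℕ, p.Prime ∧ ¬ p ∣ A ∧ p ^ 2 ∣ A * t + B)).card : ℝ) ≤
      ∑ p ∈ D, (((range L).filter (fun t => p ^ 2 ∣ A * t + B)).card : ℝ) := by
    have h2 := (card_le_card hsub).trans card_biUnion_le
    exact_mod_cast h2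
  refine h1.trans ?_
  have h2 : ∑ p ∈ D, (((range L).filter (fun t => p ^ 2 ∣ A * t + B)).card : ℝ) ≤
      ∑ p ∈ D, ((L : ℝ) * ((p : ℝ) ^ 2)⁻¹ + 1) := by
    apply sum_le_sum
    intro p hp
    rw [hD, mem_filter] at hp
    have h3 : Nat.Coprime (p ^ 2) A := by
      apply Nat.Coprime.pow_left
      exact (Nat.Prime.coprime_iff_not_dvd hp.2.1).2 hp.2.2
    have h4 := card_dvd_linear_real (B := B) (L := L) h3
    push_cast at h4
    rw [div_eq_mul_inv] at h4
    exact h4
  refine h2.trans ?_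
  have h5 : ∑ p ∈ D, ((L : ℝ) * ((p : ℝ) ^ 2)⁻¹ + 1) ≤
      ∑ p ∈ Ioc P (Nat.sqrt V), ((L : ℝ) * ((p : ℝ) ^ 2)⁻¹ + 1) := by
    apply sum_le_sum_of_subset_of_nonneg
    · rw [hD]; exact filter_subset _ _
    · intro i _ _; positivity
  refine h5.trans ?_
  rw [sum_add_distrib, ← mul_sum]
  have h6 : ∑ i ∈ Ioc P (Nat.sqrt V), ((i : ℝ) ^ 2)⁻¹ ≤ (P : ℝ)⁻¹ := by
    rcases le_or_gt P (Nat.sqrt V) with h | h
    · have h7 := sum_Ioc_inv_sq_le_sub (α := ℝ) (k := P) (n := Nat.sqrt V) hP0.ne' h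
      have h8 : (0 : ℝ) ≤ ((Nat.sqrt V : ℕ) : ℝ)⁻¹ := by positivity
      linarith
    · rw [Ioc_eq_empty (by omega)]
      simp
  have h9 : ∑ i ∈ Ioc P (Nat.sqrt V), (1 : ℝ) ≤ Nat.sqrt V := by
    rw [sum_const, Nat.card_Ioc, nsmul_eq_mul, mul_one]
    exact_mod_cast Nat.sub_le _ _
  have h10 : (L : ℝ) * ∑ i ∈ Ioc P (Nat.sqrt V), ((i : ℝ) ^ 2)⁻¹ ≤ (L : ℝ) / P := by
    rw [div_eq_mul_inv]
    exact mul_le_mul_of_nonneg_left h6 (by positivity)
  linarith

/-- weighted sums over prime divisors of the values of a linear form -/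
lemma sum_weight {A B L : ℕ} (D : Finset ℕ) (hD : ∀ p ∈ D, p.Prime) (f : ℕ → ℝ)
    (hf : ∀ p, 0 ≤ f p) :
    ∑ t ∈ range L, ∑ p ∈ D.filter (fun p => ¬ p ∣ A ∧ p ∣ A * t + B), f p ≤
      ∑ p ∈ D, f p * ((L : ℝ) / p + 1) := by
  classical
  have h1 : ∀ t, ∑ p ∈ D.filter (fun p => ¬ p ∣ A ∧ p ∣ A * t + B), f p =
      ∑ p ∈ D, if (¬ p ∣ A ∧ p ∣ A * t + B) then f p else 0 := fun t => sum_filter _ _
  simp_rw [h1]
  rw [sum_comm]
  apply sum_le_sum
  intro p hp
  by_cases hpA : p ∣ A
  · simp only [hpA, not_true_eq_false, false_and, if_false, sum_const_zero]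
    have := hf p
    positivity
  · simp only [hpA, not_false_eq_true, true_and]
    rw [← sum_filter, sum_const, nsmul_eq_mul, mul_comm]
    apply mul_le_mul_of_nonneg_left _ (hf p)
    exact card_dvd_linear_real ((Nat.Prime.coprime_iff_not_dvd (hD p hp)).2 hpA)

/-- Markov's inequality -/
lemma markov {L : ℕ} (F : ℕ → ℝ) (hF : ∀ t, 0 ≤ F t) {lam Sg : ℝ} (hlam : 0 < lam)
    (h : ∑ t ∈ range L, F t ≤ Sg) :
    (((range L).filter (fun t => lam < F t)).card : ℝ) ≤ Sg / lam := by
  rw [le_div_iff₀ hlam]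
  calc (((range L).filter (fun t => lam < F t)).card : ℝ) * lam
      = ∑ t ∈ (range L).filter (fun t => lam < F t), lam := by
        rw [sum_const, nsmul_eq_mul]
    _ ≤ ∑ t ∈ (range L).filter (fun t => lam < F t), F t := by
        apply sum_le_sum
        intro t ht
        exact (mem_filter.1 ht).2.le
    _ ≤ ∑ t ∈ range L, F t := by
        apply sum_le_sum_of_subset_of_nonneg (filter_subset _ _)
        intro i _ _; exact hF i
    _ ≤ Sg := h

/-- values divisible by one of the primes of a set -/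
lemma card_primes {A B L : ℕ} (D : Finset ℕ) (hD : ∀ p ∈ D, p.Prime) :
    (((range L).filter (fun t => ∃ p ∈ D, ¬ p ∣ A ∧ p ∣ A * t + B)).card : ℝ) ≤
      ∑ p ∈ D, ((L : ℝ) / p + 1) := by
  have h := sum_weight (A := A) (B := B) (L := L) D hD (fun _ => 1) (fun _ => zero_le_one)
  simp only [one_mul] at h
  refine le_trans ?_ h
  calc (((range L).filter (fun t => ∃ p ∈ D, ¬ p ∣ A ∧ p ∣ A * t + B)).card : ℝ)
      = ∑ t ∈ (range L).filter (fun t => ∃ p ∈ D, ¬ p ∣ A ∧ p ∣ A * t + B), (1 : ℝ) := by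
        rw [sum_const, nsmul_eq_mul, mul_one]
    _ ≤ ∑ t ∈ (range L).filter (fun t => ∃ p ∈ D, ¬ p ∣ A ∧ p ∣ A * t + B),
          ∑ p ∈ D.filter (fun p => ¬ p ∣ A ∧ p ∣ A * t + B), (1 : ℝ) := by
        apply sum_le_sum
        intro t ht
        obtain ⟨_, p, hp, h1, h2⟩ := mem_filter.1 ht
        rw [sum_const, nsmul_eq_mul, mul_one]
        have : 0 < (D.filter (fun p => ¬ p ∣ A ∧ p ∣ A * t + B)).card :=
          card_pos.2 ⟨p, mem_filter.2 ⟨hp, h1, h2⟩⟩
        exact_mod_cast this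
    _ ≤ _ := by
        apply sum_le_sum_of_subset_of_nonneg (filter_subset _ _)
        intro i _ _
        positivity

/-- primes below `y` -/
def primesBelow (y : ℕ) : Finset ℕ := (range y).filter Nat.Prime

lemma mem_primesBelow {y p : ℕ} : p ∈ primesBelow y ↔ p < y ∧ p.Prime := by
  simp [primesBelow]

lemma sum_log_primesBelow (y : ℕ) : ∑ p ∈ primesBelow y, Real.log p ≤ Real.log 4 * y := by
  have h := Chebyshev.theta_le_log4_mul_x (x := (y : ℝ)) (by positivity)
  refine le_trans ?_ h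
  rw [Chebyshev.theta, Nat.floor_natCast]
  apply sum_le_sum_of_subset_of_nonneg
  · intro p hp
    rw [mem_primesBelow] at hp
    rw [mem_filter, mem_Ioc]
    exact ⟨⟨hp.2.pos, hp.1.le⟩, hp.2⟩
  · intro i hi _
    rw [mem_filter, mem_Ioc] at hi
    exact Real.log_nonneg (by exact_mod_cast hi.1.1)

lemma sum_primeFactors_log_le {m : ℕ} (hm : 0 < m) : ∑ p ∈ m.primeFactors, Real.log p ≤ Real.log m := by
  rw [← Real.log_prod (fun p hp => by
    have := (Nat.prime_of_mem_primeFactors hp).pos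
    positivity)]
  apply Real.log_le_log
  · apply prod_pos
    intro p hp
    have := (Nat.prime_of_mem_primeFactors hp).pos
    exact_mod_cast this
  · have := Nat.le_of_dvd hm (Nat.prod_primeFactors_dvd m)
    have h2 : ((∏ p ∈ m.primeFactors, p : ℕ) : ℝ) ≤ m := by exact_mod_cast this
    push_cast at h2
    exact h2

/-- Mertens' upper bound -/
lemma sum_log_div (y : ℕ) (hy : 1 ≤ y) :
    ∑ p ∈ primesBelow y, Real.log p / p ≤ Real.log y + Real.log 4 := by
  have hy0 : (0 : ℝ) < y := by exact_mod_cast hy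
  -- sum over m of logs of prime divisors
  have h1 : ∑ m ∈ Icc 1 y, ∑ p ∈ m.primeFactors, Real.log p ≤ y * Real.log y := by
    calc ∑ m ∈ Icc 1 y, ∑ p ∈ m.primeFactors, Real.log p ≤ ∑ m ∈ Icc 1 y, Real.log y := by
          apply sum_le_sum
          intro m hm
          rw [mem_Icc] at hm
          refine (sum_primeFactors_log_le hm.1).trans ?_
          apply Real.log_le_log (by exact_mod_cast hm.1)
          exact_mod_cast hm.2
      _ = y * Real.log y := by rw [sum_const, Nat.card_Icc, nsmul_eq_mul]; simp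
  have h2 : ∑ p ∈ primesBelow y, Real.log p * ((y : ℝ) / p - 1) ≤
      ∑ m ∈ Icc 1 y, ∑ p ∈ m.primeFactors, Real.log p := by
    have h3 : ∑ m ∈ Icc 1 y, ∑ p ∈ primesBelow y, (if p ∣ m then Real.log p else 0) ≤
        ∑ m ∈ Icc 1 y, ∑ p ∈ m.primeFactors, Real.log p := by
      apply sum_le_sum
      intro m hm
      rw [mem_Icc] at hm
      rw [← sum_filter]
      apply sum_le_sum_of_subset_of_nonneg
      · intro p hp
        rw [mem_filter, mem_primesBelow] at hp
        exact Nat.mem_primeFactors.2 ⟨hp.1.2, hp.2, by omega⟩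
      · intro p hp _
        have := (Nat.prime_of_mem_primeFactors hp).pos
        exact Real.log_nonneg (by exact_mod_cast this)
    refine le_trans ?_ h3
    rw [sum_comm]
    apply sum_le_sum
    intro p hp
    rw [mem_primesBelow] at hp
    rw [← sum_filter, sum_const, nsmul_eq_mul, mul_comm]
    apply mul_le_mul_of_nonneg_right _ (Real.log_nonneg (by exact_mod_cast hp.2.pos))
    have h4 : ((Icc 1 y).filter (fun m => p ∣ m)).card = y / p := by
      have := Nat.card_multiples' y p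
      have h5 : (Icc 1 y).filter (fun m => p ∣ m) = (range (y + 1)).filter (fun k => k ≠ 0 ∧ p ∣ k) := by
        ext m
        simp only [mem_filter, mem_Icc, mem_range]
        omega
      rw [h5]
      exact this
    rw [h4]
    have h6 : (y : ℝ) / p < (y / p : ℕ) + 1 := by
      rw [div_lt_iff₀ (by exact_mod_cast hp.2.pos)]
      have := Nat.lt_div_mul_add hp.2.pos (a := y)
      have h7 : y < (y / p + 1) * p := by rw [add_mul, one_mul]; exact this
      exact_mod_cast h7
    linarith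
  have h8 := h2.trans h1
  have h9 : ∑ p ∈ primesBelow y, Real.log p * ((y : ℝ) / p - 1) =
      y * ∑ p ∈ primesBelow y, Real.log p / p - ∑ p ∈ primesBelow y, Real.log p := by
    rw [mul_sum, ← sum_sub_distrib]
    apply sum_congr rfl
    intro p hp
    ring
  rw [h9] at h8
  have h10 := sum_log_primesBelow y
  have h11 : y * ∑ p ∈ primesBelow y, Real.log p / p ≤ y * (Real.log y + Real.log 4) := by
    nlinarith
  exact le_of_mul_le_mul_left h11 hy0

lemma sum_inv_le_log (V : ℕ) : ∑ p ∈ primesBelow (V + 1), (1 : ℝ) / p ≤ 1 + Real.log V := by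
  have h := harmonic_le_one_add_log V
  refine le_trans ?_ h
  rw [harmonic_eq_sum_Icc]
  push_cast
  simp_rw [one_div]
  apply sum_le_sum_of_subset_of_nonneg
  · intro p hp
    rw [mem_primesBelow] at hp
    rw [mem_Icc]
    exact ⟨hp.2.pos, by omega⟩
  · intro i _ _; positivity

lemma card_primeFactors_le_log {m : ℕ} (hm : 0 < m) : (m.primeFactors.card : ℝ) ≤ 2 * Real.log m := by
  have h1 : (m.primeFactors.card : ℝ) * Real.log 2 ≤ ∑ p ∈ m.primeFactors, Real.log p := by
    rw [← nsmul_eq_mul, ← sum_const]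
    apply sum_le_sum
    intro p hp
    have := (Nat.prime_of_mem_primeFactors hp).two_le
    exact Real.log_le_log (by norm_num) (by exact_mod_cast this)
  have h2 := h1.trans (sum_primeFactors_log_le hm)
  have h3 : (1 : ℝ) / 2 ≤ Real.log 2 := by
    have := Real.log_two_gt_d9
    linarith
  have h4 : (0 : ℝ) ≤ m.primeFactors.card := by positivity
  nlinarith

end Pool.Agent.H14.CN
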