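import Pool.Agent.H14.CN.Basic

set_option autoImplicit false

/-!
# Good members of an arithmetic progression
-/

namespace Pool.Agent.H14.CN

open Finset
open scoped Classical

/-- sum of `log p` over the primes below `y` which do not divide `A` and divide `m` -/
noncomputable def lsum (A y m : ℕ) : ℝ :=
  ∑ p ∈ (primesBelow y).filter (fun p => ¬ p ∣ A ∧ p ∣ m), Real.log p

/-- sum of `1/p` over the primes up to `V` which do not divide `A` and divide `m` -/
noncomputable def isum (A V m : ℕ) : ℝ :=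
  ∑ p ∈ (primesBelow (V + 1)).filter (fun p => ¬ p ∣ A ∧ p ∣ m), (1 : ℝ) / p

lemma lsum_nonneg (A y m : ℕ) : 0 ≤ lsum A y m := by
  apply sum_nonneg
  intro p hp
  rw [mem_filter, mem_primesBelow] at hp
  exact Real.log_nonneg (by exact_mod_cast hp.1.2.pos)

lemma isum_nonneg (A V m : ℕ) : 0 ≤ isum A V m := by
  apply sum_nonneg
  intro p _
  positivity

/-- the members of a progression with large smooth part are rare -/
lemma card_lsum {A B L y : ℕ} (hy : 1 ≤ y) {l : ℝ} (hl : 0 < l)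
    (h1 : Real.log y + Real.log 4 ≤ l / 10) {E : ℝ} (hE : Real.log 4 * y ≤ E * l) :
    (((range L).filter (fun t => l < lsum A y (A * t + B))).card : ℝ) ≤ (L : ℝ) / 10 + E := by
  have h2 := sum_weight (A := A) (B := B) (L := L) (primesBelow y)
    (fun p hp => (mem_primesBelow.1 hp).2) (fun p => Real.log p)
    (fun p => Real.log_natCast_nonneg p)
  have h3 := markov (L := L) (fun t => lsum A y (A * t + B)) (fun t => lsum_nonneg _ _ _) hl h2
  refine h3.trans ?_
  rw [div_le_iff₀ hl]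
  have h4 : ∑ p ∈ primesBelow y, Real.log p * ((L : ℝ) / p + 1) =
      L * ∑ p ∈ primesBelow y, Real.log p / p + ∑ p ∈ primesBelow y, Real.log p := by
    rw [mul_sum, ← sum_add_distrib]
    apply sum_congr rfl
    intro p _
    ring
  rw [h4]
  have h5 := sum_log_div y hy
  have h6 := sum_log_primesBelow y
  have h7 : (0 : ℝ) ≤ L := by positivity
  have h8 : (L : ℝ) * ∑ p ∈ primesBelow y, Real.log p / p ≤ L * (l / 10) :=
    mul_le_mul_of_nonneg_left (h5.trans h1) h7
  nlinarith

/-- the members of a progression with a large sum of `1/p` are rare -/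
lemma card_isum {A B L V P : ℕ} (hP : ∀ p : ℕ, p.Prime → p ≤ P → p ∣ A) (hP0 : 0 < P) {l : ℝ} (hl : 0 < l) :
    (((range L).filter (fun t => l < isum A V (A * t + B))).card : ℝ) ≤
      ((L : ℝ) / P + (1 + Real.log V)) / l := by
  have h2 : ∑ t ∈ range L, isum A V (A * t + B) ≤ (L : ℝ) / P + (1 + Real.log V) := by
    have h3 := sum_weight (A := A) (B := B) (L := L) ((primesBelow (V + 1)).filter (fun p => P < p))
      (fun p hp => (mem_primesBelow.1 (mem_filter.1 hp).1).2) (fun p => (1 : ℝ) / p)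
      (fun p => by positivity)
    have h4 : ∀ t, isum A V (A * t + B) = ∑ p ∈ ((primesBelow (V + 1)).filter (fun p => P < p)).filter
        (fun p => ¬ p ∣ A ∧ p ∣ A * t + B), (1 : ℝ) / p := by
      intro t
      rw [isum]
      apply sum_congr _ (fun _ _ => rfl)
      ext p
      simp only [mem_filter, mem_primesBelow]
      constructor
      · rintro ⟨⟨h1, h2⟩, h3, h4⟩
        exact ⟨⟨⟨h1, h2⟩, by by_contra h; exact h3 (hP p h2 (not_lt.1 h))⟩, h3, h4⟩
      · rintro ⟨⟨⟨h1, h2⟩, _⟩, h3, h4⟩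
        exact ⟨⟨h1, h2⟩, h3, h4⟩
    simp_rw [h4]
    refine h3.trans ?_
    have h5 : ∑ p ∈ (primesBelow (V + 1)).filter (fun p => P < p), (1 : ℝ) / p * ((L : ℝ) / p + 1) =
        L * ∑ p ∈ (primesBelow (V + 1)).filter (fun p => P < p), ((p : ℝ) ^ 2)⁻¹ +
        ∑ p ∈ (primesBelow (V + 1)).filter (fun p => P < p), (1 : ℝ) / p := by
      rw [mul_sum, ← sum_add_distrib]
      apply sum_congr rfl
      intro p hp
      rw [mem_filter, mem_primesBelow] at hp
      have : (p : ℝ) ≠ 0 := by exact_mod_cast hp.1.2.ne_zero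
      field_simp
    rw [h5]
    have h6 : ∑ p ∈ (primesBelow (V + 1)).filter (fun p => P < p), ((p : ℝ) ^ 2)⁻¹ ≤ (P : ℝ)⁻¹ := by
      rcases le_or_gt P V with h | h
      · have h7 := sum_Ioc_inv_sq_le_sub (α := ℝ) (k := P) (n := V) hP0.ne' h
        have h8 : (0 : ℝ) ≤ ((V : ℕ) : ℝ)⁻¹ := by positivity
        have h9 : ∑ p ∈ (primesBelow (V + 1)).filter (fun p => P < p), ((p : ℝ) ^ 2)⁻¹ ≤
            ∑ i ∈ Ioc P V, ((i : ℝ) ^ 2)⁻¹ := by
          apply sum_le_sum_of_subset_of_nonneg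
          · intro p hp
            rw [mem_filter, mem_primesBelow] at hp
            rw [mem_Ioc]
            exact ⟨hp.2, by omega⟩
          · intro i _ _; positivity
        linarith
      · have : (primesBelow (V + 1)).filter (fun p => P < p) = ∅ := by
          ext p
          simp only [mem_filter, mem_primesBelow, notMem_empty, iff_false]
          rintro ⟨⟨h1, _⟩, h2⟩
          omega
        rw [this]
        simp
    have h10 : ∑ p ∈ (primesBelow (V + 1)).filter (fun p => P < p), (1 : ℝ) / p ≤ 1 + Real.log V := by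
      refine le_trans ?_ (sum_inv_le_log V)
      apply sum_le_sum_of_subset_of_nonneg (filter_subset _ _)
      intro i _ _; positivity
    have h11 : (L : ℝ) * ∑ p ∈ (primesBelow (V + 1)).filter (fun p => P < p), ((p : ℝ) ^ 2)⁻¹ ≤ L / P := by
      rw [div_eq_mul_inv]
      exact mul_le_mul_of_nonneg_left h6 (by positivity)
    linarith
  exact markov (L := L) (fun t => isum A V (A * t + B)) (fun t => isum_nonneg _ _ _) hl h2

/-- conditions on `β = Q j + k` -/
def GoodBeta (Q k U V y : ℕ) (l : ℝ) (j : ℕ) : Prop :=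
  (¬ ∃ p : ℕ, p.Prime ∧ ¬ p ∣ Q ∧ p ^ 2 ∣ Q * j + k) ∧
  (¬ ∃ p ∈ U.primeFactors, ¬ p ∣ Q ∧ p ∣ Q * j + k) ∧
  lsum Q y (Q * j + k) ≤ l ∧ isum Q V (Q * j + k) ≤ 1 / 100

lemma card_goodBeta {Q k U V y J P : ℕ} {l E : ℝ}
    (hP : ∀ p : ℕ, p.Prime → p ≤ P → p ∣ Q) (hP0 : 1000 ≤ P) (hk : 0 < k)
    (hV : ∀ t, t < J → Q * t + k ≤ V) (hU : 0 < U)
    (hUs : ∑ p ∈ U.primeFactors, (1 : ℝ) / p ≤ 3 / 100)
    (hUE : 2 * Real.log U ≤ E) (hy : 1 ≤ y) (hl : 0 < l)
    (h1 : Real.log y + Real.log 4 ≤ l / 10) (hE : Real.log 4 * y ≤ E * l)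
    (hVE : (Nat.sqrt V : ℝ) ≤ E) (hVE' : 1 + Real.log V ≤ E) (hJ : 2000 * E ≤ J) :
    (J : ℝ) / 2 ≤ ((range J).filter (GoodBeta Q k U V y l)).card := by
  have hPr : (1000 : ℝ) ≤ P := by exact_mod_cast hP0
  have hJ0 : (0 : ℝ) ≤ J := by positivity
  have e1 := card_sq (A := Q) (B := k) (L := J) hV hk hP (by omega)
  have e2 := card_primes (A := Q) (B := k) (L := J) U.primeFactors
    (fun p hp => Nat.prime_of_mem_primeFactors hp)
  have e3 := card_lsum (A := Q) (B := k) (L := J) hy hl h1 hE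
  have e4 := card_isum (A := Q) (B := k) (L := J) (V := V) hP (by omega) (l := 1 / 100) (by norm_num)
  have hsub : range J ⊆ (range J).filter (GoodBeta Q k U V y l) ∪
      ((range J).filter (fun t => ∃ p : ℕ, p.Prime ∧ ¬ p ∣ Q ∧ p ^ 2 ∣ Q * t + k) ∪
      ((range J).filter (fun t => ∃ p ∈ U.primeFactors, ¬ p ∣ Q ∧ p ∣ Q * t + k) ∪
      ((range J).filter (fun t => l < lsum Q y (Q * t + k)) ∪
      (range J).filter (fun t => (1 : ℝ) / 100 < isum Q V (Q * t + k))))) := by
    intro t ht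
    simp only [mem_union, mem_filter, ht, true_and]
    by_contra hcon
    push Not at hcon
    obtain ⟨c1, c2, c3, c4, c5⟩ := hcon
    apply c1
    refine ⟨?_, ?_, c4, c5⟩
    · rintro ⟨p, hp, hpQ, hpd⟩
      exact c2 p hp hpQ hpd
    · rintro ⟨p, hp, hpQ, hpd⟩
      exact c3 p hp hpQ hpd
  have hcard := card_le_card hsub
  rw [card_range] at hcard
  have hcard2 : (J : ℝ) ≤ ((range J).filter (GoodBeta Q k U V y l)).card +
      (((range J).filter (fun t => ∃ p : ℕ, p.Prime ∧ ¬ p ∣ Q ∧ p ^ 2 ∣ Q * t + k)).card +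
      (((range J).filter (fun t => ∃ p ∈ U.primeFactors, ¬ p ∣ Q ∧ p ∣ Q * t + k)).card +
      (((range J).filter (fun t => l < lsum Q y (Q * t + k))).card +
      ((range J).filter (fun t => (1 : ℝ) / 100 < isum Q V (Q * t + k))).card))) := by
    have := hcard.trans ((card_union_le _ _).trans (Nat.add_le_add_left ((card_union_le _ _).trans
      (Nat.add_le_add_left ((card_union_le _ _).trans (Nat.add_le_add_left (card_union_le _ _) _)) _)) _))
    exact_mod_cast this
  have e2' : ∑ p ∈ U.primeFactors, ((J : ℝ) / p + 1) ≤ J * (3 / 100) + E := by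
    have h3 : ∑ p ∈ U.primeFactors, ((J : ℝ) / p + 1) =
        J * ∑ p ∈ U.primeFactors, (1 : ℝ) / p + U.primeFactors.card := by
      rw [sum_add_distrib, mul_sum, sum_const, nsmul_eq_mul, mul_one]
      congr 1
      apply sum_congr rfl
      intro p _
      ring
    rw [h3]
    have h4 := card_primeFactors_le_log hU
    have h5 := mul_le_mul_of_nonneg_left hUs hJ0
    linarith
  have e1' : (J : ℝ) / P ≤ J / 1000 := div_le_div_of_nonneg_left hJ0 (by norm_num) hPr
  have e4' : ((J : ℝ) / P + (1 + Real.log V)) / (1 / 100) ≤ 100 * (J / 1000 + E) := by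
    rw [div_div_eq_mul_div, div_one, mul_comm]
    linarith
  linarith

end Pool.Agent.H14.CN
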