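import Pool.Agent.H14.CN.LowerMain

set_option autoImplicit false

/-!
# The parametrisation of the triangles
-/

namespace Pool.Agent.H14.CN

open Finset
open scoped Classical

lemma dvd_of_sq_dvd {n g s : ℕ} (hn : Squarefree n) (hg : 0 < g) (h : g ^ 2 ∣ n * s ^ 2) : g ∣ s := by
  set d := Nat.gcd g s with hd
  have hd0 : 0 < d := Nat.gcd_pos_of_pos_left _ hg
  obtain ⟨g', hg'⟩ := Nat.gcd_dvd_left g s
  obtain ⟨s', hs'⟩ := Nat.gcd_dvd_right g s
  rw [← hd] at hg' hs'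
  have hcop : Nat.Coprime g' s' := by
    have h1 := Nat.coprime_div_gcd_div_gcd (m := g) (n := s) hd0
    rw [← hd] at h1
    have h2 : g / d = g' := by rw [hg']; exact Nat.mul_div_cancel_left _ hd0
    have h3 : s / d = s' := by rw [hs']; exact Nat.mul_div_cancel_left _ hd0
    rwa [h2, h3] at h1
  have h4 : d ^ 2 * g' ^ 2 ∣ d ^ 2 * (n * s' ^ 2) := by
    have e1 : d ^ 2 * g' ^ 2 = g ^ 2 := by rw [hg', mul_pow]
    have e2 : d ^ 2 * (n * s' ^ 2) = n * s ^ 2 := by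
      calc d ^ 2 * (n * s' ^ 2) = n * (d * s') ^ 2 := by ring
        _ = n * s ^ 2 := by rw [← hs']
    rw [e1, e2]; exact h
  have h5 : g' ^ 2 ∣ n * s' ^ 2 := Nat.dvd_of_mul_dvd_mul_left (by positivity) h4
  have h6 : g' ^ 2 ∣ n := (Nat.Coprime.pow 2 2 hcop).dvd_of_dvd_mul_right h5
  have h8 : g' = 1 := by
    rw [pow_two] at h6
    exact Nat.isUnit_iff.1 (hn g' h6)
  rw [h8, mul_one] at hg'
  rw [hg']
  exact Nat.gcd_dvd_right g s

/-- the parametrisation of primitive triples -/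
lemma prim_param {x y z : ℕ} (hx : 0 < x) (hy : 0 < y) (hc : Nat.Coprime x y)
    (h : x ^ 2 + y ^ 2 = z ^ 2) :
    ∃ a b : ℕ, 0 < b ∧ b < a ∧ Nat.Coprime a b ∧ (a + b) % 2 = 1 ∧ x * y = 2 * (a * b * ((a - b) * (a + b))) := by
  have key : ∀ x y : ℕ, 0 < x → 0 < y → Nat.Coprime x y → x ^ 2 + y ^ 2 = z ^ 2 → x % 2 = 1 →
      ∃ a b : ℕ, 0 < b ∧ b < a ∧ Nat.Coprime a b ∧ (a + b) % 2 = 1 ∧
        x * y = 2 * (a * b * ((a - b) * (a + b))) := by
    intro x y hx hy hc h hodd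
    have hz : 0 < z := by
      rcases Nat.eq_zero_or_pos z with h0 | h0
      · rw [h0] at h
        have : 0 < x ^ 2 := by positivity
        have : (0 : ℕ) ^ 2 = 0 := by norm_num
        omega
      · exact h0
    have hp : PythagoreanTriple (x : ℤ) y z := by
      unfold PythagoreanTriple
      have : (x : ℤ) ^ 2 + (y : ℤ) ^ 2 = (z : ℤ) ^ 2 := by exact_mod_cast h
      linarith
    have hg : Int.gcd (x : ℤ) y = 1 := by
      rw [Int.gcd_natCast_natCast]; exact hc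
    obtain ⟨m, n, e1, e2, -, hmn, hpar, hm⟩ :=
      PythagoreanTriple.coprime_classification' hp hg (by omega) (by exact_mod_cast hz)
    have hm0 : 0 < m := by
      rcases hm.lt_or_eq with h1 | h1
      · exact h1
      · exfalso
        rw [← h1] at e2
        have : (0 : ℤ) < y := by exact_mod_cast hy
        simp at e2
        omega
    have hn0 : 0 < n := by
      have h1 : (0 : ℤ) < y := by exact_mod_cast hy
      rw [e2] at h1
      by_contra hcon
      rw [not_lt] at hcon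
      nlinarith
    have hmn' : n < m := by
      have h1 : (0 : ℤ) < x := by exact_mod_cast hx
      rw [e1] at h1
      by_contra hcon
      rw [not_lt] at hcon
      nlinarith
    obtain ⟨a, rfl⟩ := Int.eq_ofNat_of_zero_le hm0.le
    obtain ⟨b, rfl⟩ := Int.eq_ofNat_of_zero_le hn0.le
    have hba : b < a := by exact_mod_cast hmn'
    refine ⟨a, b, by exact_mod_cast hn0, hba, ?_, ?_, ?_⟩
    · rw [Int.gcd_natCast_natCast] at hmn; exact hmn
    · omega
    · zify [hba.le]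
      rw [e1, e2]
      ring
  rcases Nat.mod_two_eq_zero_or_one x with h0 | h0
  · rcases Nat.mod_two_eq_zero_or_one y with h1 | h1
    · exfalso
      have h2 : 2 ∣ Nat.gcd x y := Nat.dvd_gcd (Nat.dvd_of_mod_eq_zero h0) (Nat.dvd_of_mod_eq_zero h1)
      rw [hc] at h2
      omega
    · obtain ⟨a, b, h2, h3, h4, h5, h6⟩ := key y x hy hx hc.symm (by rw [add_comm]; exact h) h1
      exact ⟨a, b, h2, h3, h4, h5, by rw [mul_comm, h6]⟩
  · exact key x y hx hy hc h h0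

/-- a squarefree number with a small triangle comes from a pair -/
lemma small_pair {n : ℕ} {S : ℝ} (hn : Squarefree n) (h : Small S n) :
    ∃ s a b : ℕ, 0 < s ∧ (s : ℝ) ≤ S ∧ 0 < b ∧ b < a ∧ Nat.Coprime a b ∧ (a + b) % 2 = 1 ∧
      n * s ^ 2 = a * b * ((a - b) * (a + b)) := by
  obtain ⟨s, x, y, z, hs, hsS, hx, hy, hxyz, hxy⟩ := h
  set g := Nat.gcd x y with hg
  have hg0 : 0 < g := Nat.gcd_pos_of_pos_left _ hx
  obtain ⟨x', hx'⟩ := Nat.gcd_dvd_left x y
  obtain ⟨y', hy'⟩ := Nat.gcd_dvd_right x y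
  rw [← hg] at hx' hy'
  have hcop : Nat.Coprime x' y' := by
    have h1 := Nat.coprime_div_gcd_div_gcd (m := x) (n := y) hg0
    rw [← hg] at h1
    have h2 : x / g = x' := by rw [hx']; exact Nat.mul_div_cancel_left _ hg0
    have h3 : y / g = y' := by rw [hy']; exact Nat.mul_div_cancel_left _ hg0
    rwa [h2, h3] at h1
  have hx'0 : 0 < x' := by
    rcases Nat.eq_zero_or_pos x' with h0 | h0
    · rw [h0, mul_zero] at hx'; omega
    · exact h0
  have hy'0 : 0 < y' := by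
    rcases Nat.eq_zero_or_pos y' with h0 | h0
    · rw [h0, mul_zero] at hy'; omega
    · exact h0
  have hgz : g ∣ z := by
    have h1 : g ^ 2 ∣ z ^ 2 := by
      rw [← hxyz]
      exact dvd_add (pow_dvd_pow_of_dvd (Nat.gcd_dvd_left x y) 2) (pow_dvd_pow_of_dvd (Nat.gcd_dvd_right x y) 2)
    exact (Nat.pow_dvd_pow_iff two_ne_zero).1 h1
  obtain ⟨z', hz'⟩ := hgz
  have hxyz' : x' ^ 2 + y' ^ 2 = z' ^ 2 := by
    have h1 : g ^ 2 * (x' ^ 2 + y' ^ 2) = g ^ 2 * z' ^ 2 := by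
      calc g ^ 2 * (x' ^ 2 + y' ^ 2) = (g * x') ^ 2 + (g * y') ^ 2 := by ring
        _ = x ^ 2 + y ^ 2 := by rw [← hx', ← hy']
        _ = z ^ 2 := hxyz
        _ = (g * z') ^ 2 := by rw [← hz']
        _ = _ := by ring
    exact Nat.eq_of_mul_eq_mul_left (by positivity) h1
  obtain ⟨a, b, hb, hba, hab, hpar, hprod⟩ := prim_param hx'0 hy'0 hcop hxyz'
  have h1 : g ^ 2 * (a * b * ((a - b) * (a + b))) = n * s ^ 2 := by
    have h2 : 2 * (g ^ 2 * (a * b * ((a - b) * (a + b)))) = 2 * (n * s ^ 2) := by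
      calc 2 * (g ^ 2 * (a * b * ((a - b) * (a + b)))) = g ^ 2 * (2 * (a * b * ((a - b) * (a + b)))) := by ring
        _ = g ^ 2 * (x' * y') := by rw [hprod]
        _ = (g * x') * (g * y') := by ring
        _ = x * y := by rw [← hx', ← hy']
        _ = 2 * n * s ^ 2 := hxy
        _ = _ := by ring
    omega
  have h2 : g ∣ s := dvd_of_sq_dvd hn hg0 ⟨_, h1.symm⟩
  obtain ⟨s', hs'⟩ := h2
  have hs'0 : 0 < s' := by
    rcases Nat.eq_zero_or_pos s' with h0 | h0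
    · rw [h0, mul_zero] at hs'; omega
    · exact h0
  refine ⟨s', a, b, hs'0, ?_, hb, hba, hab, hpar, ?_⟩
  · refine le_trans ?_ hsS
    have : s' ≤ s := by rw [hs']; exact Nat.le_mul_of_pos_left _ hg0
    exact_mod_cast this
  · have h3 : g ^ 2 * (n * s' ^ 2) = g ^ 2 * (a * b * ((a - b) * (a + b))) := by
      calc g ^ 2 * (n * s' ^ 2) = n * (g * s') ^ 2 := by ring
        _ = n * s ^ 2 := by rw [← hs']
        _ = _ := h1.symm
    exact Nat.eq_of_mul_eq_mul_left (by positivity) h3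

/-- the decomposition of the four factors -/
lemma pair_decomp {n s a b : ℕ} (hn : Squarefree n) (hs : 0 < s) (hb : 0 < b) (hba : b < a)
    (hab : Nat.Coprime a b) (hpar : (a + b) % 2 = 1) (h : n * s ^ 2 = a * b * ((a - b) * (a + b))) :
    ∃ u v w z : ℕ, 0 < u ∧ 0 < v ∧ 0 < w ∧ 0 < z ∧ u * v * w * z = s ∧
      u ^ 2 ∣ a ∧ v ^ 2 ∣ b ∧ w ^ 2 ∣ a - b ∧ z ^ 2 ∣ a + b := by
  have ha : 0 < a := by omega
  obtain ⟨α, u, hα0, hu0, ea, sqα⟩ := Nat.sq_mul_squarefree_of_pos ha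
  obtain ⟨β, v, hβ0, hv0, eb, sqβ⟩ := Nat.sq_mul_squarefree_of_pos hb
  obtain ⟨γ, w, hγ0, hw0, ec, sqγ⟩ := Nat.sq_mul_squarefree_of_pos (show 0 < a - b by omega)
  obtain ⟨δ, z, hδ0, hz0, ed, sqδ⟩ := Nat.sq_mul_squarefree_of_pos (show 0 < a + b by omega)
  have dα : α ∣ a := ⟨u ^ 2, by rw [← ea]; ring⟩
  have dβ : β ∣ b := ⟨v ^ 2, by rw [← eb]; ring⟩
  have dγ : γ ∣ a - b := ⟨w ^ 2, by rw [← ec]; ring⟩
  have dδ : δ ∣ a + b := ⟨z ^ 2, by rw [← ed]; ring⟩
  have c1 : Nat.Coprime a b := hab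
  have c2 : Nat.Coprime a (a - b) := (Nat.coprime_self_sub_right hba.le).2 hab
  have c3 : Nat.Coprime a (a + b) := by
    rw [Nat.coprime_self_add_right]; exact hab
  have c4 : Nat.Coprime b (a - b) := by
    have := (Nat.coprime_sub_self_left (m := b) (n := a) (by omega)).2 hab
    exact this.symm
  have c5 : Nat.Coprime b (a + b) := by
    rw [Nat.coprime_add_self_right]; exact hab.symm
  have c6 : Nat.Coprime (a - b) (a + b) := by
    apply Nat.coprime_of_dvd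
    intro p hp h1 h2
    have h3 : p ∣ (a + b) + (a - b) := dvd_add h2 h1
    have h4 : p ∣ (a + b) - (a - b) := Nat.dvd_sub h2 h1
    rw [show (a + b) + (a - b) = 2 * a by omega] at h3
    rw [show (a + b) - (a - b) = 2 * b by omega] at h4
    rcases (Nat.Prime.dvd_mul hp).1 h3 with h5 | h5
    · have h6 : p = 2 := (Nat.prime_dvd_prime_iff_eq hp Nat.prime_two).1 h5
      rw [h6] at h2
      omega
    · rcases (Nat.Prime.dvd_mul hp).1 h4 with h6 | h6
      · have h6 : p = 2 := (Nat.prime_dvd_prime_iff_eq hp Nat.prime_two).1 h6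
        rw [h6] at h2
        omega
      · exact Nat.not_coprime_of_dvd_of_dvd hp.one_lt h5 h6 hab
  have sub : ∀ {p q r t : ℕ}, p ∣ r → q ∣ t → Nat.Coprime r t → Nat.Coprime p q := fun h1 h2 h3 =>
    Nat.Coprime.coprime_dvd_left h1 (Nat.Coprime.coprime_dvd_right h2 h3)
  have hsq : Squarefree (α * β * γ * δ) := by
    rw [Nat.squarefree_mul, Nat.squarefree_mul, Nat.squarefree_mul]
    · exact ⟨⟨⟨sqα, sqβ⟩, sqγ⟩, sqδ⟩
    · exact sub dα dβ c1
    · exact Nat.Coprime.mul_left (sub dα dγ c2) (sub dβ dγ c4)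
    · exact Nat.Coprime.mul_left (Nat.Coprime.mul_left (sub dα dδ c3) (sub dβ dδ c5)) (sub dγ dδ c6)
  have heq : n * s ^ 2 = (α * β * γ * δ) * (u * v * w * z) ^ 2 := by
    rw [h, ← ec, ← ed]
    calc a * b * (w ^ 2 * γ * (z ^ 2 * δ)) = (u ^ 2 * α) * (v ^ 2 * β) * (w ^ 2 * γ * (z ^ 2 * δ)) := by
          rw [ea, eb]
      _ = _ := by ring
  obtain ⟨-, h2⟩ := sq_mul_unique hn hsq heq hs (by positivity)
  exact ⟨u, v, w, z, hu0, hv0, hw0, hz0, h2.symm, ⟨α, ea.symm⟩, ⟨β, eb.symm⟩, ⟨γ, ec.symm⟩, ⟨δ, ed.symm⟩⟩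

end Pool.Agent.H14.CN
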