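import Pool.Agent.H14.CN.UpperMain

set_option autoImplicit false

/-!
# Both bounds, in terms of rational triangles
-/

namespace Pool.Agent.H14.CN

open Finset
open scoped Classical

lemma exists_par {e k M : ℕ} (he : e = 1 ∨ e = 2) (hk : Squarefree k) (hek : e = 2 → Odd k) (hM : 0 < M) :
    ∃ Q P : ℕ, Par e Q k P ∧ 2 * M ∣ Q := by
  obtain ⟨P, hP⟩ : ∃ P : ℕ, P = 1000 := ⟨_, rfl⟩
  have hk0 : 0 < k := Nat.pos_of_ne_zero hk.ne_zero
  have hf : 0 < Nat.factorial P := Nat.factorial_pos P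
  set R := 2 * M * k * Nat.factorial P with hR
  have hR0 : 0 < R := by positivity
  refine ⟨R ^ 2, P, ⟨he, ?_, by positivity, ?_, ?_, by omega, hk, hek, ?_⟩, ?_⟩
  · exact Dvd.dvd.pow ⟨M * k * Nat.factorial P, by rw [hR]; ring⟩ two_ne_zero
  · intro p hp hpR
    exact pow_dvd_pow_of_dvd (hp.dvd_of_dvd_pow hpR) 2
  · intro p hp hpP
    exact Dvd.dvd.pow (Dvd.dvd.mul_left ((Nat.dvd_factorial hp.pos hpP)) _) two_ne_zero
  · have h1 : k ∣ R ^ 2 := Dvd.dvd.pow ⟨2 * M * Nat.factorial P, by rw [hR]; ring⟩ two_ne_zero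
    exact Nat.le_of_dvd (by positivity) h1
  · exact Dvd.dvd.pow ⟨k * Nat.factorial P, by rw [hR]; ring⟩ two_ne_zero

/-- `n` is the area of a right triangle with rational sides whose least common denominator is
at most `S` -/
def AreaBelow (S : ℝ) (n : ℕ) : Prop :=
  ∃ a b c : ℚ, 0 < a ∧ 0 < b ∧ a ^ 2 + b ^ 2 = c ^ 2 ∧ (n : ℚ) = a * b / 2 ∧
    (((a.den.lcm b.den).lcm c.den : ℕ) : ℝ) ≤ S

lemma areaBelow_of_small {S : ℝ} {n : ℕ} (h : Small S n) : AreaBelow S n := by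
  obtain ⟨s, x, y, z, hs, hsS, hx, hy, hxyz, hxy⟩ := h
  have hsq : (0 : ℚ) < s := by exact_mod_cast hs
  have hxq : (0 : ℚ) < x := by exact_mod_cast hx
  have hyq : (0 : ℚ) < y := by exact_mod_cast hy
  have hden : ∀ t : ℕ, ((t : ℚ) / s).den ∣ s := by
    intro t
    have h3 := Rat.den_dvd (t : ℤ) (s : ℤ)
    have h4 : Rat.divInt (t : ℤ) (s : ℤ) = (t : ℚ) / s := by
      rw [Rat.divInt_eq_div]
      simp only [Int.cast_natCast]
    rw [h4] at h3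
    exact Int.natCast_dvd_natCast.1 h3
  refine ⟨x / s, y / s, z / s, by positivity, by positivity, ?_, ?_, ?_⟩
  · have h1 : (x : ℚ) ^ 2 + (y : ℚ) ^ 2 = (z : ℚ) ^ 2 := by exact_mod_cast hxyz
    rw [div_pow, div_pow, div_pow, ← add_div, h1]
  · have h1 : (x : ℚ) * y = 2 * n * s ^ 2 := by exact_mod_cast hxy
    have h2 : (x : ℚ) / s * (y / s) / 2 = (x * y) / (2 * s ^ 2) := by
      field_simp
    rw [h2, h1]
    field_simp
  · refine le_trans ?_ hsS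
    have h1 : (((x : ℚ) / s).den.lcm ((y : ℚ) / s).den).lcm ((z : ℚ) / s).den ∣ s :=
      Nat.lcm_dvd (Nat.lcm_dvd (hden x) (hden y)) (hden z)
    exact_mod_cast Nat.le_of_dvd hs h1

lemma small_of_areaBelow {S : ℝ} {n : ℕ} (h : AreaBelow S n) : Small S n := by
  obtain ⟨a, b, c, ha, hb, habc, hn, hS⟩ := h
  set s := (a.den.lcm b.den).lcm c.den with hs
  have hs0 : 0 < s := Nat.lcm_pos (Nat.lcm_pos a.den_pos b.den_pos) c.den_pos
  have hsq : (0 : ℚ) < s := by exact_mod_cast hs0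
  have key : ∀ t : ℚ, t.den ∣ s → ∃ m : ℤ, t * s = m := by
    intro t ht
    obtain ⟨r, hr⟩ := ht
    refine ⟨t.num * r, ?_⟩
    rw [hr]
    push_cast
    rw [← mul_assoc, Rat.mul_den_eq_num]
  obtain ⟨x, hx⟩ := key a ((Nat.dvd_lcm_left _ _).trans (Nat.dvd_lcm_left _ _))
  obtain ⟨y, hy⟩ := key b ((Nat.dvd_lcm_right _ _).trans (Nat.dvd_lcm_left _ _))
  obtain ⟨z, hz⟩ := key c (Nat.dvd_lcm_right _ _)
  have hx0 : 0 < x := by
    have : (0 : ℚ) < x := by rw [← hx]; positivity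
    exact_mod_cast this
  have hy0 : 0 < y := by
    have : (0 : ℚ) < y := by rw [← hy]; positivity
    exact_mod_cast this
  obtain ⟨x', rfl⟩ := Int.eq_ofNat_of_zero_le hx0.le
  obtain ⟨y', rfl⟩ := Int.eq_ofNat_of_zero_le hy0.le
  refine ⟨s, x', y', z.natAbs, hs0, hS, by exact_mod_cast hx0, by exact_mod_cast hy0, ?_, ?_⟩
  · have h1 : ((x' : ℤ) : ℚ) ^ 2 + ((y' : ℤ) : ℚ) ^ 2 = (z : ℚ) ^ 2 := by
      rw [← hx, ← hy, ← hz, mul_pow, mul_pow, mul_pow, ← add_mul, habc]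
    have h2 : (x' : ℤ) ^ 2 + (y' : ℤ) ^ 2 = z ^ 2 := by exact_mod_cast h1
    have h3 : ((x' ^ 2 + y' ^ 2 : ℕ) : ℤ) = ((z.natAbs ^ 2 : ℕ) : ℤ) := by
      push_cast
      rw [sq_abs]
      exact h2
    exact_mod_cast h3
  · have h1 : ((x' : ℤ) : ℚ) * ((y' : ℤ) : ℚ) = 2 * n * s ^ 2 := by
      rw [← hx, ← hy, hn]; ring
    exact_mod_cast h1

lemma areaBelow_iff (S : ℝ) (n : ℕ) : AreaBelow S n ↔ Small S n :=
  ⟨small_of_areaBelow, areaBelow_of_small⟩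

/-- both bounds -/
theorem main {e k M : ℕ} (he : e = 1 ∨ e = 2) (hk : Squarefree k) (hek : e = 2 → Odd k) (hM : 0 < M)
    (A : ℕ → Prop) (hA1 : ∀ n, n ≡ e * k [MOD 2 * M] → A n) :
    ∃ c : ℝ, 0 < c ∧ ∃ S₀ : ℝ, ∀ X : ℕ, ∀ S : ℝ, S₀ ≤ S → S ^ 6 ≤ X →
      c * (Real.sqrt X * Real.log S ^ 4) ≤
        (({n : ℕ | n ≤ X ∧ Squarefree n ∧ A n ∧ AreaBelow S n} : Set ℕ).ncard : ℝ) ∧
      (({n : ℕ | n ≤ X ∧ Squarefree n ∧ A n ∧ AreaBelow S n} : Set ℕ).ncard : ℝ) ≤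
        176 * (Real.sqrt X * Real.log S ^ 4) := by
  obtain ⟨Q, P, hpar, hMQ⟩ := exists_par he hk hek hM
  obtain ⟨c, hc, S₀, X₀, h⟩ := lower hpar
  refine ⟨c, hc, max (max S₀ X₀) 3, ?_⟩
  intro X S hS hSX
  have h3 : 3 ≤ S := (le_max_right _ _).trans hS
  have hS0 : S₀ ≤ S := ((le_max_left _ _).trans (le_max_left _ _)).trans hS
  have hX0 : (X₀ : ℝ) ≤ S := ((le_max_right _ _).trans (le_max_left _ _)).trans hS
  have hSX' : S ≤ X := (le_self_pow₀ (by linarith) (by norm_num)).trans hSX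
  have hX : X₀ ≤ X := by exact_mod_cast hX0.trans hSX'
  have hset : ({n : ℕ | n ≤ X ∧ Squarefree n ∧ A n ∧ AreaBelow S n} : Set ℕ) =
      (((Icc 1 X).filter (fun n => Squarefree n ∧ A n ∧ Small S n) : Finset ℕ) : Set ℕ) := by
    ext n
    simp only [Set.mem_ofPred_eq, coe_filter, mem_Icc, areaBelow_iff]
    constructor
    · rintro ⟨h1, h2, h3, h4⟩
      exact ⟨⟨Nat.pos_of_ne_zero h2.ne_zero, h1⟩, h2, h3, h4⟩
    · rintro ⟨⟨_, h1⟩, h2, h3, h4⟩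
      exact ⟨h1, h2, h3, h4⟩
  rw [hset, Set.ncard_coe_finset]
  constructor
  · refine (h X hX S hS0 hSX').trans ?_
    have : cset X S e k Q ⊆ (Icc 1 X).filter (fun n => Squarefree n ∧ A n ∧ Small S n) := by
      intro n hn
      rw [cset, mem_filter] at hn
      rw [mem_filter]
      exact ⟨hn.1, hn.2.1, hA1 n (hn.2.2.1.of_dvd hMQ), hn.2.2.2⟩
    exact_mod_cast card_le_card this
  · refine le_trans ?_ (upper h3 hSX)
    have : (Icc 1 X).filter (fun n => Squarefree n ∧ A n ∧ Small S n) ⊆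
        (Icc 1 X).filter (fun n => Squarefree n ∧ Small S n) := by
      intro n hn
      rw [mem_filter] at hn ⊢
      exact ⟨hn.1, hn.2.1, hn.2.2.2⟩
    exact_mod_cast card_le_card this

end Pool.Agent.H14.CN
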