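import Pool.Agent.H14.CN.Smooth

set_option autoImplicit false

/-!
# Pairs which give squarefree congruent numbers
-/

namespace Pool.Agent.H14.CN

open Finset
open scoped Classical

/-- `b + γ w² = a`, `a + b = δ z²` with `a = α u²`, `b = e β (Q v)²` -/
def IsRep (e Q u v w z α β γ δ : ℕ) : Prop :=
  e * β * (Q * v) ^ 2 + γ * w ^ 2 = α * u ^ 2 ∧ α * u ^ 2 + e * β * (Q * v) ^ 2 = δ * z ^ 2

/-- the pair `(α, β)` gives a squarefree number with all the properties we need -/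
def Good (e Q k h y T u v w z α β : ℕ) : Prop :=
  ∃ γ δ : ℕ, IsRep e Q u v w z α β γ δ ∧ Squarefree (e * α * β * γ * δ) ∧
    Nat.Coprime (α * u ^ 2) (e * β * (Q * v) ^ 2) ∧ e * α * β * γ * δ ≡ e * k [MOD Q] ∧
    2 * h < α * u ^ 2 ∧ α * u ^ 2 ≤ 3 * h ∧ e * β * (Q * v) ^ 2 ≤ h ∧
    smooth y α ≤ T ∧ smooth y β ≤ T ∧ smooth y γ ≤ T

lemma coprime_of_modEq_one {m Q : ℕ} (h : m ≡ 1 [MOD Q]) : Nat.Coprime m Q := by
  have := h.gcd_eq
  rw [Nat.gcd_one_left] at this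
  exact this

lemma not_dvd_of_modEq_one {m Q p : ℕ} (hp : p.Prime) (hpQ : p ∣ Q) (h : m ≡ 1 [MOD Q]) : ¬ p ∣ m := by
  intro hpm
  have h1 := Nat.dvd_gcd hpm hpQ
  rw [coprime_of_modEq_one h] at h1
  exact hp.one_lt.ne' (Nat.dvd_one.1 h1)

lemma squarefree_of_forall {m : ℕ} (h : ∀ p : ℕ, p.Prime → ¬ p ^ 2 ∣ m) : Squarefree m := by
  rw [Nat.squarefree_iff_prime_squarefree]
  intro p hp hpd
  rw [← pow_two] at hpd
  exact h p hp hpd

section

variable {e Q k y Y u v w z j t a c d V h : ℕ}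

/-- the facts about primes -/
lemma good_of (he : e = 1 ∨ e = 2) (hQ2 : 2 ∣ Q) (hQ0 : 0 < Q) (hQsq : ∀ p : ℕ, p.Prime → p ∣ Q → p ^ 2 ∣ Q)
    (hk : Squarefree k) (hek : e = 2 → Odd k) (hY : 1 ≤ Y)
    (hu : u ≡ 1 [MOD Q]) (hw : w ≡ 1 [MOD Q]) (hz : z ≡ 1 [MOD Q])
    (hv0 : 0 < v) (huv : Nat.Coprime u v) (hvw : Nat.Coprime v w)
    (hvz : Nat.Coprime v z) (hu0 : 0 < u) (hw0 : 0 < w) (hz0 : 0 < z)
    (hβ : GoodBeta Q k (u * w * z) V y (Real.log Y) j)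
    (hrel1 : e * (Q * j + k) * (Q * v) ^ 2 + c * w ^ 2 = a * u ^ 2)
    (hrel2 : a * u ^ 2 + e * (Q * j + k) * (Q * v) ^ 2 = d * z ^ 2)
    (ha1 : a ≡ 1 [MOD Q])
    (ht : GoodT (Q * w ^ 2 * z ^ 2) a (Q * z ^ 2 * u ^ 2) c (Q * w ^ 2 * u ^ 2) d y
      ((Q * j + k) * v).primeFactors (Real.log Y) t)
    (s1 : 2 * h < (Q * w ^ 2 * z ^ 2 * t + a) * u ^ 2) (s2 : (Q * w ^ 2 * z ^ 2 * t + a) * u ^ 2 ≤ 3 * h)
    (s3 : e * (Q * j + k) * (Q * v) ^ 2 ≤ h) :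
    Good e Q k h y (Q * Y) u v w z (Q * w ^ 2 * z ^ 2 * t + a) (Q * j + k) := by
  obtain ⟨b1, b2, b3, -⟩ := hβ
  obtain ⟨t1, t2, t3, t4, t5, t6⟩ := ht
  set β := Q * j + k with hβdef
  set α := Q * w ^ 2 * z ^ 2 * t + a with hαdef
  set γ := Q * z ^ 2 * u ^ 2 * t + c with hγdef
  set δ := Q * w ^ 2 * u ^ 2 * t + d with hδdef
  have hk0 : 0 < k := Nat.pos_of_ne_zero hk.ne_zero
  have rel1 : e * β * (Q * v) ^ 2 + γ * w ^ 2 = α * u ^ 2 := by
    have : γ * w ^ 2 = Q * w ^ 2 * z ^ 2 * t * u ^ 2 + c * w ^ 2 := by rw [hγdef]; ring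
    rw [this, hαdef, add_mul, ← hrel1]; ring
  have rel2 : α * u ^ 2 + e * β * (Q * v) ^ 2 = δ * z ^ 2 := by
    have : δ * z ^ 2 = Q * w ^ 2 * z ^ 2 * t * u ^ 2 + d * z ^ 2 := by rw [hδdef]; ring
    rw [this, hαdef, add_mul, ← hrel2]; ring
  have hα1 : α ≡ 1 [MOD Q] := by
    have : Q * w ^ 2 * z ^ 2 * t + a ≡ 0 + a [MOD Q] := by
      apply Nat.ModEq.add_right
      rw [Nat.modEq_zero_iff_dvd]
      exact Dvd.intro _ (by ring : Q * (w ^ 2 * z ^ 2 * t) = _)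
    rw [zero_add] at this
    exact this.trans ha1
  have hβ1 : β ≡ k [MOD Q] := by
    have : Q * j + k ≡ 0 + k [MOD Q] := by
      apply Nat.ModEq.add_right
      rw [Nat.modEq_zero_iff_dvd]
      exact Dvd.intro _ rfl
    rwa [zero_add] at this
  have hβ0 : 0 < β := by omega
  have hα0 : 0 < α := by
    rcases Nat.eq_zero_or_pos α with h0 | h0
    · rw [h0] at s1; simp at s1
    · exact h0
  have heQ : ∀ p : ℕ, p.Prime → p ∣ e → p ∣ Q := by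
    intro p hp hpe
    rcases he with rfl | rfl
    · exact absurd (Nat.dvd_one.1 hpe) hp.one_lt.ne'
    · exact hpe.trans hQ2
  set A' := α * u ^ 2 with hA'
  set B' := e * β * (Q * v) ^ 2 with hB'
  have hA'1 : A' ≡ 1 [MOD Q] := by
    have := hα1.mul (hu.pow 2)
    simpa using this
  have hB'0 : ∀ p : ℕ, p ∣ Q → p ∣ B' := by
    intro p hp
    rw [hB']
    exact Dvd.dvd.mul_left (Dvd.dvd.pow (Dvd.dvd.mul_right hp _) two_ne_zero) _
  -- (5)
  have hβu : ∀ p : ℕ, p.Prime → p ∣ u * w * z → ¬ p ∣ β := by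
    intro p hp hpu hpβ
    apply b2
    refine ⟨p, Nat.mem_primeFactors.2 ⟨hp, hpu, by positivity⟩, ?_, hpβ⟩
    intro hpQ
    rcases (Nat.Prime.dvd_mul hp).1 hpu with h1 | h1
    · rcases (Nat.Prime.dvd_mul hp).1 h1 with h2 | h2
      · exact not_dvd_of_modEq_one hp hpQ hu h2
      · exact not_dvd_of_modEq_one hp hpQ hw h2
    · exact not_dvd_of_modEq_one hp hpQ hz h1
  -- primes dividing both
  have cop : ∀ p : ℕ, p.Prime → p ∣ A' → ¬ p ∣ B' := by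
    intro p hp hpA hpB
    have hpQ : ¬ p ∣ Q := fun h1 => not_dvd_of_modEq_one hp h1 hA'1 hpA
    have hpe : ¬ p ∣ e := fun h1 => hpQ (heQ p hp h1)
    have hpB2 : p ∣ β ∨ p ∣ v := by
      rw [hB'] at hpB
      rcases (Nat.Prime.dvd_mul hp).1 hpB with h1 | h1
      · rcases (Nat.Prime.dvd_mul hp).1 h1 with h2 | h2
        · exact absurd h2 hpe
        · exact Or.inl h2
      · have h2 := hp.dvd_of_dvd_pow h1
        rcases (Nat.Prime.dvd_mul hp).1 h2 with h3 | h3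
        · exact absurd h3 hpQ
        · exact Or.inr h3
    have hpA2 : p ∣ α ∨ p ∣ u := by
      rcases (Nat.Prime.dvd_mul hp).1 hpA with h1 | h1
      · exact Or.inl h1
      · exact Or.inr (hp.dvd_of_dvd_pow h1)
    rcases hpA2 with h1 | h1
    · -- p ∣ α
      by_cases hpq : p ∣ Q * w ^ 2 * z ^ 2
      · have hpwz : p ∣ w ∨ p ∣ z := by
          rcases (Nat.Prime.dvd_mul hp).1 hpq with h2 | h2
          · rcases (Nat.Prime.dvd_mul hp).1 h2 with h3 | h3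
            · exact absurd h3 hpQ
            · exact Or.inl (hp.dvd_of_dvd_pow h3)
          · exact Or.inr (hp.dvd_of_dvd_pow h2)
        rcases hpB2 with h2 | h2
        · rcases hpwz with h3 | h3
          · exact hβu p hp (Dvd.dvd.mul_right (Dvd.dvd.mul_left h3 _) _) h2
          · exact hβu p hp (Dvd.dvd.mul_left h3 _) h2
        · rcases hpwz with h3 | h3
          · exact Nat.not_coprime_of_dvd_of_dvd hp.one_lt h2 h3 hvw
          · exact Nat.not_coprime_of_dvd_of_dvd hp.one_lt h2 h3 hvz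
      · apply t4
        refine ⟨p, Nat.mem_primeFactors.2 ⟨hp, ?_, by positivity⟩, hpq, h1⟩
        rcases hpB2 with h2 | h2
        · exact Dvd.dvd.mul_right h2 _
        · exact Dvd.dvd.mul_left h2 _
    · rcases hpB2 with h2 | h2
      · exact hβu p hp (Dvd.dvd.mul_right (Dvd.dvd.mul_right h1 _) _) h2
      · exact Nat.not_coprime_of_dvd_of_dvd hp.one_lt h1 h2 huv
  -- divisibility transfers
  have tr1 : ∀ p : ℕ, p ∣ γ * w ^ 2 → p ∣ A' → p ∣ B' := by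
    intro p h1 h2
    rw [← rel1] at h2
    exact (Nat.dvd_add_left h1).1 h2
  have tr1' : ∀ p : ℕ, p ∣ γ * w ^ 2 → p ∣ B' → p ∣ A' := by
    intro p h1 h2
    rw [← rel1]
    exact dvd_add h2 h1
  have tr2 : ∀ p : ℕ, p ∣ δ * z ^ 2 → p ∣ A' → p ∣ B' := by
    intro p h1 h2
    rw [← rel2] at h1
    exact (Nat.dvd_add_right h2).1 h1
  have tr2' : ∀ p : ℕ, p ∣ δ * z ^ 2 → p ∣ B' → p ∣ A' := by
    intro p h1 h2
    rw [← rel2] at h1
    exact (Nat.dvd_add_left h2).1 h1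
  have tr3 : ∀ p : ℕ, p.Prime → p ∣ γ * w ^ 2 → p ∣ δ * z ^ 2 → p ∣ Q := by
    intro p hp h1 h2
    by_contra hpQ
    have h3 : δ * z ^ 2 = 2 * B' + γ * w ^ 2 := by rw [← rel2, ← rel1]; ring
    rw [h3] at h2
    have h4 : p ∣ 2 * B' := (Nat.dvd_add_left h1).1 h2
    rcases (Nat.Prime.dvd_mul hp).1 h4 with h5 | h5
    · exact hpQ (h5.trans hQ2)
    · exact cop p hp (tr1' p h1 h5) h5
  have hγw : ∀ p : ℕ, p.Prime → p ∣ γ * w ^ 2 → ¬ p ∣ Q := by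
    intro p hp h1 hpQ
    exact not_dvd_of_modEq_one hp hpQ hA'1 (tr1' p h1 (hB'0 p hpQ))
  have hδz : ∀ p : ℕ, p.Prime → p ∣ δ * z ^ 2 → ¬ p ∣ Q := by
    intro p hp h1 hpQ
    exact not_dvd_of_modEq_one hp hpQ hA'1 (tr2' p h1 (hB'0 p hpQ))
  have dγ : ∀ p : ℕ, p ∣ γ → p ∣ γ * w ^ 2 := fun p h1 => Dvd.dvd.mul_right h1 _
  have dw : ∀ p : ℕ, p ∣ w → p ∣ γ * w ^ 2 := fun p h1 =>
    Dvd.dvd.mul_left (Dvd.dvd.pow h1 two_ne_zero) _
  have dδ : ∀ p : ℕ, p ∣ δ → p ∣ δ * z ^ 2 := fun p h1 => Dvd.dvd.mul_right h1 _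
  have dz : ∀ p : ℕ, p ∣ z → p ∣ δ * z ^ 2 := fun p h1 =>
    Dvd.dvd.mul_left (Dvd.dvd.pow h1 two_ne_zero) _
  have dα : ∀ p : ℕ, p ∣ α → p ∣ A' := fun p h1 => Dvd.dvd.mul_right h1 _
  have du : ∀ p : ℕ, p ∣ u → p ∣ A' := fun p h1 => Dvd.dvd.mul_left (Dvd.dvd.pow h1 two_ne_zero) _
  have dβ : ∀ p : ℕ, p ∣ β → p ∣ B' := fun p h1 => by
    rw [hB']; exact Dvd.dvd.mul_right (Dvd.dvd.mul_left h1 _) _
  have de : ∀ p : ℕ, p ∣ e → p ∣ B' := fun p h1 => by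
    rw [hB']; exact Dvd.dvd.mul_right (Dvd.dvd.mul_right h1 _) _
  -- primes dividing α do not divide q
  have hαq : ∀ p : ℕ, p.Prime → p ∣ Q * w ^ 2 * z ^ 2 → ¬ p ∣ α := by
    intro p hp hpq hpα
    rcases (Nat.Prime.dvd_mul hp).1 hpq with h1 | h1
    · rcases (Nat.Prime.dvd_mul hp).1 h1 with h2 | h2
      · exact not_dvd_of_modEq_one hp h2 hα1 hpα
      · exact cop p hp (dα p hpα) (tr1 p (dw p (hp.dvd_of_dvd_pow h2)) (dα p hpα))
    · exact cop p hp (dα p hpα) (tr2 p (dz p (hp.dvd_of_dvd_pow h1)) (dα p hpα))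
  have hγq : ∀ p : ℕ, p.Prime → p ∣ Q * z ^ 2 * u ^ 2 → ¬ p ∣ γ := by
    intro p hp hpq hpγ
    rcases (Nat.Prime.dvd_mul hp).1 hpq with h1 | h1
    · rcases (Nat.Prime.dvd_mul hp).1 h1 with h2 | h2
      · exact hγw p hp (dγ p hpγ) h2
      · exact hγw p hp (dγ p hpγ) (tr3 p hp (dγ p hpγ) (dz p (hp.dvd_of_dvd_pow h2)))
    · have h2 := du p (hp.dvd_of_dvd_pow h1)
      exact cop p hp h2 (tr1 p (dγ p hpγ) h2)
  have hδq : ∀ p : ℕ, p.Prime → p ∣ Q * w ^ 2 * u ^ 2 → ¬ p ∣ δ := by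
    intro p hp hpq hpδ
    rcases (Nat.Prime.dvd_mul hp).1 hpq with h1 | h1
    · rcases (Nat.Prime.dvd_mul hp).1 h1 with h2 | h2
      · exact hδz p hp (dδ p hpδ) h2
      · exact hδz p hp (dδ p hpδ) (tr3 p hp (dw p (hp.dvd_of_dvd_pow h2)) (dδ p hpδ))
    · have h2 := du p (hp.dvd_of_dvd_pow h1)
      exact cop p hp h2 (tr2 p (dδ p hpδ) h2)
  have sqα : Squarefree α := by
    apply squarefree_of_forall
    intro p hp hpd
    have hpα : p ∣ α := (dvd_pow_self p two_ne_zero).trans hpd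
    by_cases hpq : p ∣ Q * w ^ 2 * z ^ 2
    · exact hαq p hp hpq hpα
    · exact t1 ⟨p, hp, hpq, hpd⟩
  have sqγ : Squarefree γ := by
    apply squarefree_of_forall
    intro p hp hpd
    have hpα : p ∣ γ := (dvd_pow_self p two_ne_zero).trans hpd
    by_cases hpq : p ∣ Q * z ^ 2 * u ^ 2
    · exact hγq p hp hpq hpα
    · exact t2 ⟨p, hp, hpq, hpd⟩
  have sqδ : Squarefree δ := by
    apply squarefree_of_forall
    intro p hp hpd
    have hpα : p ∣ δ := (dvd_pow_self p two_ne_zero).trans hpd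
    by_cases hpq : p ∣ Q * w ^ 2 * u ^ 2
    · exact hδq p hp hpq hpα
    · exact t3 ⟨p, hp, hpq, hpd⟩
  have sqβ : Squarefree β := by
    apply squarefree_of_forall
    intro p hp hpd
    by_cases hpQ : p ∣ Q
    · have h1 : p ^ 2 ∣ k := by
        rw [hβdef] at hpd
        exact (Nat.dvd_add_right (Dvd.dvd.mul_right (hQsq p hp hpQ) _)).1 hpd
      rw [pow_two] at h1
      exact hp.one_lt.ne' (Nat.isUnit_iff.1 (hk p h1))
    · exact b1 ⟨p, hp, hpQ, hpd⟩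
  -- coprimality of the parts
  have c1 : Nat.Coprime α β := Nat.Coprime.symm (Nat.coprime_of_dvd (fun p hp h1 h2 =>
    cop p hp (dα p h2) (dβ p h1)))
  have c2 : Nat.Coprime α γ := Nat.coprime_of_dvd (fun p hp h1 h2 =>
    cop p hp (dα p h1) (tr1 p (dγ p h2) (dα p h1)))
  have c3 : Nat.Coprime α δ := Nat.coprime_of_dvd (fun p hp h1 h2 =>
    cop p hp (dα p h1) (tr2 p (dδ p h2) (dα p h1)))
  have c4 : Nat.Coprime β γ := Nat.coprime_of_dvd (fun p hp h1 h2 =>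
    cop p hp (tr1' p (dγ p h2) (dβ p h1)) (dβ p h1))
  have c5 : Nat.Coprime β δ := Nat.coprime_of_dvd (fun p hp h1 h2 =>
    cop p hp (tr2' p (dδ p h2) (dβ p h1)) (dβ p h1))
  have c6 : Nat.Coprime γ δ := Nat.coprime_of_dvd (fun p hp h1 h2 =>
    hγw p hp (dγ p h1) (tr3 p hp (dγ p h1) (dδ p h2)))
  have ce : ∀ m : ℕ, (∀ p : ℕ, p.Prime → p ∣ Q → p ∣ m → p ≠ 2) → Nat.Coprime e m := by
    intro m hm
    rcases he with rfl | rfl
    · exact Nat.coprime_one_left m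
    · rw [Nat.coprime_two_left]
      by_contra hodd
      rw [Nat.not_odd_iff_even] at hodd
      exact hm 2 Nat.prime_two hQ2 hodd.two_dvd rfl
  have ce1 : Nat.Coprime e α := ce α (fun p hp h1 h2 => absurd h2 (not_dvd_of_modEq_one hp h1 hα1))
  have ce2 : Nat.Coprime e β := by
    rcases he with rfl | rfl
    · exact Nat.coprime_one_left _
    · rw [Nat.coprime_two_left]
      have := hek rfl
      rw [hβdef]
      exact Even.add_odd (Even.mul_right (even_iff_two_dvd.2 hQ2) _) this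
  have ce3 : Nat.Coprime e γ := ce γ (fun p hp h1 h2 => absurd h1 (hγw p hp (dγ p h2)))
  have ce4 : Nat.Coprime e δ := ce δ (fun p hp h1 h2 => absurd h1 (hδz p hp (dδ p h2)))
  have sqe : Squarefree e := by
    rcases he with rfl | rfl
    · exact squarefree_one
    · exact Nat.prime_two.squarefree
  have hsq : Squarefree (e * α * β * γ * δ) := by
    rw [Nat.squarefree_mul, Nat.squarefree_mul, Nat.squarefree_mul, Nat.squarefree_mul]
    · exact ⟨⟨⟨⟨sqe, sqα⟩, sqβ⟩, sqγ⟩, sqδ⟩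
    · exact ce1
    · exact Nat.Coprime.mul_left ce2 c1
    · exact Nat.Coprime.mul_left (Nat.Coprime.mul_left ce3 c2) c4
    · exact Nat.Coprime.mul_left (Nat.Coprime.mul_left (Nat.Coprime.mul_left ce4 c3) c5) c6
  have hcopAB : Nat.Coprime A' B' := Nat.coprime_of_dvd (fun p hp h1 h2 => cop p hp h1 h2)
  -- congruences
  have hB'z : B' ≡ 0 [MOD Q] := (Nat.modEq_zero_iff_dvd).2 (hB'0 Q dvd_rfl)
  have hγ1 : γ ≡ 1 [MOD Q] := by
    have h1 : γ * w ^ 2 ≡ γ [MOD Q] := by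
      have := (hw.pow 2).mul_left γ
      simpa using this
    have h2 : B' + γ * w ^ 2 ≡ 1 [MOD Q] := by rw [rel1]; exact hA'1
    have h3 : B' + γ * w ^ 2 ≡ 0 + γ [MOD Q] := hB'z.add h1
    rw [zero_add] at h3
    exact h3.symm.trans h2
  have hδ1 : δ ≡ 1 [MOD Q] := by
    have h1 : δ * z ^ 2 ≡ δ [MOD Q] := by
      have := (hz.pow 2).mul_left δ
      simpa using this
    have h2 : A' + B' ≡ 1 + 0 [MOD Q] := hA'1.add hB'z
    rw [rel2] at h2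
    exact h1.symm.trans h2
  have hn : e * α * β * γ * δ ≡ e * k [MOD Q] := by
    have h1 : e * α ≡ e * 1 [MOD Q] := hα1.mul_left e
    have h2 := (((h1.mul hβ1).mul hγ1).mul hδ1)
    simpa using h2
  refine ⟨γ, δ, ⟨rel1, rel2⟩, hsq, hcopAB, hn, s1, s2, s3, ?_, ?_, ?_⟩
  · exact smooth_le hQ0 hα0 (fun p hp h1 h2 => absurd h2 (hαq p hp h1)) hY t5
  · exact smooth_le hQ0 hβ0 (fun p hp h1 h2 => h1) hY b3
  · have hγ0 : 0 < γ := Nat.pos_of_ne_zero sqγ.ne_zero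
    exact smooth_le hQ0 hγ0 (fun p hp h1 h2 => absurd h2 (hγq p hp h1)) hY t6

end

end Pool.Agent.H14.CN
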