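import Pool.Agent.H14.CN.Tuples

set_option autoImplicit false

/-!
# The lower bound
-/

namespace Pool.Agent.H14.CN

open Finset
open scoped Classical

/-- `n` is the area of a right triangle with sides `x/s`, `y/s`, `z/s` for some `s ≤ S` -/
def Small (S : ℝ) (n : ℕ) : Prop :=
  ∃ s x y z : ℕ, 0 < s ∧ (s : ℝ) ≤ S ∧ 0 < x ∧ 0 < y ∧ x ^ 2 + y ^ 2 = z ^ 2 ∧ x * y = 2 * n * s ^ 2

/-- the size of the parameters -/
def hgt (X s : ℕ) : ℕ := Nat.sqrt (Nat.sqrt (X * s ^ 2 / 27))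

lemma hgt_le (X s : ℕ) : 27 * hgt X s ^ 4 ≤ X * s ^ 2 := by
  have h1 : hgt X s ^ 2 ≤ Nat.sqrt (X * s ^ 2 / 27) := Nat.sqrt_le' _
  have h2 : Nat.sqrt (X * s ^ 2 / 27) ^ 2 ≤ X * s ^ 2 / 27 := Nat.sqrt_le' _
  have h3 : hgt X s ^ 4 ≤ X * s ^ 2 / 27 := by
    calc hgt X s ^ 4 = (hgt X s ^ 2) ^ 2 := by ring
      _ ≤ Nat.sqrt (X * s ^ 2 / 27) ^ 2 := Nat.pow_le_pow_left h1 2
      _ ≤ _ := h2
  omega

lemma lt_hgt (X s : ℕ) : X * s ^ 2 < 27 * (hgt X s + 1) ^ 4 := by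
  have h1 : Nat.sqrt (X * s ^ 2 / 27) < (hgt X s + 1) ^ 2 := Nat.lt_succ_sqrt' _
  have h2 : X * s ^ 2 / 27 < (Nat.sqrt (X * s ^ 2 / 27) + 1) ^ 2 := Nat.lt_succ_sqrt' _
  have h3 : (Nat.sqrt (X * s ^ 2 / 27) + 1) ^ 2 ≤ (hgt X s + 1) ^ 4 := by
    calc (Nat.sqrt (X * s ^ 2 / 27) + 1) ^ 2 ≤ ((hgt X s + 1) ^ 2) ^ 2 := Nat.pow_le_pow_left h1 2
      _ = _ := by ring
  omega

lemma hgt_ge {X s h : ℕ} (hX : 27 * (h + 1) ^ 4 ≤ X) (hs : 0 < s) : h + 1 ≤ hgt X s := by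
  by_contra hcon
  have h1 : hgt X s + 1 ≤ h + 1 := by omega
  have h2 : (hgt X s + 1) ^ 4 ≤ (h + 1) ^ 4 := Nat.pow_le_pow_left h1 4
  have h3 := lt_hgt X s
  have h4 : X * 1 ≤ X * s ^ 2 := Nat.mul_le_mul_left _ (Nat.one_le_pow _ _ hs)
  omega

/-- a good tuple gives a number of the required shape -/
lemma good_small {e Q k X y T u v w z α β : ℕ} (he0 : 0 < e) (hQ : 0 < Q) (hu : 0 < u) (hv : 0 < v) (hw : 0 < w)
    (hz : 0 < z) {S : ℝ} (hS : ((Q * u * v * w * z : ℕ) : ℝ) ≤ S)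
    (hg : Good e Q k (hgt X (Q * u * v * w * z)) y T u v w z α β) :
    Squarefree (num e Q u v w z α β) ∧ num e Q u v w z α β ≡ e * k [MOD Q] ∧
      1 ≤ num e Q u v w z α β ∧ num e Q u v w z α β ≤ X ∧ Small S (num e Q u v w z α β) := by
  obtain ⟨γ, δ, r, sq, cop, hc, hh2, hh3, hh4, -⟩ := hg
  rw [num_eq hw hz r]
  obtain ⟨r1, r2⟩ := r
  set n := e * α * β * γ * δ with hn
  set s := Q * u * v * w * z with hs
  set h := hgt X s with hh
  set a := α * u ^ 2 with ha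
  set b := e * β * (Q * v) ^ 2 with hb
  have hs0 : 0 < s := by positivity
  have hn0 : 0 < n := Nat.pos_of_ne_zero sq.ne_zero
  have e1 : n * s ^ 2 = a * b * ((γ * w ^ 2) * (δ * z ^ 2)) := by
    rw [hn, hs, ha, hb]; ring
  have hβ0 : 0 < β := by
    rcases Nat.eq_zero_or_pos β with h0 | h0
    · rw [hn, h0] at hn0; simp at hn0
    · exact h0
  have hb0 : 0 < b := by positivity
  have hba : b < a := by omega
  have ha0 : 0 < a := by omega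
  have e2 : (γ * w ^ 2) * (δ * z ^ 2) = (a - b) * (a + b) := by
    rw [← r2, ← r1, Nat.add_sub_cancel_left]
  have e3 : (a - b) * (a + b) = a ^ 2 - b ^ 2 := by
    rw [mul_comm]; exact (Nat.sq_sub_sq a b).symm
  refine ⟨sq, hc, hn0, ?_, ?_⟩
  · -- size
    have h1 : n * s ^ 2 ≤ X * s ^ 2 := by
      calc n * s ^ 2 = a * b * (a ^ 2 - b ^ 2) := by rw [e1, e2, e3]
        _ ≤ (3 * h) * h * ((3 * h) ^ 2) := by
          apply Nat.mul_le_mul
          · exact Nat.mul_le_mul hh3 hh4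
          · exact (Nat.sub_le _ _).trans (Nat.pow_le_pow_left hh3 2)
        _ = 27 * h ^ 4 := by ring
        _ ≤ X * s ^ 2 := hgt_le X s
    exact Nat.le_of_mul_le_mul_right h1 (by positivity)
  · refine ⟨s, a ^ 2 - b ^ 2, 2 * a * b, a ^ 2 + b ^ 2, hs0, hS, ?_, by positivity, ?_, ?_⟩
    · have : b ^ 2 < a ^ 2 := Nat.pow_lt_pow_left hba two_ne_zero
      omega
    · have h1 : b ^ 2 ≤ a ^ 2 := Nat.pow_le_pow_left hba.le 2
      zify [h1]
      ring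
    · have h1 : n * s ^ 2 = a * b * (a ^ 2 - b ^ 2) := by rw [e1, e2, e3]
      calc (a ^ 2 - b ^ 2) * (2 * a * b) = 2 * (a * b * (a ^ 2 - b ^ 2)) := by ring
        _ = 2 * (n * s ^ 2) := by rw [h1]
        _ = _ := by ring

lemma exists_root (m X : ℕ) (hm : 0 < m) : ∃ y : ℕ, y ^ m ≤ X ∧ X < (y + 1) ^ m := by
  have h0 : (0 : ℕ) ^ m ≤ X := by rw [zero_pow hm.ne']; exact Nat.zero_le _
  refine ⟨Nat.findGreatest (fun y => y ^ m ≤ X) X, ?_, ?_⟩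
  · exact Nat.findGreatest_spec (P := fun y => y ^ m ≤ X) (Nat.zero_le X) h0
  · by_contra hcon
    rw [not_lt] at hcon
    have h1 : Nat.findGreatest (fun y => y ^ m ≤ X) X + 1 ≤ X :=
      (Nat.le_self_pow hm.ne' _).trans hcon
    exact Nat.findGreatest_is_greatest (P := fun y => y ^ m ≤ X) (Nat.lt_succ_self _) h1 hcon

lemma floor_ge {a b : ℕ} (hb : 0 < b) (h : b ≤ a) : (a : ℝ) / b / 2 ≤ ((a / b : ℕ) : ℝ) := by
  have hb' : (0 : ℝ) < b := by exact_mod_cast hb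
  have h1 : 1 ≤ a / b := (Nat.one_le_div_iff hb).2 h
  have h2 : a < (a / b + 1) * b := by rw [add_mul, one_mul]; exact Nat.lt_div_mul_add hb
  have h3 : (a : ℝ) < ((a / b : ℕ) + 1) * b := by exact_mod_cast h2
  have h4 : (1 : ℝ) ≤ ((a / b : ℕ) : ℝ) := by exact_mod_cast h1
  rw [div_div, div_le_iff₀ (by positivity)]
  nlinarith

lemma big_range {d h : ℕ} {r : ℝ} (hd : 0 < d) (hr1 : 1 ≤ r) (hrr : r * r = h) (h1 : 16001 * (d : ℝ) ≤ r) :
    d ≤ h ∧ 2000 * (8 * r) ≤ ((h / d : ℕ) : ℝ) := by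
  have hdr : (0 : ℝ) < d := by exact_mod_cast hd
  have h0 : (d : ℝ) ≤ r := by linarith
  have h2 : (d : ℝ) ≤ h := by
    rw [← hrr]
    calc (d : ℝ) ≤ r := h0
      _ = r * 1 := by ring
      _ ≤ r * r := by gcongr
  have h3 : h < (h / d + 1) * d := by rw [add_mul, one_mul]; exact Nat.lt_div_mul_add hd
  have h4 : (h : ℝ) < ((h / d : ℕ) + 1) * d := by exact_mod_cast h3
  refine ⟨by exact_mod_cast h2, ?_⟩
  by_contra hcon
  rw [not_le] at hcon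
  have h5 : (((h / d : ℕ) : ℝ) + 1) * d ≤ (16001 * r) * d := by
    apply mul_le_mul_of_nonneg_right _ hdr.le
    linarith
  have h6 : (16001 * r) * d ≤ r * r := by
    calc (16001 * r) * d = r * (16001 * d) := by ring
      _ ≤ r * r := by gcongr
  linarith

lemma final_real {x h Q e u v w z : ℝ} (hQ : 1 ≤ Q) (he0 : 0 < e) (he : e ≤ 2)
    (hu : 0 < u) (hv : 0 < v) (hw : 0 < w) (hz : 0 < z)
    (hx : x * (Q * u * v * w * z) ≤ 21 * h ^ 2) :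
    x / (672 * Q ^ 3) * (1 / (u * v * w * z)) ≤
      (h / (e * Q ^ 3 * v ^ 2) / 2) / 2 * ((h / (u ^ 2 * (Q * w ^ 2 * z ^ 2)) / 2) / 2) := by
  have hQ0 : 0 < Q := by linarith
  have e1 : x / (672 * Q ^ 3) * (1 / (u * v * w * z)) =
      (x * (Q * u * v * w * z)) / (672 * Q ^ 4 * (u * v * w * z) ^ 2) := by
    field_simp
  have e2 : (h / (e * Q ^ 3 * v ^ 2) / 2) / 2 * ((h / (u ^ 2 * (Q * w ^ 2 * z ^ 2)) / 2) / 2) =
      h ^ 2 / (16 * (e * (Q ^ 4 * (u * v * w * z) ^ 2))) := by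
    field_simp
    norm_num
  rw [e1, e2]
  calc (x * (Q * u * v * w * z)) / (672 * Q ^ 4 * (u * v * w * z) ^ 2)
      ≤ (21 * h ^ 2) / (672 * Q ^ 4 * (u * v * w * z) ^ 2) := by gcongr
    _ = h ^ 2 / (16 * (2 * (Q ^ 4 * (u * v * w * z) ^ 2))) := by
        rw [div_eq_div_iff (by positivity) (by positivity)]
        ring
    _ ≤ h ^ 2 / (16 * (e * (Q ^ 4 * (u * v * w * z) ^ 2))) := by gcongr

/-- the number of pairs for one quadruple -/
lemma card_pairs_ge {e Q k P Y₀ Y y X u v w z : ℕ} (hpar : Par e Q k P) (hn : Nice Q Y₀ u v w z) (hYY : Y₀ ≤ Y)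
    (hy : 4 ≤ y) (hYy : Y = y ^ 20)
    (hX : 27 * ((32002 * Q ^ 4 * Y ^ 6) ^ 2 + 1) ^ 4 ≤ X) :
    Real.sqrt X / (672 * (Q : ℝ) ^ 3) * (1 / (u * v * w * z)) ≤
      (pairs e Q k (hgt X (Q * u * v * w * z)) y (Q * Y) u v w z).card := by
  have hQ0 := hpar.hQ0
  have he := hpar.he
  have he0 : 0 < e := by rcases he with rfl | rfl <;> norm_num
  have he2 : e ≤ 2 := by rcases he with rfl | rfl <;> norm_num
  have hu0 := hn.hu0
  have hv0 := hn.hv0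
  have hw0 := hn.hw0
  have hz0 := hn.hz0
  set s := Q * u * v * w * z with hs
  have hs0 : 0 < s := by positivity
  set h := hgt X s with hh
  have hh0 : (32002 * Q ^ 4 * Y ^ 6) ^ 2 + 1 ≤ h := hgt_ge hX hs0
  have hY4 : 4 ≤ Y := by
    rw [hYy]
    exact hy.trans (Nat.le_self_pow (by norm_num) y)
  have hhr : ((32002 * Q ^ 4 * Y ^ 6 : ℕ) : ℝ) ^ 2 ≤ h := by
    have : (32002 * Q ^ 4 * Y ^ 6) ^ 2 ≤ h := by omega
    exact_mod_cast this
  have hQr : (1 : ℝ) ≤ Q := by exact_mod_cast hQ0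
  have hYr : (4 : ℝ) ≤ Y := by exact_mod_cast hY4
  have hyr : (4 : ℝ) ≤ y := by exact_mod_cast hy
  have hh1 : (1 : ℝ) ≤ h := by
    have : 1 ≤ h := by omega
    exact_mod_cast this
  have hhpos : 0 < h := by omega
  set r := Real.sqrt h with hr
  have hr1 : 1 ≤ r := by rw [hr]; exact Real.one_le_sqrt.2 hh1
  have hrr : r * r = h := Real.mul_self_sqrt (by linarith)
  have hr2 : (32002 : ℝ) * Q ^ 4 * Y ^ 6 ≤ r := by
    rw [hr]
    apply Real.le_sqrt_of_sq_le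
    have := hhr
    push_cast at this
    exact this
  have hlogy : Real.log y + Real.log 4 ≤ Real.log Y / 10 := by
    have h1 : Real.log 4 ≤ Real.log y := Real.log_le_log (by norm_num) hyr
    have h2 : Real.log Y = 20 * Real.log y := by
      rw [hYy]; push_cast; rw [Real.log_pow]; norm_num
    linarith
  have hlog2 : (1 : ℝ) / 2 ≤ Real.log 2 := by
    have := Real.log_two_gt_d9
    linarith
  have hlogY : 1 ≤ Real.log Y := by
    have h1 : Real.log 4 ≤ Real.log Y := Real.log_le_log (by norm_num) hYr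
    have h2 : Real.log 4 = 2 * Real.log 2 := by
      rw [show (4 : ℝ) = 2 ^ 2 by norm_num, Real.log_pow]; norm_num
    linarith
  have hlog4 : Real.log 4 ≤ 2 := by
    have h2 : Real.log 4 = 2 * Real.log 2 := by
      rw [show (4 : ℝ) = 2 ^ 2 by norm_num, Real.log_pow]; norm_num
    have := Real.log_two_lt_d9
    linarith
  have hyY : (y : ℝ) ≤ Y := by
    have : y ≤ Y := by rw [hYy]; exact Nat.le_self_pow (by norm_num) y
    exact_mod_cast this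
  have hY6 : (Y : ℝ) ≤ Y ^ 6 := le_self_pow₀ (by linarith) (by norm_num)
  have hQ4 : (Q : ℝ) ≤ Q ^ 4 := le_self_pow₀ hQr (by norm_num)
  have hQ41 : (1 : ℝ) ≤ Q ^ 4 := one_le_pow₀ hQr
  have hYr' : (Y : ℝ) ≤ r := by
    calc (Y : ℝ) ≤ Y ^ 6 := hY6
      _ = 1 * 1 * Y ^ 6 := by ring
      _ ≤ 32002 * Q ^ 4 * Y ^ 6 := by gcongr; norm_num
      _ ≤ r := hr2
  have hsq : (Nat.sqrt (4 * h) : ℝ) ≤ 8 * r := by
    have h1 : ((Nat.sqrt (4 * h) : ℕ) : ℝ) ^ 2 ≤ 4 * h := by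
      have : Nat.sqrt (4 * h) ^ 2 ≤ 4 * h := Nat.sqrt_le' _
      exact_mod_cast this
    have h2 : ((Nat.sqrt (4 * h) : ℕ) : ℝ) ^ 2 ≤ (2 * r) ^ 2 := by
      rw [mul_pow, pow_two r, hrr]; linarith
    have h3 := (sq_le_sq₀ (by positivity) (by positivity)).1 h2
    linarith
  have hlogh : 2 * (1 + Real.log (4 * h)) ≤ 8 * r := by
    have h1 : Real.log (4 * h) = 2 * Real.log (2 * r) := by
      have : (4 : ℝ) * h = (2 * r) ^ 2 := by rw [mul_pow, pow_two r, hrr]; ring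
      rw [this, Real.log_pow]; norm_num
    have h2 : Real.log (2 * r) ≤ 2 * r - 1 := Real.log_le_sub_one_of_pos (by linarith)
    linarith
  -- sizes of the two ranges
  have hu1 : (u : ℝ) ≤ Y := by exact_mod_cast hn.hu1.trans hYY
  have hv1 : (v : ℝ) ≤ Y := by exact_mod_cast hn.hv1.trans hYY
  have hw1 : (w : ℝ) ≤ Y := by exact_mod_cast hn.hw1.trans hYY
  have hz1 : (z : ℝ) ≤ Y := by exact_mod_cast hn.hz1.trans hYY
  have hur : (0 : ℝ) < u := by exact_mod_cast hu0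
  have hvr : (0 : ℝ) < v := by exact_mod_cast hv0
  have hwr : (0 : ℝ) < w := by exact_mod_cast hw0
  have hzr : (0 : ℝ) < z := by exact_mod_cast hz0
  have her : (e : ℝ) ≤ 2 := by exact_mod_cast he2
  have her0 : (0 : ℝ) < e := by exact_mod_cast he0
  set dJ := e * Q ^ 3 * v ^ 2 with hdJ
  set dL := u ^ 2 * (Q * w ^ 2 * z ^ 2) with hdL
  have bJ : (dJ : ℝ) ≤ 2 * Q ^ 4 * Y ^ 6 := by
    rw [hdJ]; push_cast
    have h1 : (v : ℝ) ^ 2 ≤ (Y : ℝ) ^ 6 := by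
      calc (v : ℝ) ^ 2 ≤ (Y : ℝ) ^ 2 := by gcongr
        _ ≤ (Y : ℝ) ^ 6 := pow_le_pow_right₀ (by linarith) (by norm_num)
    have h2 : (Q : ℝ) ^ 3 ≤ Q ^ 4 := pow_le_pow_right₀ hQr (by norm_num)
    gcongr
  have bL : (dL : ℝ) ≤ 2 * Q ^ 4 * Y ^ 6 := by
    rw [hdL]; push_cast
    calc (u : ℝ) ^ 2 * (Q * w ^ 2 * z ^ 2) ≤ (Y : ℝ) ^ 2 * ((Q : ℝ) ^ 4 * (Y : ℝ) ^ 2 * (Y : ℝ) ^ 2) := by gcongr
      _ = 1 * (Q : ℝ) ^ 4 * (Y : ℝ) ^ 6 := by ring
      _ ≤ 2 * (Q : ℝ) ^ 4 * (Y : ℝ) ^ 6 := by gcongr; norm_num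
  have dJ0 : 0 < dJ := by positivity
  have dL0 : 0 < dL := by positivity
  have dJr : (0 : ℝ) < dJ := by exact_mod_cast dJ0
  have dLr : (0 : ℝ) < dL := by exact_mod_cast dL0
  have h16 : 16001 * (2 * (Q : ℝ) ^ 4 * (Y : ℝ) ^ 6) ≤ r := by
    calc 16001 * (2 * (Q : ℝ) ^ 4 * (Y : ℝ) ^ 6) = 32002 * (Q : ℝ) ^ 4 * (Y : ℝ) ^ 6 := by ring
      _ ≤ r := hr2
  obtain ⟨gJ, gJ'⟩ := big_range (d := dJ) (h := h) dJ0 hr1 hrr (by linarith)
  obtain ⟨gL, gL'⟩ := big_range (d := dL) (h := h) dL0 hr1 hrr (by linarith)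
  have hLeq : h / u ^ 2 / (Q * w ^ 2 * z ^ 2) = h / dL := Nat.div_div_eq_div_mul _ _ _
  have main := card_pairs (E := 8 * r) (y := y) (h := h) hpar hn (by omega) (by omega) hlogy (by nlinarith) hsq
    hlogh gJ' (by rw [hLeq]; exact gL') hhpos
  rw [hLeq] at main
  refine le_trans ?_ main
  have fJ := floor_ge dJ0 gJ
  have fL := floor_ge dL0 gL
  -- size of h
  have hX4 : (X : ℝ) * (s : ℝ) ^ 2 ≤ 432 * (h : ℝ) ^ 4 := by
    have h1 := lt_hgt X s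
    rw [← hh] at h1
    have h2 : ((X * s ^ 2 : ℕ) : ℝ) < ((27 * (h + 1) ^ 4 : ℕ) : ℝ) := by exact_mod_cast h1
    push_cast at h2
    have h3 : ((h : ℝ) + 1) ^ 4 ≤ (2 * h) ^ 4 := by
      apply pow_le_pow_left₀ (by positivity)
      linarith
    have h4 : (2 * (h : ℝ)) ^ 4 = 16 * h ^ 4 := by ring
    rw [h4] at h3
    linarith
  have hXs : Real.sqrt X * s ≤ 21 * (h : ℝ) ^ 2 := by
    have h1 : (Real.sqrt X * s) ^ 2 ≤ (21 * (h : ℝ) ^ 2) ^ 2 := by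
      rw [mul_pow, Real.sq_sqrt (by positivity)]
      have h4 : (21 * (h : ℝ) ^ 2) ^ 2 = 441 * h ^ 4 := by ring
      rw [h4]
      have h5 : (0 : ℝ) ≤ (h : ℝ) ^ 4 := by positivity
      linarith
    exact (sq_le_sq₀ (by positivity) (by positivity)).1 h1
  have hsr : (s : ℝ) = Q * u * v * w * z := by rw [hs]; push_cast; ring
  have hfin := final_real (x := Real.sqrt X) (h := (h : ℝ)) hQr her0 her hur hvr hwr hzr
    (by rw [← hsr]; exact hXs)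
  refine hfin.trans ?_
  have hdJr : (dJ : ℝ) = e * (Q : ℝ) ^ 3 * (v : ℝ) ^ 2 := by rw [hdJ]; push_cast; ring
  have hdLr : (dL : ℝ) = (u : ℝ) ^ 2 * (Q * (w : ℝ) ^ 2 * (z : ℝ) ^ 2) := by rw [hdL]; push_cast; ring
  rw [← hdJr, ← hdLr]
  apply mul_le_mul
  · exact div_le_div_of_nonneg_right fJ (by norm_num)
  · exact div_le_div_of_nonneg_right fL (by norm_num)
  · positivity
  · positivity

end Pool.Agent.H14.CN
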