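import Pool.Agent.H14.CN.Lower

set_option autoImplicit false

/-!
# The lower bound, final form
-/

namespace Pool.Agent.H14.CN

open Finset
open scoped Classical

/-- the set which is counted -/
noncomputable def cset (X : ℕ) (S : ℝ) (e k Q : ℕ) : Finset ℕ :=
  (Icc 1 X).filter (fun n => Squarefree n ∧ n ≡ e * k [MOD Q] ∧ Small S n)

lemma card_bigs_le {y n X K : ℕ} (hy : 2 ≤ y) (hn : 0 < n) (hnX : n ≤ X) (hX : X < y ^ (K + 1)) :
    (bigs y n).card ≤ K := by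
  by_contra hcon
  rw [not_le] at hcon
  have h1 : y ^ (bigs y n).card ≤ n := by
    calc y ^ (bigs y n).card = ∏ p ∈ bigs y n, y := by rw [prod_const]
      _ ≤ ∏ p ∈ bigs y n, p := by
        apply prod_le_prod'
        intro p hp
        rw [bigs, mem_filter] at hp
        omega
      _ ≤ n := by
        apply Nat.le_of_dvd hn
        exact (prod_dvd_prod_of_subset _ _ _ (filter_subset _ _)).trans (Nat.prod_primeFactors_dvd n)
  have h2 : y ^ (K + 1) ≤ y ^ (bigs y n).card := Nat.pow_le_pow_right (by omega) hcon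
  omega

/-- the lower bound for given parameters -/
lemma lower_aux {e Q k P Y Z y X K : ℕ} {S : ℝ} (hpar : Par e Q k P)
    (hy : 4 ≤ y) (hZy : Z = y ^ 20) (hYZ : Y ≤ Z) (hY0 : 0 < Y)
    (hX : 27 * ((32002 * Q ^ 4 * Z ^ 6) ^ 2 + 1) ^ 4 ≤ X) (hQY : Q ^ 2 ≤ Y)
    (hXK : X < y ^ (K + 1)) (hS : ((Q * Y ^ 4 : ℕ) : ℝ) ≤ S) :
    Real.sqrt X / (672 * (Q : ℝ) ^ 3) * (1 / 2 * (Real.log Y / (2 * Q)) ^ 4) ≤
      8 ^ K * ((cset X S e k Q).card : ℝ) := by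
  have hQ0 := hpar.hQ0
  have he := hpar.he
  have he0 : 0 < e := by rcases he with rfl | rfl <;> norm_num
  have hQr : (1 : ℝ) ≤ Q := by exact_mod_cast hQ0
  have hZ4 : 4 ≤ Z := by
    rw [hZy]
    exact hy.trans (Nat.le_self_pow (by norm_num) y)
  set H : ℕ × ℕ × ℕ × ℕ → ℕ := fun q => hgt X (Q * q.1 * q.2.1 * q.2.2.1 * q.2.2.2) with hH
  set T := tuples e Q k y Z (quads Q Y) H with hT
  have hS1 : ∀ q ∈ quads Q Y, Nice Q Y q.1 q.2.1 q.2.2.1 q.2.2.2 := by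
    intro q hq
    rw [quads, mem_filter] at hq
    exact hq.2
  have hH1 : ∀ q ∈ quads Q Y, 8 * Q ^ 7 * Z ^ 9 ≤ 2 * H q := by
    intro q hq
    have hn := hS1 q hq
    have hs0 : 0 < Q * q.1 * q.2.1 * q.2.2.1 * q.2.2.2 := by
      have := hn.hu0
      have := hn.hv0
      have := hn.hw0
      have := hn.hz0
      positivity
    have h1 := hgt_ge hX hs0
    have h2 : 4 * Q ^ 7 * Z ^ 9 ≤ (32002 * Q ^ 4 * Z ^ 6) ^ 2 := by
      calc 4 * Q ^ 7 * Z ^ 9 ≤ 32002 ^ 2 * Q ^ 8 * Z ^ 12 := by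
            apply Nat.mul_le_mul
            · apply Nat.mul_le_mul (by norm_num)
              exact Nat.pow_le_pow_right hQ0 (by norm_num)
            · exact Nat.pow_le_pow_right (by omega) (by norm_num)
        _ = _ := by ring
    have h3 : 8 * Q ^ 7 * Z ^ 9 = 2 * (4 * Q ^ 7 * Z ^ 9) := by ring
    rw [h3]
    apply Nat.mul_le_mul_left
    simp only [hH]
    omega
  have himg : ∀ n ∈ T.image (tnum e Q), n ∈ cset X S e k Q := by
    intro n hn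
    rw [mem_image] at hn
    obtain ⟨x, hx, rfl⟩ := hn
    rw [hT, tuples, mem_sigma, pairs, mem_filter] at hx
    obtain ⟨hq, -, hg⟩ := hx
    have hN := hS1 _ hq
    have hb : ((Q * x.1.1 * x.1.2.1 * x.1.2.2.1 * x.1.2.2.2 : ℕ) : ℝ) ≤ S := by
      refine le_trans ?_ hS
      have h1 : Q * x.1.1 * x.1.2.1 * x.1.2.2.1 * x.1.2.2.2 ≤ Q * Y ^ 4 := by
        calc Q * x.1.1 * x.1.2.1 * x.1.2.2.1 * x.1.2.2.2 ≤ Q * Y * Y * Y * Y := by
              have := hN.hu1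
              have := hN.hv1
              have := hN.hw1
              have := hN.hz1
              gcongr
          _ = _ := by ring
      exact_mod_cast h1
    obtain ⟨g1, g2, g3, g4, g5⟩ := good_small he0 hQ0 hN.hu0 hN.hv0 hN.hw0 hN.hz0 hb hg
    rw [cset, mem_filter, mem_Icc]
    exact ⟨⟨g3, g4⟩, g1, g2, g5⟩
  have hK : ∀ n ∈ T.image (tnum e Q), (bigs y n).card ≤ K := by
    intro n hn
    have h1 := himg n hn
    rw [cset, mem_filter, mem_Icc] at h1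
    exact card_bigs_le (by omega) (by omega) h1.1.2 hXK
  have c1 : T.card ≤ 8 ^ K * (T.image (tnum e Q)).card := card_tuples_le he hQ0 hYZ hS1 hH1 hK
  have c2 : (T.image (tnum e Q)).card ≤ (cset X S e k Q).card := card_le_card himg
  have c3 : (T.card : ℝ) ≤ 8 ^ K * ((cset X S e k Q).card : ℝ) := by
    have := c1.trans (Nat.mul_le_mul_left _ c2)
    exact_mod_cast this
  refine le_trans ?_ c3
  have c4 : (T.card : ℝ) = ∑ q ∈ quads Q Y,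
      ((pairs e Q k (H q) y (Q * Z) q.1 q.2.1 q.2.2.1 q.2.2.2).card : ℝ) := by
    rw [hT, tuples, card_sigma]
    push_cast
    rfl
  rw [c4]
  have c5 : Real.sqrt X / (672 * (Q : ℝ) ^ 3) * ∑ q ∈ quads Q Y, (1 : ℝ) / (q.1 * q.2.1 * q.2.2.1 * q.2.2.2) ≤
      ∑ q ∈ quads Q Y, ((pairs e Q k (H q) y (Q * Z) q.1 q.2.1 q.2.2.1 q.2.2.2).card : ℝ) := by
    rw [mul_sum]
    apply sum_le_sum
    intro q hq
    exact card_pairs_ge hpar (hS1 q hq) hYZ hy hZy hX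
  refine le_trans ?_ c5
  apply mul_le_mul_of_nonneg_left _ (by positivity)
  have c6 := quads_sum (Y := Y) hQ0 hpar.hQP hpar.hP
  refine le_trans ?_ c6
  apply mul_le_mul_of_nonneg_left _ (by norm_num)
  have hYr : (1 : ℝ) ≤ Y := by exact_mod_cast hY0
  have hlogY : 0 ≤ Real.log Y := Real.log_nonneg (by linarith)
  apply pow_le_pow_left₀ (by positivity)
  refine le_trans ?_ (rsum_ge hQ0 (by omega))
  have hQpos : (0 : ℝ) < Q := by linarith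
  rw [div_le_div_iff₀ (by positivity) hQpos]
  have h1 : Real.log (Y / Q) = Real.log Y - Real.log Q := Real.log_div (by linarith) (by linarith)
  have h2 : 2 * Real.log Q ≤ Real.log Y := by
    have h3 : Real.log ((Q : ℝ) ^ 2) ≤ Real.log Y := by
      apply Real.log_le_log (by positivity)
      exact_mod_cast hQY
    rw [Real.log_pow] at h3
    push_cast at h3
    exact h3
  rw [h1]
  nlinarith

theorem lower {e Q k P : ℕ} (hpar : Par e Q k P) :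
    ∃ c : ℝ, 0 < c ∧ ∃ S₀ : ℝ, ∃ X₀ : ℕ, ∀ X : ℕ, X₀ ≤ X → ∀ S : ℝ, S₀ ≤ S → S ≤ X →
      c * (Real.sqrt X * Real.log S ^ 4) ≤ ((cset X S e k Q).card : ℝ) := by
  have hQ0 := hpar.hQ0
  have hQr : (1 : ℝ) ≤ Q := by exact_mod_cast hQ0
  have hQpos : (0 : ℝ) < Q := by linarith
  obtain ⟨N, hN⟩ : ∃ N : ℕ, N = 50 := ⟨_, rfl⟩
  obtain ⟨m, hm⟩ : ∃ m : ℕ, m = 20 * N := ⟨_, rfl⟩
  obtain ⟨K, hK⟩ : ∃ K : ℕ, K = 2 * m := ⟨_, rfl⟩
  obtain ⟨B, hB⟩ : ∃ B : ℕ, B = 432 * 32002 ^ 8 * Q ^ 32 := ⟨_, rfl⟩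
  have hNpos : (0 : ℝ) < N := by
    have : 0 < N := by omega
    exact_mod_cast this
  refine ⟨1 / (672 * (Q : ℝ) ^ 3) * (1 / 2) * (1 / (4 * N * Q)) ^ 4 / 8 ^ K, by positivity,
    Q * (4 * Q ^ 2) ^ 4, (B + 1) ^ m, ?_⟩
  intro X hX S hS0 hSX
  have hSQ : ((4 * Q ^ 2) ^ 4 : ℝ) ≤ S / Q := by
    rw [le_div_iff₀ hQpos]; linarith
  have hSpos : 0 < S := by
    have : 0 < (Q : ℝ) * (4 * Q ^ 2) ^ 4 := by positivity
    linarith
  obtain ⟨y, hy1, hy2⟩ := exists_root m X (by omega)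
  obtain ⟨Y₁, hY1, hY2⟩ := exists_root 4 ⌊S / Q⌋₊ (by norm_num)
  have hyB : B < y := by
    have h1 : (B + 1) ^ m < (y + 1) ^ m := lt_of_le_of_lt hX hy2
    have h2 := lt_of_pow_lt_pow_left₀ m (Nat.zero_le _) h1
    omega
  have hB432 : 432 * Q ^ 32 ≤ B := by
    rw [hB]
    calc 432 * Q ^ 32 = 432 * 1 * Q ^ 32 := by ring
      _ ≤ _ := by gcongr; norm_num
  have hQ32 : Q ^ 2 ≤ Q ^ 32 := Nat.pow_le_pow_right hQ0 (by norm_num)
  have hQ1 : 1 ≤ Q ^ 32 := Nat.one_le_pow _ _ hQ0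
  have hy4 : 4 ≤ y := by omega
  obtain ⟨Z, hZ⟩ : ∃ Z : ℕ, Z = y ^ 20 := ⟨_, rfl⟩
  have hyZ0 : y ≤ y ^ 20 := Nat.le_self_pow (by norm_num) y
  rw [← hZ] at hyZ0
  have hyZ : y ≤ Z := hyZ0
  have hZX : Z ^ N ≤ X := by
    calc Z ^ N = y ^ m := by rw [hZ, hm, ← pow_mul]
      _ ≤ X := hy1
  have hX1 : 27 * ((32002 * Q ^ 4 * Z ^ 6) ^ 2 + 1) ^ 4 ≤ X := by
    have hZ0 : 0 < Z := by omega
    have h0 : 1 ≤ (32002 * Q ^ 4 * Z ^ 6) ^ 2 := Nat.one_le_pow _ _ (by positivity)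
    calc 27 * ((32002 * Q ^ 4 * Z ^ 6) ^ 2 + 1) ^ 4
        ≤ 27 * ((32002 * Q ^ 4 * Z ^ 6) ^ 2 + (32002 * Q ^ 4 * Z ^ 6) ^ 2) ^ 4 := by gcongr
      _ = B * Z ^ 48 := by rw [hB]; ring
      _ ≤ Z * Z ^ 48 := Nat.mul_le_mul_right _ (by omega)
      _ = Z ^ 49 := by ring
      _ ≤ Z ^ N := Nat.pow_le_pow_right hZ0 (by omega)
      _ ≤ X := hZX
  have hXK : X < y ^ (K + 1) := by
    calc X < (y + 1) ^ m := hy2
      _ ≤ (y ^ 2) ^ m := by
        apply Nat.pow_le_pow_left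
        nlinarith
      _ = y ^ K := by rw [← pow_mul, hK]
      _ ≤ y ^ (K + 1) := Nat.pow_le_pow_right (by omega) (by omega)
  -- the second parameter
  have hY1Q : 4 * Q ^ 2 ≤ Y₁ := by
    have h1 : (4 * Q ^ 2) ^ 4 ≤ ⌊S / Q⌋₊ := by
      apply Nat.le_floor
      push_cast
      exact hSQ
    have h2 : (4 * Q ^ 2) ^ 4 < (Y₁ + 1) ^ 4 := lt_of_le_of_lt h1 hY2
    have h3 := lt_of_pow_lt_pow_left₀ 4 (Nat.zero_le _) h2
    omega
  have hQ21 : 1 ≤ Q ^ 2 := Nat.one_le_pow _ _ hQ0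
  have hS : ((Q * Y₁ ^ 4 : ℕ) : ℝ) ≤ S := by
    have h1 : ((Y₁ ^ 4 : ℕ) : ℝ) ≤ S / Q := by
      have h2 : ((Y₁ ^ 4 : ℕ) : ℝ) ≤ (⌊S / Q⌋₊ : ℝ) := by exact_mod_cast hY1
      exact h2.trans (Nat.floor_le (by positivity))
    rw [le_div_iff₀ hQpos] at h1
    push_cast at h1 ⊢
    linarith
  have hlogS1 : Real.log S ≤ 2 * N * Real.log Y₁ := by
    have hY1r : (4 : ℝ) * Q ^ 2 ≤ Y₁ := by exact_mod_cast hY1Q
    have hY1r' : (4 : ℝ) ≤ Y₁ := by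
      have : (1 : ℝ) ≤ (Q : ℝ) ^ 2 := one_le_pow₀ hQr
      linarith
    have h1 : S / Q < ((Y₁ : ℝ) + 1) ^ 4 := by
      have h2 : S / Q < (⌊S / Q⌋₊ : ℝ) + 1 := Nat.lt_floor_add_one _
      have h3 : ((⌊S / Q⌋₊ : ℝ)) + 1 ≤ ((Y₁ : ℝ) + 1) ^ 4 := by
        have : ⌊S / Q⌋₊ + 1 ≤ (Y₁ + 1) ^ 4 := hY2
        exact_mod_cast this
      linarith
    have h2 : S ≤ (Y₁ : ℝ) ^ 6 := by
      rw [div_lt_iff₀ hQpos] at h1
      have h3 : ((Y₁ : ℝ) + 1) ^ 4 ≤ (2 * (Y₁ : ℝ)) ^ 4 := by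
        apply pow_le_pow_left₀ (by positivity)
        linarith
      have h4 : 16 * (Q : ℝ) ≤ (Y₁ : ℝ) ^ 2 := by
        have h5 : (Q : ℝ) ≤ (Q : ℝ) ^ 2 := le_self_pow₀ hQr (by norm_num)
        nlinarith
      calc S ≤ ((Y₁ : ℝ) + 1) ^ 4 * Q := h1.le
        _ ≤ (2 * (Y₁ : ℝ)) ^ 4 * Q := by gcongr
        _ = (Y₁ : ℝ) ^ 4 * (16 * Q) := by ring
        _ ≤ (Y₁ : ℝ) ^ 4 * (Y₁ : ℝ) ^ 2 := by gcongr
        _ = (Y₁ : ℝ) ^ 6 := by ring
    have h3 := Real.log_le_log hSpos h2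
    rw [Real.log_pow] at h3
    push_cast at h3
    have h4 : 0 ≤ Real.log Y₁ := Real.log_nonneg (by linarith)
    rw [hN]
    push_cast
    linarith
  have hXr : (1 : ℝ) ≤ X := by
    have : 1 ≤ X := by
      refine le_trans ?_ hX
      exact Nat.one_le_pow _ _ (by omega)
    exact_mod_cast this
  have hlogX : Real.log X ≤ 2 * N * Real.log Z := by
    have h1 : (X : ℝ) ≤ ((y : ℝ) ^ 2) ^ m := by
      have : X ≤ (y ^ 2) ^ m := by
        calc X ≤ (y + 1) ^ m := hy2.le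
          _ ≤ (y ^ 2) ^ m := by
            apply Nat.pow_le_pow_left
            nlinarith
      exact_mod_cast this
    have h2 := Real.log_le_log (by linarith) h1
    rw [Real.log_pow, Real.log_pow] at h2
    have h3 : Real.log Z = 20 * Real.log y := by
      rw [hZ]; push_cast; rw [Real.log_pow]; norm_num
    rw [h3]
    rw [hm] at h2
    push_cast at h2
    linarith
  have hlogS2 : Real.log S ≤ 2 * N * Real.log Z := (Real.log_le_log hSpos hSX).trans hlogX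
  -- the choice
  obtain ⟨Y, hYZ, hYY1, hYor⟩ : ∃ Y : ℕ, Y ≤ Z ∧ Y ≤ Y₁ ∧ (Y = Z ∨ Y = Y₁) := by
    rcases le_total Z Y₁ with h | h
    · exact ⟨Z, le_rfl, h, Or.inl rfl⟩
    · exact ⟨Y₁, h, le_rfl, Or.inr rfl⟩
  have hQY : Q ^ 2 ≤ Y := by
    rcases hYor with h | h
    · rw [h]; omega
    · rw [h]; omega
  have hlogS : Real.log S ≤ 2 * N * Real.log Y := by
    rcases hYor with h | h
    · rw [h]; exact hlogS2
    · rw [h]; exact hlogS1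
  have hSY : ((Q * Y ^ 4 : ℕ) : ℝ) ≤ S := by
    refine le_trans ?_ hS
    have : Q * Y ^ 4 ≤ Q * Y₁ ^ 4 := Nat.mul_le_mul_left _ (Nat.pow_le_pow_left hYY1 4)
    exact_mod_cast this
  have main := lower_aux (K := K) hpar hy4 hZ hYZ (by omega) hX1 hQY hXK hSY
  have hlogY0 : 0 ≤ Real.log Y := Real.log_natCast_nonneg _
  have hS1 : 1 ≤ S := by
    have h1 : (1 : ℝ) ≤ Q * (4 * Q ^ 2) ^ 4 := by
      have h2 : (1 : ℝ) ≤ (Q : ℝ) ^ 2 := one_le_pow₀ hQr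
      have h3 : (1 : ℝ) ≤ (4 * (Q : ℝ) ^ 2) ^ 4 := one_le_pow₀ (by linarith)
      nlinarith
    linarith
  have hlogS0 : 0 ≤ Real.log S := Real.log_nonneg hS1
  have h8 : (0 : ℝ) < 8 ^ K := by positivity
  rw [← div_le_iff₀' h8] at main
  refine le_trans ?_ main
  have h9 : (1 : ℝ) / (4 * N * Q) * Real.log S ≤ Real.log Y / (2 * Q) := by
    rw [one_div, inv_mul_eq_div, div_le_div_iff₀ (by positivity) (by positivity)]
    nlinarith
  have h10 : ((1 : ℝ) / (4 * N * Q) * Real.log S) ^ 4 ≤ (Real.log Y / (2 * Q)) ^ 4 :=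
    pow_le_pow_left₀ (by positivity) h9 4
  calc 1 / (672 * (Q : ℝ) ^ 3) * (1 / 2) * (1 / (4 * N * Q)) ^ 4 / 8 ^ K * (Real.sqrt X * Real.log S ^ 4)
      = Real.sqrt X / (672 * (Q : ℝ) ^ 3) * (1 / 2 * ((1 : ℝ) / (4 * N * Q) * Real.log S) ^ 4) / 8 ^ K := by
        ring
    _ ≤ Real.sqrt X / (672 * (Q : ℝ) ^ 3) * (1 / 2 * (Real.log Y / (2 * Q)) ^ 4) / 8 ^ K := by gcongr

end Pool.Agent.H14.CN
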