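import Pool.Agent.H14.CN.Pairs

set_option autoImplicit false

/-!
# A good tuple is determined by the large prime factors
-/

namespace Pool.Agent.H14.CN

open Finset
open scoped Classical

/-- uniqueness of the decomposition into a squarefree number times a square -/
lemma sq_mul_unique {a b c d : ℕ} (ha : Squarefree a) (hb : Squarefree b)
    (h : a * c ^ 2 = b * d ^ 2) (hc : 0 < c) (hd : 0 < d) : a = b ∧ c = d := by
  have key : ∀ {a b c d : ℕ}, Squarefree a → Squarefree b → a * c ^ 2 = b * d ^ 2 → 0 < c → 0 < d → d ∣ c := by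
    intro a b c d ha hb h hc hd
    set g := Nat.gcd d c with hg
    have hg0 : 0 < g := Nat.gcd_pos_of_pos_left _ hd
    obtain ⟨d', hd'⟩ := Nat.gcd_dvd_left d c
    obtain ⟨c', hc'⟩ := Nat.gcd_dvd_right d c
    rw [← hg] at hd' hc'
    have hcop : Nat.Coprime d' c' := by
      have h1 := Nat.coprime_div_gcd_div_gcd (m := d) (n := c) hg0
      rw [← hg] at h1
      have h2 : d / g = d' := by rw [hd']; exact Nat.mul_div_cancel_left _ hg0
      have h3 : c / g = c' := by rw [hc']; exact Nat.mul_div_cancel_left _ hg0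
      rwa [h2, h3] at h1
    have h4 : a * c' ^ 2 = b * d' ^ 2 := by
      have h5 : g ^ 2 * (a * c' ^ 2) = g ^ 2 * (b * d' ^ 2) := by
        calc g ^ 2 * (a * c' ^ 2) = a * (g * c') ^ 2 := by ring
          _ = a * c ^ 2 := by rw [← hc']
          _ = b * d ^ 2 := h
          _ = b * (g * d') ^ 2 := by rw [← hd']
          _ = _ := by ring
      exact Nat.eq_of_mul_eq_mul_left (by positivity) h5
    have h6 : d' ^ 2 ∣ a := by
      have h7 : d' ^ 2 ∣ a * c' ^ 2 := by rw [h4]; exact Dvd.intro_left _ rfl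
      exact (Nat.Coprime.pow 2 2 hcop).dvd_of_dvd_mul_right h7
    have h8 : d' = 1 := by
      rw [pow_two] at h6
      exact Nat.isUnit_iff.1 (ha d' h6)
    rw [h8, mul_one] at hd'
    rw [hd']
    exact Nat.gcd_dvd_right d c
  have h1 : d ∣ c := key ha hb h hc hd
  have h2 : c ∣ d := key hb ha h.symm hd hc
  have h3 : c = d := Nat.dvd_antisymm h2 h1
  subst h3
  exact ⟨Nat.eq_of_mul_eq_mul_right (by positivity) h, rfl⟩

lemma frac_unique {x1 x2 y1 y2 : ℕ} (h : x1 * y2 = y1 * x2) (hx : Nat.Coprime x1 x2)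
    (hy : Nat.Coprime y1 y2) : x1 = y1 ∧ x2 = y2 := by
  have h1 : x1 ∣ y1 := by
    have : x1 ∣ y1 * x2 := by rw [← h]; exact Dvd.intro _ rfl
    exact hx.dvd_of_dvd_mul_right this
  have h2 : y1 ∣ x1 := by
    have : y1 ∣ x1 * y2 := by rw [h]; exact Dvd.intro _ rfl
    exact hy.dvd_of_dvd_mul_right this
  have h3 : x2 ∣ y2 := by
    have : x2 ∣ x1 * y2 := by rw [h]; exact Dvd.intro_left _ rfl
    exact hx.symm.dvd_of_dvd_mul_left this
  have h4 : y2 ∣ x2 := by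
    have : y2 ∣ y1 * x2 := by rw [← h]; exact Dvd.intro_left _ rfl
    exact hy.symm.dvd_of_dvd_mul_left this
  exact ⟨Nat.dvd_antisymm h1 h2, Nat.dvd_antisymm h3 h4⟩

/-- the key lemma on proportional relations -/
lemma rel_unique {A B C T x1 x2 x3 y1 y2 y3 : ℕ} (hx : x1 * A = x2 * B + x3 * C)
    (hy : y1 * A = y2 * B + y3 * C) (hAC : Nat.Coprime A C) (hx2 : x2 ≤ T) (hx3 : x3 ≤ T)
    (hy2 : y2 ≤ T) (hy3 : y3 ≤ T) (hT : T * T < A) (hxc : Nat.Coprime x1 x2) (hyc : Nat.Coprime y1 y2) :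
    x1 = y1 ∧ x2 = y2 := by
  have hA : 0 < A := by omega
  -- integers
  have h1 : ((x1 : ℤ) * y2 - y1 * x2) * A = (x3 * y2 - y3 * x2) * C := by
    have hx' : (x1 : ℤ) * A = x2 * B + x3 * C := by exact_mod_cast hx
    have hy' : (y1 : ℤ) * A = y2 * B + y3 * C := by exact_mod_cast hy
    linear_combination (y2 : ℤ) * hx' - (x2 : ℤ) * hy'
  have h2 : (A : ℤ) ∣ (x3 : ℤ) * y2 - y3 * x2 := by
    have h3 : (A : ℤ) ∣ ((x3 : ℤ) * y2 - y3 * x2) * C := by rw [← h1]; exact Dvd.intro_left _ rfl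
    exact (Int.isCoprime_iff_gcd_eq_one.2 (by simpa using hAC)).dvd_of_dvd_mul_right h3
  have h4 : |(x3 : ℤ) * y2 - y3 * x2| < A := by
    have h5 : (x3 : ℤ) * y2 ≤ T * T := by
      exact_mod_cast Nat.mul_le_mul hx3 hy2
    have h6 : (y3 : ℤ) * x2 ≤ T * T := by
      exact_mod_cast Nat.mul_le_mul hy3 hx2
    have h7 : (0 : ℤ) ≤ (x3 : ℤ) * y2 := by positivity
    have h8 : (0 : ℤ) ≤ (y3 : ℤ) * x2 := by positivity
    have h9 : (T : ℤ) * T < A := by exact_mod_cast hT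
    rw [abs_lt]
    constructor <;> linarith
  have h5 : (x3 : ℤ) * y2 - y3 * x2 = 0 := Int.eq_zero_of_abs_lt_dvd h2 h4
  rw [h5, zero_mul] at h1
  have h6 : (x1 : ℤ) * y2 - y1 * x2 = 0 := by
    rcases mul_eq_zero.1 h1 with h7 | h7
    · exact h7
    · exact absurd h7 (by exact_mod_cast hA.ne')
  have h7 : x1 * y2 = y1 * x2 := by
    have : (x1 : ℤ) * y2 = y1 * x2 := by linarith
    exact_mod_cast this
  exact frac_unique h7 hxc hyc

/-- a good tuple is determined by the rough parts of `α`, `β`, `γ` -/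
lemma tuple_unique {e Q h y Y u v w z u' v' w' z' α β γ δ α' β' γ' δ' : ℕ}
    (he : e = 1 ∨ e = 2) (hQ : 0 < Q)
    (hu0 : 0 < u) (hv0 : 0 < v) (hw0 : 0 < w) (hz0 : 0 < z)
    (hu0' : 0 < u') (hv0' : 0 < v') (hw0' : 0 < w') (hz0' : 0 < z')
    (hu1 : u ≤ Y) (hv1 : v ≤ Y) (hw1 : w ≤ Y)
    (hv1' : v' ≤ Y) (hw1' : w' ≤ Y)
    (hh : 8 * Q ^ 7 * Y ^ 9 ≤ 2 * h)
    (r : IsRep e Q u v w z α β γ δ) (sq : Squarefree (e * α * β * γ * δ))
    (cop : Nat.Coprime (α * u ^ 2) (e * β * (Q * v) ^ 2)) (hh2 : 2 * h < α * u ^ 2)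
    (sα : smooth y α ≤ Q * Y) (sβ : smooth y β ≤ Q * Y) (sγ : smooth y γ ≤ Q * Y)
    (r' : IsRep e Q u' v' w' z' α' β' γ' δ') (sq' : Squarefree (e * α' * β' * γ' * δ'))
    (cop' : Nat.Coprime (α' * u' ^ 2) (e * β' * (Q * v') ^ 2))
    (sβ' : smooth y β' ≤ Q * Y) (sγ' : smooth y γ' ≤ Q * Y)
    (eA : rough y α = rough y α') (eB : rough y β = rough y β') (eC : rough y γ = rough y γ') :
    u = u' ∧ v = v' ∧ w = w' ∧ z = z' ∧ α = α' ∧ β = β' := by
  obtain ⟨r1, r2⟩ := r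
  obtain ⟨r1', r2'⟩ := r'
  have he2 : e ≤ 2 := by rcases he with rfl | rfl <;> norm_num
  have he0 : 0 < e := by rcases he with rfl | rfl <;> norm_num
  have sqα : Squarefree α := sq.squarefree_of_dvd ⟨e * β * γ * δ, by ring⟩
  have sqβ : Squarefree β := sq.squarefree_of_dvd ⟨e * α * γ * δ, by ring⟩
  have sqγ : Squarefree γ := sq.squarefree_of_dvd ⟨e * α * β * δ, by ring⟩
  have sqδ : Squarefree δ := sq.squarefree_of_dvd ⟨e * α * β * γ, by ring⟩
  have sqeβ : Squarefree (e * β) := sq.squarefree_of_dvd ⟨α * γ * δ, by ring⟩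
  have sqα' : Squarefree α' := sq'.squarefree_of_dvd ⟨e * β' * γ' * δ', by ring⟩
  have sqβ' : Squarefree β' := sq'.squarefree_of_dvd ⟨e * α' * γ' * δ', by ring⟩
  have sqγ' : Squarefree γ' := sq'.squarefree_of_dvd ⟨e * α' * β' * δ', by ring⟩
  have sqδ' : Squarefree δ' := sq'.squarefree_of_dvd ⟨e * α' * β' * γ', by ring⟩
  have sqeβ' : Squarefree (e * β') := sq'.squarefree_of_dvd ⟨α' * γ' * δ', by ring⟩
  have hα := smooth_mul_rough (y := y) sqα
  have hβ := smooth_mul_rough (y := y) sqβ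
  have hγ := smooth_mul_rough (y := y) sqγ
  have hα' := smooth_mul_rough (y := y) sqα'
  have hβ' := smooth_mul_rough (y := y) sqβ'
  have hγ' := smooth_mul_rough (y := y) sqγ'
  set A := rough y α with hA
  set B := rough y β with hB
  set C := rough y γ with hC
  have hY0 : 0 < Y := lt_of_lt_of_le hu0 hu1
  -- the relations
  have rel : (smooth y α * u ^ 2) * A = (e * smooth y β * (Q * v) ^ 2) * B + (smooth y γ * w ^ 2) * C := by
    calc (smooth y α * u ^ 2) * A = (smooth y α * A) * u ^ 2 := by ring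
      _ = α * u ^ 2 := by rw [hα]
      _ = e * β * (Q * v) ^ 2 + γ * w ^ 2 := r1.symm
      _ = e * (smooth y β * B) * (Q * v) ^ 2 + (smooth y γ * C) * w ^ 2 := by rw [hβ, hγ]
      _ = _ := by ring
  have rel' : (smooth y α' * u' ^ 2) * A =
      (e * smooth y β' * (Q * v') ^ 2) * B + (smooth y γ' * w' ^ 2) * C := by
    rw [← eA] at hα'
    rw [← eB] at hβ'
    rw [← eC] at hγ'
    calc (smooth y α' * u' ^ 2) * A = (smooth y α' * A) * u' ^ 2 := by ring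
      _ = α' * u' ^ 2 := by rw [hα']
      _ = e * β' * (Q * v') ^ 2 + γ' * w' ^ 2 := r1'.symm
      _ = e * (smooth y β' * B) * (Q * v') ^ 2 + (smooth y γ' * C) * w' ^ 2 := by rw [hβ', hγ']
      _ = _ := by ring
  -- coprimality of A and C
  have hαγ : Nat.Coprime α γ := by
    apply Nat.coprime_of_dvd
    intro p hp h1 h2
    have h3 : p * p ∣ e * α * β * γ * δ := by
      have h4 : p * p ∣ α * γ := Nat.mul_dvd_mul h1 h2
      exact h4.trans ⟨e * β * δ, by ring⟩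
    exact hp.one_lt.ne' (Nat.isUnit_iff.1 (sq p h3))
  have hAC : Nat.Coprime A C := Nat.Coprime.coprime_dvd_left (rough_dvd y α)
    (Nat.Coprime.coprime_dvd_right (rough_dvd y γ) hαγ)
  -- bounds
  have bβ : ∀ v b : ℕ, v ≤ Y → b ≤ Q * Y → e * b * (Q * v) ^ 2 ≤ 2 * Q ^ 3 * Y ^ 3 := by
    intro v b hv hb
    calc e * b * (Q * v) ^ 2 ≤ 2 * (Q * Y) * (Q * Y) ^ 2 := by gcongr
      _ = 2 * Q ^ 3 * Y ^ 3 := by ring
  have bγ : ∀ w c : ℕ, w ≤ Y → c ≤ Q * Y → c * w ^ 2 ≤ 2 * Q ^ 3 * Y ^ 3 := by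
    intro w c hw hc
    calc c * w ^ 2 ≤ (Q * Y) * Y ^ 2 := by gcongr
      _ = 1 * Q * Y ^ 3 := by ring
      _ ≤ 2 * Q ^ 3 * Y ^ 3 := by
        gcongr
        · norm_num
        · exact Nat.le_self_pow (by norm_num) Q
  have hAbig : (2 * Q ^ 3 * Y ^ 3) * (2 * Q ^ 3 * Y ^ 3) < A := by
    have h1 : 2 * h < A * (Q * Y * Y ^ 2) := by
      calc 2 * h < α * u ^ 2 := hh2
        _ = (smooth y α * A) * u ^ 2 := by rw [hα]
        _ ≤ ((Q * Y) * A) * Y ^ 2 := by gcongr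
        _ = _ := by ring
    have h2 : (2 * Q ^ 3 * Y ^ 3) * (2 * Q ^ 3 * Y ^ 3) * (Q * Y * Y ^ 2) ≤ 2 * h := by
      calc (2 * Q ^ 3 * Y ^ 3) * (2 * Q ^ 3 * Y ^ 3) * (Q * Y * Y ^ 2) = 4 * Q ^ 7 * Y ^ 9 := by ring
        _ ≤ 8 * Q ^ 7 * Y ^ 9 := by gcongr; norm_num
        _ ≤ 2 * h := hh
    exact lt_of_mul_lt_mul_right (lt_of_le_of_lt h2 h1) (Nat.zero_le _)
  have cx : Nat.Coprime (smooth y α * u ^ 2) (e * smooth y β * (Q * v) ^ 2) := by
    apply Nat.Coprime.coprime_dvd_left (mul_dvd_mul_right (smooth_dvd y α) _)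
    apply Nat.Coprime.coprime_dvd_right _ cop
    exact mul_dvd_mul_right (mul_dvd_mul_left e (smooth_dvd y β)) _
  have cx' : Nat.Coprime (smooth y α' * u' ^ 2) (e * smooth y β' * (Q * v') ^ 2) := by
    apply Nat.Coprime.coprime_dvd_left (mul_dvd_mul_right (smooth_dvd y α') _)
    apply Nat.Coprime.coprime_dvd_right _ cop'
    exact mul_dvd_mul_right (mul_dvd_mul_left e (smooth_dvd y β')) _
  obtain ⟨g1, g2⟩ := rel_unique rel rel' hAC (bβ v _ hv1 sβ) (bγ w _ hw1 sγ) (bβ v' _ hv1' sβ')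
    (bγ w' _ hw1' sγ') hAbig cx cx'
  have ea : α * u ^ 2 = α' * u' ^ 2 := by
    rw [← eA] at hα'
    calc α * u ^ 2 = (smooth y α * A) * u ^ 2 := by rw [hα]
      _ = (smooth y α * u ^ 2) * A := by ring
      _ = (smooth y α' * u' ^ 2) * A := by rw [g1]
      _ = (smooth y α' * A) * u' ^ 2 := by ring
      _ = α' * u' ^ 2 := by rw [hα']
  have eb : e * β * (Q * v) ^ 2 = e * β' * (Q * v') ^ 2 := by
    rw [← eB] at hβ'
    calc e * β * (Q * v) ^ 2 = e * (smooth y β * B) * (Q * v) ^ 2 := by rw [hβ]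
      _ = (e * smooth y β * (Q * v) ^ 2) * B := by ring
      _ = (e * smooth y β' * (Q * v') ^ 2) * B := by rw [g2]
      _ = e * (smooth y β' * B) * (Q * v') ^ 2 := by ring
      _ = _ := by rw [hβ']
  obtain ⟨a1, a2⟩ := sq_mul_unique sqα sqα' ea hu0 hu0'
  obtain ⟨b1, b2⟩ := sq_mul_unique sqeβ sqeβ' eb (by positivity) (by positivity)
  have b3 : β = β' := Nat.eq_of_mul_eq_mul_left he0 b1
  have b4 : v = v' := Nat.eq_of_mul_eq_mul_left hQ b2
  have ec : γ * w ^ 2 = γ' * w' ^ 2 := by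
    have h1 := r1
    rw [ea, eb, ← r1'] at h1
    exact Nat.add_left_cancel h1
  have ed : δ * z ^ 2 = δ' * z' ^ 2 := by rw [← r2, ← r2', ea, eb]
  obtain ⟨c1, c2⟩ := sq_mul_unique sqγ sqγ' ec hw0 hw0'
  obtain ⟨d1, d2⟩ := sq_mul_unique sqδ sqδ' ed hz0 hz0'
  exact ⟨a2, b4, c2, d2, a1, b3⟩

/-- the third factor -/
def gam (e Q u v w α β : ℕ) : ℕ := (α * u ^ 2 - e * β * (Q * v) ^ 2) / w ^ 2

/-- the number attached to a tuple -/
def num (e Q u v w z α β : ℕ) : ℕ :=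
  e * α * β * gam e Q u v w α β * ((α * u ^ 2 + e * β * (Q * v) ^ 2) / z ^ 2)

lemma gam_eq {e Q u v w z α β γ δ : ℕ} (hw : 0 < w) (r : IsRep e Q u v w z α β γ δ) :
    gam e Q u v w α β = γ := by
  rw [gam, ← r.1, Nat.add_sub_cancel_left]
  exact Nat.mul_div_cancel _ (by positivity)

lemma num_eq {e Q u v w z α β γ δ : ℕ} (hw : 0 < w) (hz : 0 < z) (r : IsRep e Q u v w z α β γ δ) :
    num e Q u v w z α β = e * α * β * γ * δ := by
  rw [num, gam_eq hw r, r.2]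
  rw [Nat.mul_div_cancel _ (by positivity)]

/-- the large prime divisors -/
def bigs (y m : ℕ) : Finset ℕ := m.primeFactors.filter (fun p => ¬ p < y)

lemma bigs_subset {y m n : ℕ} (h : m ∣ n) (hn : n ≠ 0) : bigs y m ⊆ bigs y n := by
  intro p hp
  rw [bigs, mem_filter] at hp ⊢
  exact ⟨Nat.primeFactors_mono h hn hp.1, hp.2⟩

/-- all the good tuples -/
noncomputable def tuples (e Q k y Z : ℕ) (S : Finset (ℕ × ℕ × ℕ × ℕ)) (H : ℕ × ℕ × ℕ × ℕ → ℕ) :
    Finset (Σ _ : ℕ × ℕ × ℕ × ℕ, ℕ × ℕ) :=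
  S.sigma (fun q => pairs e Q k (H q) y (Q * Z) q.1 q.2.1 q.2.2.1 q.2.2.2)

/-- the number attached to a tuple -/
def tnum (e Q : ℕ) (x : Σ _ : ℕ × ℕ × ℕ × ℕ, ℕ × ℕ) : ℕ :=
  num e Q x.1.1 x.1.2.1 x.1.2.2.1 x.1.2.2.2 x.2.1 x.2.2

lemma card_tuples_le {e Q k y Y Z K : ℕ} {S : Finset (ℕ × ℕ × ℕ × ℕ)} {H : ℕ × ℕ × ℕ × ℕ → ℕ}
    (he : e = 1 ∨ e = 2) (hQ : 0 < Q)
    (hYZ : Y ≤ Z)
    (hS : ∀ q ∈ S, Nice Q Y q.1 q.2.1 q.2.2.1 q.2.2.2)
    (hH : ∀ q ∈ S, 8 * Q ^ 7 * Z ^ 9 ≤ 2 * H q)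
    (hK : ∀ n ∈ (tuples e Q k y Z S H).image (tnum e Q), (bigs y n).card ≤ K) :
    (tuples e Q k y Z S H).card ≤ 8 ^ K * ((tuples e Q k y Z S H).image (tnum e Q)).card := by
  apply card_le_mul_card_image
  intro n hn
  have hKn := hK n hn
  have hgood : ∀ x ∈ (tuples e Q k y Z S H).filter (fun x => tnum e Q x = n),
      Nice Q Y x.1.1 x.1.2.1 x.1.2.2.1 x.1.2.2.2 ∧ 8 * Q ^ 7 * Z ^ 9 ≤ 2 * H x.1 ∧
      Good e Q k (H x.1) y (Q * Z) x.1.1 x.1.2.1 x.1.2.2.1 x.1.2.2.2 x.2.1 x.2.2 ∧ tnum e Q x = n := by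
    rintro ⟨q, ab⟩ hx
    rw [mem_filter, tuples, mem_sigma, pairs, mem_filter] at hx
    exact ⟨hS q hx.1.1, hH q hx.1.1, hx.1.2.2, hx.2⟩
  have hcard : ((tuples e Q k y Z S H).filter (fun x => tnum e Q x = n)).card ≤
      ((bigs y n).powerset ×ˢ ((bigs y n).powerset ×ˢ (bigs y n).powerset)).card := by
    apply card_le_card_of_injOn (fun x => (bigs y x.2.1, bigs y x.2.2,
      bigs y (gam e Q x.1.1 x.1.2.1 x.1.2.2.1 x.2.1 x.2.2)))
    · intro x hx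
      obtain ⟨hN, -, ⟨γ, δ, r, sq, -⟩, hn'⟩ := hgood x hx
      have h1 : n = e * x.2.1 * x.2.2 * γ * δ := by
        rw [← hn']
        exact num_eq hN.hw0 hN.hz0 r
      have hn0 : n ≠ 0 := by rw [h1]; exact sq.ne_zero
      rw [mem_coe, mem_product, mem_product, mem_powerset, mem_powerset, mem_powerset]
      refine ⟨bigs_subset ?_ hn0, bigs_subset ?_ hn0, bigs_subset ?_ hn0⟩
      · rw [h1]; exact ⟨e * x.2.2 * γ * δ, by ring⟩
      · rw [h1]; exact ⟨e * x.2.1 * γ * δ, by ring⟩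
      · rw [gam_eq hN.hw0 r, h1]; exact ⟨e * x.2.1 * x.2.2 * δ, by ring⟩
    · intro x hx x' hx' hxx
      obtain ⟨hN, hh, ⟨γ, δ, r, sq, cop, hc, hh2, hh3, hh4, sα, sβ, sγ⟩, hn'⟩ := hgood x hx
      obtain ⟨hN', hh', ⟨γ', δ', r', sq', cop', hc', hh2', hh3', hh4', sα', sβ', sγ'⟩, hn''⟩ := hgood x' hx'
      simp only [Prod.mk.injEq] at hxx
      obtain ⟨e1, e2, e3⟩ := hxx
      rw [gam_eq hN.hw0 r, gam_eq hN'.hw0 r'] at e3
      have eA : rough y x.2.1 = rough y x'.2.1 := by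
        rw [rough, rough]; exact congrArg (fun s : Finset ℕ => ∏ p ∈ s, p) e1
      have eB : rough y x.2.2 = rough y x'.2.2 := by
        rw [rough, rough]; exact congrArg (fun s : Finset ℕ => ∏ p ∈ s, p) e2
      have eC : rough y γ = rough y γ' := by
        rw [rough, rough]; exact congrArg (fun s : Finset ℕ => ∏ p ∈ s, p) e3
      obtain ⟨g1, g2, g3, g4, g5, g6⟩ := tuple_unique he hQ hN.hu0 hN.hv0 hN.hw0 hN.hz0 hN'.hu0 hN'.hv0
        hN'.hw0 hN'.hz0 (hN.hu1.trans hYZ) (hN.hv1.trans hYZ) (hN.hw1.trans hYZ)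
        (hN'.hv1.trans hYZ) (hN'.hw1.trans hYZ) hh r sq cop hh2 sα sβ sγ r' sq' cop' sβ' sγ'
        eA eB eC
      obtain ⟨⟨u, v, w, z⟩, α, β⟩ := x
      obtain ⟨⟨u', v', w', z'⟩, α', β'⟩ := x'
      simp only at g1 g2 g3 g4 g5 g6
      subst g1 g2 g3 g4 g5 g6
      rfl
  refine hcard.trans ?_
  rw [card_product, card_product, card_powerset]
  calc 2 ^ (bigs y n).card * (2 ^ (bigs y n).card * 2 ^ (bigs y n).card) = 8 ^ (bigs y n).card := by
        rw [← pow_add, ← pow_add, show (8 : ℕ) = 2 ^ 3 by norm_num, ← pow_mul]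
        congr 1
        ring
    _ ≤ 8 ^ K := Nat.pow_le_pow_right (by norm_num) hKn

end Pool.Agent.H14.CN
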