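import Pool.Agent.H14.CN.Good

set_option autoImplicit false

/-!
# Many good pairs for a given quadruple
-/

namespace Pool.Agent.H14.CN

open Finset
open scoped Classical

lemma exists_mul_modEq (c m b : ℕ) (hm : 0 < m) (h : Nat.Coprime c m) : ∃ r : ℕ, r * c ≡ b [MOD m] := by
  have : NeZero m := ⟨hm.ne'⟩
  refine ⟨((b : ZMod m) * (c : ZMod m)⁻¹).val, ?_⟩
  rw [← ZMod.natCast_eq_natCast_iff]
  push_cast
  rw [ZMod.natCast_zmod_val, mul_assoc, mul_comm ((c : ZMod m)⁻¹), ZMod.coe_mul_inv_eq_one c h, mul_one]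

lemma exists_mul_add_modEq (c m b : ℕ) (hm : 0 < m) (h : Nat.Coprime c m) :
    ∃ r : ℕ, r * c + b ≡ 0 [MOD m] := by
  obtain ⟨r, hr⟩ := exists_mul_modEq c m (m * b - b) hm h
  refine ⟨r, ?_⟩
  have h1 : r * c + b ≡ (m * b - b) + b [MOD m] := hr.add_right b
  have h2 : (m * b - b) + b = m * b := Nat.sub_add_cancel (Nat.le_mul_of_pos_left b hm)
  rw [h2] at h1
  exact h1.trans ((Nat.modEq_zero_iff_dvd).2 (Dvd.intro _ rfl))

lemma exists_shift (x q N : ℕ) (hq : 0 < q) : ∃ a, N < a ∧ a ≤ N + q ∧ a ≡ x [MOD q] := by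
  refine ⟨N + 1 + (x + q * (N + 1) - (N + 1)) % q, by omega, ?_, ?_⟩
  · have := Nat.mod_lt (x + q * (N + 1) - (N + 1)) hq
    omega
  · have h1 : N + 1 ≤ q * (N + 1) := Nat.le_mul_of_pos_left _ hq
    have h2 : N + 1 + (x + q * (N + 1) - (N + 1)) = x + q * (N + 1) := by omega
    have h3 : N + 1 + (x + q * (N + 1) - (N + 1)) % q ≡ N + 1 + (x + q * (N + 1) - (N + 1)) [MOD q] :=
      (Nat.mod_modEq _ _).add_left _
    rw [h2] at h3
    refine h3.trans ?_
    have h4 : x + q * (N + 1) ≡ x + 0 [MOD q] :=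
      Nat.ModEq.add_left x ((Nat.modEq_zero_iff_dvd).2 (Dvd.intro _ rfl))
    simpa using h4

lemma exists_a {Q u w z b N : ℕ} (hQ : 0 < Q) (hw0 : 0 < w) (hz0 : 0 < z) (hQw : Nat.Coprime Q w)
    (hQz : Nat.Coprime Q z) (hwz : Nat.Coprime w z) (huw : Nat.Coprime u w) (huz : Nat.Coprime u z) :
    ∃ a, N < a ∧ a ≤ N + Q * w ^ 2 * z ^ 2 ∧ a ≡ 1 [MOD Q] ∧ a * u ^ 2 ≡ b [MOD w ^ 2] ∧
      a * u ^ 2 + b ≡ 0 [MOD z ^ 2] := by
  obtain ⟨r1, hr1⟩ := exists_mul_modEq (u ^ 2) (w ^ 2) b (by positivity) (Nat.Coprime.pow 2 2 huw)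
  obtain ⟨r2, hr2⟩ := exists_mul_add_modEq (u ^ 2) (z ^ 2) b (by positivity) (Nat.Coprime.pow 2 2 huz)
  obtain ⟨x1, hx1, hx1'⟩ := Nat.chineseRemainder (Nat.Coprime.pow_right 2 hQw) 1 r1
  have hco : Nat.Coprime (Q * w ^ 2) (z ^ 2) :=
    Nat.Coprime.mul_left (Nat.Coprime.pow_right 2 hQz) (Nat.Coprime.pow 2 2 hwz)
  obtain ⟨x2, hx2, hx2'⟩ := Nat.chineseRemainder hco x1 r2
  obtain ⟨a, ha1, ha2, ha3⟩ := exists_shift x2 (Q * w ^ 2 * z ^ 2) N (by positivity)
  have h4 : a ≡ x2 [MOD Q * w ^ 2] := ha3.of_dvd (Dvd.intro _ rfl)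
  have h5 : a ≡ x1 [MOD Q * w ^ 2] := h4.trans hx2
  have h6 : a ≡ 1 [MOD Q] := (h5.of_dvd (Dvd.intro _ rfl)).trans hx1
  have h7 : a ≡ r1 [MOD w ^ 2] := (h5.of_dvd (Dvd.intro_left _ rfl)).trans hx1'
  have h8 : a ≡ r2 [MOD z ^ 2] := (ha3.of_dvd (Dvd.intro_left _ rfl)).trans hx2'
  exact ⟨a, ha1, ha2, h6, (h7.mul_right _).trans hr1, ((h8.mul_right _).add_right b).trans hr2⟩

/-- the fixed parameters -/
structure Par (e Q k P : ℕ) : Prop where
  he : e = 1 ∨ e = 2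
  hQ2 : 2 ∣ Q
  hQ0 : 0 < Q
  hQsq : ∀ p : ℕ, p.Prime → p ∣ Q → p ^ 2 ∣ Q
  hQP : ∀ p : ℕ, p.Prime → p ≤ P → p ∣ Q
  hP : 1000 ≤ P
  hk : Squarefree k
  hek : e = 2 → Odd k
  hkQ : k ≤ Q

/-- sum of the reciprocals of the prime divisors -/
noncomputable def psum (m : ℕ) : ℝ := ∑ p ∈ m.primeFactors, (1 : ℝ) / p

/-- admissible quadruples -/
structure Nice (Q Y u v w z : ℕ) : Prop where
  hu : u ≡ 1 [MOD Q]
  hv : v ≡ 1 [MOD Q]
  hw : w ≡ 1 [MOD Q]
  hz : z ≡ 1 [MOD Q]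
  hu0 : 0 < u
  hv0 : 0 < v
  hw0 : 0 < w
  hz0 : 0 < z
  hu1 : u ≤ Y
  hv1 : v ≤ Y
  hw1 : w ≤ Y
  hz1 : z ≤ Y
  huv : Nat.Coprime u v
  huw : Nat.Coprime u w
  huz : Nat.Coprime u z
  hvw : Nat.Coprime v w
  hvz : Nat.Coprime v z
  hwz : Nat.Coprime w z
  su : psum u ≤ 1 / 100
  sv : psum v ≤ 1 / 100
  sw : psum w ≤ 1 / 100
  sz : psum z ≤ 1 / 100

lemma psum_mul_le {m n : ℕ} (hm : m ≠ 0) (hn : n ≠ 0) : psum (m * n) ≤ psum m + psum n := by
  rw [psum, Nat.primeFactors_mul hm hn]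
  have h := sum_union_inter (s₁ := m.primeFactors) (s₂ := n.primeFactors) (f := fun p : ℕ => (1 : ℝ) / p)
  have h2 : 0 ≤ ∑ p ∈ m.primeFactors ∩ n.primeFactors, (1 : ℝ) / p :=
    sum_nonneg (fun p _ => by positivity)
  rw [psum, psum]
  linarith

/-- the good pairs -/
noncomputable def pairs (e Q k h y T u v w z : ℕ) : Finset (ℕ × ℕ) :=
  ((Icc 1 (3 * h)) ×ˢ (Icc 1 h)).filter (fun p => Good e Q k h y T u v w z p.1 p.2)

lemma card_pairs {e Q k P Y Z y h u v w z : ℕ} {E : ℝ} (hpar : Par e Q k P) (hn : Nice Q Y u v w z)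
    (hY : 2 ≤ Z) (hy : 1 ≤ y) (h1 : Real.log y + Real.log 4 ≤ Real.log Z / 10)
    (hE : Real.log 4 * y ≤ E * Real.log Z) (hE1 : (Nat.sqrt (4 * h) : ℝ) ≤ E)
    (hE2 : 2 * (1 + Real.log (4 * h)) ≤ E)
    (hJ : 2000 * E ≤ ((h / (e * Q ^ 3 * v ^ 2) : ℕ) : ℝ))
    (hL : 2000 * E ≤ ((h / u ^ 2 / (Q * w ^ 2 * z ^ 2) : ℕ) : ℝ)) (hh : 0 < h) :
    ((h / (e * Q ^ 3 * v ^ 2) : ℕ) : ℝ) / 2 * (((h / u ^ 2 / (Q * w ^ 2 * z ^ 2) : ℕ) : ℝ) / 2) ≤
      (pairs e Q k h y (Q * Z) u v w z).card := by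
  obtain ⟨he, hQ2, hQ0, hQsq, hQP, hP, hk, hek, hkQ⟩ := hpar
  obtain ⟨hu, hv, hw, hz, hu0, hv0, hw0, hz0, hu1, hv1, hw1, hz1, huv, huw, huz, hvw, hvz, hwz, su, sv, sw,
    sz⟩ := hn
  have he0 : 0 < e := by rcases he with rfl | rfl <;> norm_num
  have hk0 : 0 < k := Nat.pos_of_ne_zero hk.ne_zero
  have hu2 : 1 ≤ u ^ 2 := Nat.one_le_pow _ _ hu0
  have hw2 : 1 ≤ w ^ 2 := Nat.one_le_pow _ _ hw0
  have hz2 : 1 ≤ z ^ 2 := Nat.one_le_pow _ _ hz0
  set J := h / (e * Q ^ 3 * v ^ 2) with hJdef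
  set L := h / u ^ 2 / (Q * w ^ 2 * z ^ 2) with hLdef
  set q := Q * w ^ 2 * z ^ 2 with hq
  have hq0 : 0 < q := by positivity
  have hlY : 0 < Real.log Z := Real.log_pos (by exact_mod_cast (by omega : 1 < Z))
  have hhr : (1 : ℝ) ≤ h := by exact_mod_cast hh
  have hlog4h : 0 ≤ Real.log (4 * h) := Real.log_nonneg (by linarith)
  have hE0 : 0 < E := by linarith
  -- bounds for beta
  have hJmul : e * (Q * J) * (Q * v) ^ 2 ≤ h := by
    have h2 : e * Q ^ 3 * v ^ 2 * J ≤ h := Nat.mul_div_le h _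
    calc e * (Q * J) * (Q * v) ^ 2 = e * Q ^ 3 * v ^ 2 * J := by ring
      _ ≤ h := h2
  have hβb : ∀ j, j < J → e * (Q * j + k) * (Q * v) ^ 2 ≤ h := by
    intro j hj
    refine le_trans ?_ hJmul
    have h3 : Q * j + k ≤ Q * J := by
      calc Q * j + k ≤ Q * j + Q := by omega
        _ = Q * (j + 1) := by ring
        _ ≤ Q * J := Nat.mul_le_mul_left _ hj
    gcongr
  have hβv : ∀ j, (Q * j + k) * v ≤ e * (Q * j + k) * (Q * v) ^ 2 := by
    intro j
    have h3 : v ≤ e * (Q * v) ^ 2 := by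
      calc v = 1 * (1 * v) := by ring
        _ ≤ e * (Q * v) := by gcongr <;> omega
        _ ≤ e * (Q * v) ^ 2 := by
          gcongr
          exact Nat.le_self_pow two_ne_zero _
    calc (Q * j + k) * v ≤ (Q * j + k) * (e * (Q * v) ^ 2) := Nat.mul_le_mul_left _ h3
      _ = _ := by ring
  have hβle : ∀ j, j < J → Q * j + k ≤ h := by
    intro j hj
    calc Q * j + k = (Q * j + k) * 1 := by ring
      _ ≤ (Q * j + k) * v := Nat.mul_le_mul_left _ hv0
      _ ≤ _ := hβv j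
      _ ≤ h := hβb j hj
  -- U
  have hLpos : 0 < L := by
    have : (0 : ℝ) < L := by linarith
    exact_mod_cast this
  have hUh : u * w * z ≤ h := by
    have h2 : q * L ≤ h / u ^ 2 := Nat.mul_div_le _ _
    have h3 : u ^ 2 * (h / u ^ 2) ≤ h := Nat.mul_div_le _ _
    calc u * w * z ≤ u ^ 2 * (1 * w ^ 2 * z ^ 2 * 1) := by
          rw [mul_assoc]
          apply Nat.mul_le_mul (Nat.le_self_pow two_ne_zero _)
          calc w * z ≤ w ^ 2 * z ^ 2 :=
                Nat.mul_le_mul (Nat.le_self_pow two_ne_zero _) (Nat.le_self_pow two_ne_zero _)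
            _ = 1 * w ^ 2 * z ^ 2 * 1 := by ring
      _ ≤ u ^ 2 * (Q * w ^ 2 * z ^ 2 * L) := by
          gcongr <;> omega
      _ ≤ u ^ 2 * (h / u ^ 2) := Nat.mul_le_mul_left _ h2
      _ ≤ h := h3
  have hU0 : 0 < u * w * z := by positivity
  have hlogh : Real.log h ≤ Real.log (4 * h) := Real.log_le_log (by linarith) (by linarith)
  have hUs : ∑ p ∈ (u * w * z).primeFactors, (1 : ℝ) / p ≤ 3 / 100 := by
    have h2 := psum_mul_le (m := u * w) (n := z) (by positivity) (by positivity)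
    have h3 := psum_mul_le (m := u) (n := w) (by positivity) (by positivity)
    have h4 : psum (u * w * z) ≤ 3 / 100 := by linarith
    exact h4
  have hUE : 2 * Real.log ((u * w * z : ℕ) : ℝ) ≤ E := by
    have : Real.log ((u * w * z : ℕ) : ℝ) ≤ Real.log h :=
      Real.log_le_log (by exact_mod_cast hU0) (by exact_mod_cast hUh)
    linarith
  have hVE : (Nat.sqrt h : ℝ) ≤ E := by
    refine le_trans ?_ hE1
    exact_mod_cast Nat.sqrt_le_sqrt (by omega)
  have hVE' : 1 + Real.log h ≤ E := by linarith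
  have cβ := card_goodBeta (Q := Q) (k := k) (U := u * w * z) (V := h) (y := y) (J := J) hQP hP hk0 hβle hU0
    hUs hUE hy hlY h1 hE hVE hVE' hJ
  -- alpha
  have hex : ∀ j, ∃ a, 2 * h / u ^ 2 < a ∧ a ≤ 2 * h / u ^ 2 + q ∧ a ≡ 1 [MOD Q] ∧
      a * u ^ 2 ≡ e * (Q * j + k) * (Q * v) ^ 2 [MOD w ^ 2] ∧
      a * u ^ 2 + e * (Q * j + k) * (Q * v) ^ 2 ≡ 0 [MOD z ^ 2] := fun j =>
    exists_a hQ0 hw0 hz0 (coprime_of_modEq_one hw).symm (coprime_of_modEq_one hz).symm hwz huw huz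
  choose a ha1 ha2 ha3 ha4 ha5 using hex
  have hau : ∀ j, 2 * h < a j * u ^ 2 := by
    intro j
    have h2 : 2 * h < u ^ 2 * (2 * h / u ^ 2 + 1) := Nat.lt_mul_div_succ _ (by positivity)
    calc 2 * h < u ^ 2 * (2 * h / u ^ 2 + 1) := h2
      _ ≤ u ^ 2 * a j := Nat.mul_le_mul_left _ (ha1 j)
      _ = _ := by ring
  have hau2 : ∀ j t, t < L → (q * t + a j) * u ^ 2 ≤ 3 * h := by
    intro j t ht
    have h2 : q * L ≤ h / u ^ 2 := Nat.mul_div_le _ _
    have h3 : u ^ 2 * (h / u ^ 2) ≤ h := Nat.mul_div_le _ _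
    have h4 : u ^ 2 * (2 * h / u ^ 2) ≤ 2 * h := Nat.mul_div_le _ _
    have h5 : q * t + a j ≤ q * L + 2 * h / u ^ 2 := by
      have h6 : q * t + q ≤ q * L := by
        calc q * t + q = q * (t + 1) := by ring
          _ ≤ q * L := Nat.mul_le_mul_left _ ht
      have := ha2 j
      omega
    calc (q * t + a j) * u ^ 2 ≤ (q * L + 2 * h / u ^ 2) * u ^ 2 := Nat.mul_le_mul_right _ h5
      _ ≤ (h / u ^ 2 + 2 * h / u ^ 2) * u ^ 2 := by gcongr
      _ = u ^ 2 * (h / u ^ 2) + u ^ 2 * (2 * h / u ^ 2) := by ring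
      _ ≤ 3 * h := by omega
  have hexc : ∀ j, j < J → ∃ c, e * (Q * j + k) * (Q * v) ^ 2 + c * w ^ 2 = a j * u ^ 2 := by
    intro j hj
    have h2 : e * (Q * j + k) * (Q * v) ^ 2 ≤ a j * u ^ 2 := by
      have := hβb j hj
      have := hau j
      omega
    obtain ⟨c, hc⟩ := (Nat.modEq_iff_dvd' h2).1 (ha4 j).symm
    refine ⟨c, ?_⟩
    rw [mul_comm c, ← hc]
    omega
  have hexd : ∀ j, ∃ d, a j * u ^ 2 + e * (Q * j + k) * (Q * v) ^ 2 = d * z ^ 2 := by
    intro j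
    obtain ⟨d, hd⟩ := (Nat.modEq_zero_iff_dvd).1 (ha5 j)
    exact ⟨d, by rw [hd]; ring⟩
  -- counting t
  have key : ∀ j ∈ (range J).filter (GoodBeta Q k (u * w * z) h y (Real.log Z)),
      ∃ S : Finset ℕ, (∀ t ∈ S, t < L ∧ Good e Q k h y (Q * Z) u v w z (q * t + a j) (Q * j + k)) ∧
        (L : ℝ) / 2 ≤ S.card := by
    intro j hj
    rw [mem_filter, mem_range] at hj
    obtain ⟨hjJ, hjg⟩ := hj
    obtain ⟨c, hc⟩ := hexc j hjJ
    obtain ⟨d, hd⟩ := hexd j
    have hb1 := hβb j hjJ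
    have hb2 := hau j
    have hb3 := hβv j
    have hβ0 : 0 < Q * j + k := by omega
    have hb0 : 0 < e * (Q * j + k) * (Q * v) ^ 2 := by positivity
    have hc0 : 0 < c := by
      rcases Nat.eq_zero_or_pos c with h0 | h0
      · rw [h0, zero_mul] at hc; omega
      · exact h0
    have hd0 : 0 < d := by
      rcases Nat.eq_zero_or_pos d with h0 | h0
      · rw [h0, zero_mul] at hd; omega
      · exact h0
    have ha0 : 0 < a j := lt_of_le_of_lt (Nat.zero_le _) (ha1 j)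
    refine ⟨(range L).filter (GoodT q (a j) (Q * z ^ 2 * u ^ 2) c (Q * w ^ 2 * u ^ 2) d y
      ((Q * j + k) * v).primeFactors (Real.log Z)), ?_, ?_⟩
    · intro t ht
      rw [mem_filter, mem_range] at ht
      refine ⟨ht.1, ?_⟩
      refine good_of he hQ2 hQ0 hQsq hk hek (by omega) hu hw hz hv0 huv hvw hvz hu0 hw0 hz0 hjg hc hd (ha3 j)
        ht.2 ?_ (hau2 j t ht.1) hb1
      calc 2 * h < a j * u ^ 2 := hb2
        _ ≤ (q * t + a j) * u ^ 2 := by gcongr; omega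
    · have hqu : ∀ t, t < L → (Q * z ^ 2 * u ^ 2 * t + c) * w ^ 2 ≤ 3 * h := by
        intro t ht
        refine le_trans ?_ (hau2 j t ht)
        calc (Q * z ^ 2 * u ^ 2 * t + c) * w ^ 2 = q * t * u ^ 2 + c * w ^ 2 := by rw [hq]; ring
          _ ≤ q * t * u ^ 2 + a j * u ^ 2 := by
            have : c * w ^ 2 ≤ a j * u ^ 2 := by rw [← hc]; omega
            omega
          _ = (q * t + a j) * u ^ 2 := by ring
      have hqd : ∀ t, t < L → (Q * w ^ 2 * u ^ 2 * t + d) * z ^ 2 ≤ 4 * h := by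
        intro t ht
        have h3 := hau2 j t ht
        calc (Q * w ^ 2 * u ^ 2 * t + d) * z ^ 2 = q * t * u ^ 2 + d * z ^ 2 := by rw [hq]; ring
          _ = (q * t + a j) * u ^ 2 + e * (Q * j + k) * (Q * v) ^ 2 := by rw [← hd]; ring
          _ ≤ 4 * h := by omega
      apply card_goodT (V := 4 * h) (P := P) (E := E)
      · intro p hp hpP
        exact Dvd.dvd.mul_right (Dvd.dvd.mul_right (hQP p hp hpP) _) _
      · intro p hp hpP
        exact Dvd.dvd.mul_right (Dvd.dvd.mul_right (hQP p hp hpP) _) _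
      · intro p hp hpP
        exact Dvd.dvd.mul_right (Dvd.dvd.mul_right (hQP p hp hpP) _) _
      · exact hP
      · exact ha0
      · exact hc0
      · exact hd0
      · intro t ht
        have h3 := hau2 j t ht
        calc q * t + a j = (q * t + a j) * 1 := by ring
          _ ≤ (q * t + a j) * u ^ 2 := Nat.mul_le_mul_left _ hu2
          _ ≤ 4 * h := by omega
      · intro t ht
        have h3 := hqu t ht
        calc Q * z ^ 2 * u ^ 2 * t + c = (Q * z ^ 2 * u ^ 2 * t + c) * 1 := by ring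
          _ ≤ (Q * z ^ 2 * u ^ 2 * t + c) * w ^ 2 := Nat.mul_le_mul_left _ hw2
          _ ≤ 4 * h := by omega
      · intro t ht
        have h3 := hqd t ht
        calc Q * w ^ 2 * u ^ 2 * t + d = (Q * w ^ 2 * u ^ 2 * t + d) * 1 := by ring
          _ ≤ (Q * w ^ 2 * u ^ 2 * t + d) * z ^ 2 := Nat.mul_le_mul_left _ hz2
          _ ≤ 4 * h := by omega
      · intro p hp
        exact Nat.prime_of_mem_primeFactors hp
      · -- sum of 1/p
        have h3 : ∑ p ∈ ((Q * j + k) * v).primeFactors.filter (fun p => ¬ p ∣ q), (1 : ℝ) / p ≤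
            isum Q h (Q * j + k) + psum v := by
          have h4 : ((Q * j + k) * v).primeFactors.filter (fun p => ¬ p ∣ q) ⊆
              ((primesBelow (h + 1)).filter (fun p => ¬ p ∣ Q ∧ p ∣ Q * j + k)) ∪ v.primeFactors := by
            intro p hp
            rw [mem_filter, Nat.mem_primeFactors] at hp
            obtain ⟨⟨hp1, hp2, hp3⟩, hp4⟩ := hp
            rw [mem_union]
            rcases (Nat.Prime.dvd_mul hp1).1 hp2 with h5 | h5
            · left
              rw [mem_filter, mem_primesBelow]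
              refine ⟨⟨?_, hp1⟩, ?_, h5⟩
              · have h6 := Nat.le_of_dvd hβ0 h5
                have h7 := hβle j hjJ
                omega
              · intro h6
                apply hp4
                exact Dvd.dvd.mul_right (Dvd.dvd.mul_right h6 _) _
            · right
              exact Nat.mem_primeFactors.2 ⟨hp1, h5, by omega⟩
          refine (sum_le_sum_of_subset_of_nonneg h4 (fun i _ _ => by positivity)).trans ?_
          have hun := sum_union_inter (s₁ := (primesBelow (h + 1)).filter (fun p => ¬ p ∣ Q ∧ p ∣ Q * j + k))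
            (s₂ := v.primeFactors) (f := fun p : ℕ => (1 : ℝ) / p)
          have h2 : 0 ≤ ∑ p ∈ ((primesBelow (h + 1)).filter (fun p => ¬ p ∣ Q ∧ p ∣ Q * j + k)) ∩
              v.primeFactors, (1 : ℝ) / p := sum_nonneg (fun p _ => by positivity)
          rw [isum, psum]
          linarith
        have h4 := hjg.2.2.2
        linarith
      · have h3 : (((Q * j + k) * v).primeFactors.card : ℝ) ≤ 2 * Real.log (((Q * j + k) * v : ℕ) : ℝ) :=
          card_primeFactors_le_log (by positivity)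
        have h4 : Real.log (((Q * j + k) * v : ℕ) : ℝ) ≤ Real.log h := by
          apply Real.log_le_log
          · have : 0 < (Q * j + k) * v := by positivity
            exact_mod_cast this
          · have := hb3.trans hb1
            exact_mod_cast this
        linarith
      · exact hy
      · exact hlY
      · exact h1
      · exact hE
      · exact hE1
      · exact hL
  choose! S hS1 hS2 using key
  set B := (range J).filter (GoodBeta Q k (u * w * z) h y (Real.log Z)) with hB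
  have hmap : (B.sigma (fun j => S j)).card ≤ (pairs e Q k h y (Q * Z) u v w z).card := by
    apply card_le_card_of_injOn (fun x => (q * x.2 + a x.1, Q * x.1 + k))
    · rintro ⟨j, t⟩ hx
      rw [mem_coe, mem_sigma] at hx
      obtain ⟨hj, ht⟩ := hx
      simp only at hj ht
      obtain ⟨ht1, ht2⟩ := hS1 j hj t ht
      have hjJ : j < J := mem_range.1 (mem_filter.1 hj).1
      rw [mem_coe, pairs, mem_filter, mem_product, mem_Icc, mem_Icc]
      refine ⟨⟨⟨?_, ?_⟩, ?_, hβle j hjJ⟩, ht2⟩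
      · have h3 : 0 < a j := lt_of_le_of_lt (Nat.zero_le _) (ha1 j)
        simp only
        exact Nat.succ_le_of_lt (Nat.add_pos_right _ h3)
      · have h3 := hau2 j t ht1
        simp only
        calc q * t + a j = (q * t + a j) * 1 := by ring
          _ ≤ (q * t + a j) * u ^ 2 := Nat.mul_le_mul_left _ hu2
          _ ≤ 3 * h := h3
      · simp only
        omega
    · rintro ⟨j, t⟩ _ ⟨j', t'⟩ _ hx
      simp only [Prod.mk.injEq] at hx
      obtain ⟨hx1, hx2⟩ := hx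
      have h3 : j = j' := by
        have : Q * j = Q * j' := by omega
        exact Nat.eq_of_mul_eq_mul_left hQ0 this
      subst h3
      have h4 : t = t' := by
        have : q * t = q * t' := by omega
        exact Nat.eq_of_mul_eq_mul_left hq0 this
      rw [h4]
  have hsum : (J : ℝ) / 2 * (L / 2) ≤ ((B.sigma (fun j => S j)).card : ℝ) := by
    rw [card_sigma]
    push_cast
    calc (J : ℝ) / 2 * (L / 2) ≤ (B.card : ℝ) * (L / 2) :=
          mul_le_mul_of_nonneg_right cβ (by positivity)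
      _ = ∑ j ∈ B, (L : ℝ) / 2 := by rw [sum_const, nsmul_eq_mul]
      _ ≤ ∑ j ∈ B, ((S j).card : ℝ) := sum_le_sum (fun j hj => hS2 j hj)
  have hmap' : (((B.sigma (fun j => S j)).card : ℕ) : ℝ) ≤ (pairs e Q k h y (Q * Z) u v w z).card := by
    exact_mod_cast hmap
  exact hsum.trans hmap'

end Pool.Agent.H14.CN
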