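import Pool.Agent.H14.CN.Alpha

set_option autoImplicit false

/-!
# Smooth and rough parts
-/

namespace Pool.Agent.H14.CN

open Finset
open scoped Classical

/-- product of the prime divisors below `y` -/
def smooth (y m : ℕ) : ℕ := ∏ p ∈ m.primeFactors.filter (fun p => p < y), p

/-- product of the prime divisors which are at least `y` -/
def rough (y m : ℕ) : ℕ := ∏ p ∈ m.primeFactors.filter (fun p => ¬ p < y), p

lemma smooth_mul_rough {y m : ℕ} (hm : Squarefree m) : smooth y m * rough y m = m := by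
  rw [smooth, rough, prod_filter_mul_prod_filter_not]
  exact Nat.prod_primeFactors_of_squarefree hm

lemma smooth_pos (y m : ℕ) : 0 < smooth y m := by
  apply prod_pos
  intro p hp
  exact (Nat.prime_of_mem_primeFactors (mem_filter.1 hp).1).pos

lemma smooth_dvd (y m : ℕ) : smooth y m ∣ m :=
  (prod_dvd_prod_of_subset _ _ _ (filter_subset _ _)).trans (Nat.prod_primeFactors_dvd m)

lemma rough_dvd (y m : ℕ) : rough y m ∣ m :=
  (prod_dvd_prod_of_subset _ _ _ (filter_subset _ _)).trans (Nat.prod_primeFactors_dvd m)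

lemma smooth_le {A Q y m Y : ℕ} (hQ : 0 < Q) (hm : 0 < m) (hAm : ∀ p : ℕ, p.Prime → p ∣ A → p ∣ m → p ∣ Q)
    (hY : 1 ≤ Y) (h : lsum A y m ≤ Real.log Y) : smooth y m ≤ Q * Y := by
  have h1 : smooth y m = (∏ p ∈ (m.primeFactors.filter (fun p => p < y)).filter (fun p => p ∣ A), p) *
      ∏ p ∈ (m.primeFactors.filter (fun p => p < y)).filter (fun p => ¬ p ∣ A), p := by
    rw [smooth, prod_filter_mul_prod_filter_not]
  rw [h1]
  apply Nat.mul_le_mul
  · apply Nat.le_of_dvd hQ
    refine dvd_trans ?_ (Nat.prod_primeFactors_dvd Q)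
    apply prod_dvd_prod_of_subset
    intro p hp
    simp only [mem_filter, Nat.mem_primeFactors] at hp
    exact Nat.mem_primeFactors.2 ⟨hp.1.1.1, hAm p hp.1.1.1 hp.2 hp.1.1.2.1, hQ.ne'⟩
  · have h2 : (m.primeFactors.filter (fun p => p < y)).filter (fun p => ¬ p ∣ A) =
        (primesBelow y).filter (fun p => ¬ p ∣ A ∧ p ∣ m) := by
      ext p
      simp only [mem_filter, Nat.mem_primeFactors, mem_primesBelow]
      constructor
      · rintro ⟨⟨⟨h1, h2, _⟩, h3⟩, h4⟩
        exact ⟨⟨h3, h1⟩, h4, h2⟩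
      · rintro ⟨⟨h1, h2⟩, h3, h4⟩
        exact ⟨⟨⟨h2, h4, hm.ne'⟩, h1⟩, h3⟩
    rw [h2]
    have h3 : Real.log ((∏ p ∈ (primesBelow y).filter (fun p => ¬ p ∣ A ∧ p ∣ m), p : ℕ) : ℝ) ≤
        Real.log Y := by
      refine le_trans (le_of_eq ?_) h
      rw [lsum]
      push_cast
      rw [Real.log_prod]
      intro p hp
      simp only [mem_filter, mem_primesBelow] at hp
      exact_mod_cast hp.1.2.ne_zero
    have h4 : (0 : ℝ) < ((∏ p ∈ (primesBelow y).filter (fun p => ¬ p ∣ A ∧ p ∣ m), p : ℕ) : ℝ) := by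
      have : 0 < ∏ p ∈ (primesBelow y).filter (fun p => ¬ p ∣ A ∧ p ∣ m), p := by
        apply prod_pos
        intro p hp
        simp only [mem_filter, mem_primesBelow] at hp
        exact hp.1.2.pos
      exact_mod_cast this
    have h5 := (Real.log_le_log_iff h4 (by exact_mod_cast hY)).1 h3
    exact_mod_cast h5

end Pool.Agent.H14.CN
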