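import Pool.Agent.H14.CN.Mult

set_option autoImplicit false

/-!
# The sum over the admissible quadruples
-/

namespace Pool.Agent.H14.CN

open Finset
open scoped Classical

lemma sum_biUnion_le' (s : Finset ℕ) (t : ℕ → Finset ℕ) (f : ℕ → ℝ) (hf : ∀ i, 0 ≤ f i) :
    ∑ x ∈ s.biUnion t, f x ≤ ∑ i ∈ s, ∑ x ∈ t i, f x := by
  induction s using Finset.induction_on with
  | empty => simp
  | insert a s ha ih =>
    rw [biUnion_insert, sum_insert ha]
    have h1 := sum_union_inter (s₁ := t a) (s₂ := s.biUnion t) (f := f)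
    have h2 : 0 ≤ ∑ x ∈ t a ∩ s.biUnion t, f x := sum_nonneg (fun i _ => hf i)
    linarith

/-- the members up to `Y` of the residue class of one -/
def rset (Q Y : ℕ) : Finset ℕ := (Icc 1 Y).filter (fun m => m ≡ 1 [MOD Q])

lemma mem_rset {Q Y m : ℕ} : m ∈ rset Q Y ↔ (1 ≤ m ∧ m ≤ Y) ∧ m ≡ 1 [MOD Q] := by
  rw [rset, mem_filter, mem_Icc]

/-- the sum of the reciprocals -/
noncomputable def rsum (Q Y : ℕ) : ℝ := ∑ m ∈ rset Q Y, (1 : ℝ) / m

lemma rsum_nonneg (Q Y : ℕ) : 0 ≤ rsum Q Y := sum_nonneg (fun m _ => by positivity)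

lemma rsum_dvd {Q Y p : ℕ} (hQ : 0 < Q) (hp : p.Prime) (hpQ : ¬ p ∣ Q) :
    ∑ m ∈ (rset Q Y).filter (fun m => p ∣ m), (1 : ℝ) / m ≤ 1 / p * rsum Q Y := by
  set φ : ℕ → ℕ := fun m => Q * ((m / p - 1) / Q) + 1 with hφ
  have hp0 : 0 < p := hp.pos
  have hmem : ∀ m ∈ (rset Q Y).filter (fun m => p ∣ m), φ m ∈ rset Q Y ∧ φ m ≤ m / p ∧ 1 ≤ m / p := by
    intro m hm
    rw [mem_filter, mem_rset] at hm
    obtain ⟨⟨⟨h1, h2⟩, h3⟩, h4⟩ := hm
    have h5 : 1 ≤ m / p := Nat.div_pos (Nat.le_of_dvd h1 h4) hp0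
    have h6 : Q * ((m / p - 1) / Q) ≤ m / p - 1 := Nat.mul_div_le _ _
    have h7 : m / p ≤ m := Nat.div_le_self _ _
    refine ⟨?_, ?_, h5⟩
    · rw [mem_rset]
      refine ⟨⟨by simp [hφ], by simp only [hφ]; omega⟩, ?_⟩
      have : Q * ((m / p - 1) / Q) + 1 ≡ 0 + 1 [MOD Q] := by
        apply Nat.ModEq.add_right
        rw [Nat.modEq_zero_iff_dvd]
        exact Dvd.intro _ rfl
      rw [zero_add] at this
      exact this
    · simp only [hφ]; omega
  have hinj : Set.InjOn φ ((rset Q Y).filter (fun m => p ∣ m) : Finset ℕ) := by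
    intro m hm m' hm' h
    have h5 := (hmem m hm).2.2
    have h5' := (hmem m' hm').2.2
    rw [mem_coe, mem_filter, mem_rset] at hm hm'
    obtain ⟨⟨⟨h1, h2⟩, h3⟩, h4⟩ := hm
    obtain ⟨⟨⟨h1', h2'⟩, h3'⟩, h4'⟩ := hm'
    have e1 : m = p * (m / p) := (Nat.mul_div_cancel' h4).symm
    have e2 : m' = p * (m' / p) := (Nat.mul_div_cancel' h4').symm
    have h6 : p * (m / p) ≡ p * (m' / p) [MOD Q] := by
      rw [← e1, ← e2]; exact h3.trans h3'.symm
    have h7 : m / p ≡ m' / p [MOD Q] :=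
      Nat.ModEq.cancel_left_of_coprime ((Nat.Prime.coprime_iff_not_dvd hp).2 hpQ).symm h6
    have h8 : (m / p - 1) ≡ (m' / p - 1) [MOD Q] := by
      have h9 : (m / p - 1) + 1 ≡ (m' / p - 1) + 1 [MOD Q] := by
        rw [Nat.sub_add_cancel h5, Nat.sub_add_cancel h5']; exact h7
      exact Nat.ModEq.add_right_cancel' 1 h9
    simp only [hφ] at h
    have h9 : Q * ((m / p - 1) / Q) = Q * ((m' / p - 1) / Q) := by omega
    have h10 : (m / p - 1) = (m' / p - 1) := by
      rw [← Nat.div_add_mod (m / p - 1) Q, ← Nat.div_add_mod (m' / p - 1) Q, h9, h8]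
    have h11 : m / p = m' / p := by omega
    rw [e1, e2, h11]
  calc ∑ m ∈ (rset Q Y).filter (fun m => p ∣ m), (1 : ℝ) / m
      ≤ ∑ m ∈ (rset Q Y).filter (fun m => p ∣ m), 1 / p * ((1 : ℝ) / (φ m : ℕ)) := by
        apply sum_le_sum
        intro m hm
        obtain ⟨h1, h2, h3⟩ := hmem m hm
        rw [mem_filter] at hm
        have e1 : (m : ℝ) = p * (m / p : ℕ) := by
          exact_mod_cast (Nat.mul_div_cancel' hm.2).symm
        have h4 : (0 : ℝ) < (φ m : ℕ) := by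
          have : 0 < φ m := by simp [hφ]
          exact_mod_cast this
        have h5 : ((φ m : ℕ) : ℝ) ≤ (m / p : ℕ) := by exact_mod_cast h2
        have hp0' : (0 : ℝ) < p := by exact_mod_cast hp0
        rw [e1, one_div_mul_one_div]
        apply one_div_le_one_div_of_le (by positivity)
        exact mul_le_mul_of_nonneg_left h5 hp0'.le
    _ = 1 / p * ∑ m ∈ (rset Q Y).filter (fun m => p ∣ m), ((1 : ℝ) / (φ m : ℕ)) := by rw [mul_sum]
    _ = 1 / p * ∑ x ∈ ((rset Q Y).filter (fun m => p ∣ m)).image φ, ((1 : ℝ) / x) := by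
        rw [sum_image hinj]
    _ ≤ 1 / p * rsum Q Y := by
        apply mul_le_mul_of_nonneg_left _ (by positivity)
        apply sum_le_sum_of_subset_of_nonneg
        · intro x hx
          rw [mem_image] at hx
          obtain ⟨m, hm, rfl⟩ := hx
          exact (hmem m hm).1
        · intro i _ _; positivity

lemma rsum_psum {Q Y P : ℕ} (hQ : 0 < Q) (hP : ∀ p : ℕ, p.Prime → p ≤ P → p ∣ Q) (hP0 : 0 < P) :
    ∑ m ∈ rset Q Y, psum m * (1 / m) ≤ rsum Q Y / P := by
  set D := (primesBelow (Y + 1)).filter (fun p => ¬ p ∣ Q) with hD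
  have h1 : ∀ m ∈ rset Q Y, psum m * (1 / m) = ∑ p ∈ D, if p ∣ m then (1 : ℝ) / p * (1 / m) else 0 := by
    intro m hm
    rw [mem_rset] at hm
    rw [psum, sum_mul, ← sum_filter]
    apply sum_congr _ (fun _ _ => rfl)
    ext p
    simp only [hD, mem_filter, mem_primesBelow, Nat.mem_primeFactors]
    constructor
    · rintro ⟨hp, hpm, hm0⟩
      refine ⟨⟨⟨?_, hp⟩, ?_⟩, hpm⟩
      · have := Nat.le_of_dvd (by omega) hpm
        omega
      · intro hpQ
        exact not_dvd_of_modEq_one hp hpQ hm.2 hpm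
    · rintro ⟨⟨⟨_, hp⟩, _⟩, hpm⟩
      exact ⟨hp, hpm, by omega⟩
  rw [sum_congr rfl h1, sum_comm]
  have h2 : ∀ p ∈ D, ∑ m ∈ rset Q Y, (if p ∣ m then (1 : ℝ) / p * (1 / m) else 0) ≤
      ((p : ℝ) ^ 2)⁻¹ * rsum Q Y := by
    intro p hp
    rw [hD, mem_filter, mem_primesBelow] at hp
    rw [← sum_filter, ← mul_sum]
    have h3 := rsum_dvd (Y := Y) hQ hp.1.2 hp.2
    calc (1 : ℝ) / p * ∑ m ∈ (rset Q Y).filter (fun m => p ∣ m), (1 : ℝ) / m
        ≤ 1 / p * (1 / p * rsum Q Y) := mul_le_mul_of_nonneg_left h3 (by positivity)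
      _ = ((p : ℝ) ^ 2)⁻¹ * rsum Q Y := by
        rw [← mul_assoc, one_div_mul_one_div, ← pow_two, one_div]
  refine (sum_le_sum h2).trans ?_
  rw [← sum_mul]
  have h6 : ∑ p ∈ D, ((p : ℝ) ^ 2)⁻¹ ≤ (P : ℝ)⁻¹ := by
    rcases le_or_gt P Y with h | h
    · have h7 := sum_Ioc_inv_sq_le_sub (α := ℝ) (k := P) (n := Y) hP0.ne' h
      have h8 : (0 : ℝ) ≤ ((Y : ℕ) : ℝ)⁻¹ := by positivity
      have h9 : ∑ p ∈ D, ((p : ℝ) ^ 2)⁻¹ ≤ ∑ i ∈ Ioc P Y, ((i : ℝ) ^ 2)⁻¹ := by
        apply sum_le_sum_of_subset_of_nonneg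
        · intro p hp
          rw [hD, mem_filter, mem_primesBelow] at hp
          rw [mem_Ioc]
          refine ⟨?_, by omega⟩
          by_contra hcon
          exact hp.2 (hP p hp.1.2 (not_lt.1 hcon))
        · intro i _ _; positivity
      linarith
    · have : D = ∅ := by
        ext p
        simp only [hD, mem_filter, mem_primesBelow, notMem_empty, iff_false]
        rintro ⟨⟨h1, h2⟩, h3⟩
        exact h3 (hP p h2 (by omega))
      rw [this]
      simp
  calc (∑ p ∈ D, ((p : ℝ) ^ 2)⁻¹) * rsum Q Y ≤ (P : ℝ)⁻¹ * rsum Q Y :=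
        mul_le_mul_of_nonneg_right h6 (rsum_nonneg _ _)
    _ = rsum Q Y / P := by rw [mul_comm, div_eq_mul_inv]

/-- the admissible next members -/
noncomputable def next (Q Y U : ℕ) : Finset ℕ :=
  (rset Q Y).filter (fun m => psum m ≤ 1 / 100 ∧ Nat.Coprime m U)

lemma next_sum {Q Y P U : ℕ} (hQ : 0 < Q) (hP : ∀ p : ℕ, p.Prime → p ≤ P → p ∣ Q) (hP0 : 1000 ≤ P)
    (hU : 0 < U) (hUs : psum U ≤ 3 / 100) :
    87 / 100 * rsum Q Y ≤ ∑ m ∈ next Q Y U, (1 : ℝ) / m := by
  have hR := rsum_nonneg Q Y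
  -- bad by psum
  have b1 : ∑ m ∈ (rset Q Y).filter (fun m => 1 / 100 < psum m), (1 : ℝ) / m ≤ rsum Q Y / 10 := by
    have h1 := rsum_psum (Y := Y) hQ hP (by omega)
    have h2 : ∑ m ∈ (rset Q Y).filter (fun m => 1 / 100 < psum m), (1 : ℝ) / m ≤
        100 * ∑ m ∈ rset Q Y, psum m * (1 / m) := by
      rw [mul_sum]
      refine le_trans ?_ (sum_le_sum_of_subset_of_nonneg (filter_subset (fun m => 1 / 100 < psum m) _) ?_)
      · apply sum_le_sum
        intro m hm
        rw [mem_filter] at hm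
        have h3 : (0 : ℝ) ≤ 1 / m := by positivity
        nlinarith [hm.2]
      · intro m _ _
        have : 0 ≤ psum m := sum_nonneg (fun p _ => by positivity)
        positivity
    have h3 : rsum Q Y / P ≤ rsum Q Y / 1000 :=
      div_le_div_of_nonneg_left hR (by norm_num) (by exact_mod_cast hP0)
    linarith
  -- bad by coprimality
  have b2 : ∑ m ∈ (rset Q Y).filter (fun m => ¬ Nat.Coprime m U), (1 : ℝ) / m ≤ 3 / 100 * rsum Q Y := by
    have h1 : (rset Q Y).filter (fun m => ¬ Nat.Coprime m U) ⊆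
        (U.primeFactors.filter (fun p => ¬ p ∣ Q)).biUnion (fun p => (rset Q Y).filter (fun m => p ∣ m)) := by
      intro m hm
      rw [mem_filter] at hm
      obtain ⟨h2, h3⟩ := hm
      obtain ⟨p, hp, h4, h5⟩ := Nat.Prime.not_coprime_iff_dvd.1 h3
      rw [mem_biUnion]
      refine ⟨p, ?_, mem_filter.2 ⟨h2, h4⟩⟩
      rw [mem_filter]
      refine ⟨Nat.mem_primeFactors.2 ⟨hp, h5, hU.ne'⟩, ?_⟩
      intro hpQ
      exact not_dvd_of_modEq_one hp hpQ (mem_rset.1 h2).2 h4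
    have h2 : ∑ m ∈ (rset Q Y).filter (fun m => ¬ Nat.Coprime m U), (1 : ℝ) / m ≤
        ∑ p ∈ U.primeFactors.filter (fun p => ¬ p ∣ Q), ∑ m ∈ (rset Q Y).filter (fun m => p ∣ m), (1 : ℝ) / m := by
      refine (sum_le_sum_of_subset_of_nonneg h1 (fun i _ _ => by positivity)).trans ?_
      exact sum_biUnion_le' _ _ _ (fun i => by positivity)
    refine h2.trans ?_
    have h3 : ∑ p ∈ U.primeFactors.filter (fun p => ¬ p ∣ Q),
        ∑ m ∈ (rset Q Y).filter (fun m => p ∣ m), (1 : ℝ) / m ≤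
        ∑ p ∈ U.primeFactors.filter (fun p => ¬ p ∣ Q), 1 / p * rsum Q Y := by
      apply sum_le_sum
      intro p hp
      rw [mem_filter] at hp
      exact rsum_dvd hQ (Nat.prime_of_mem_primeFactors hp.1) hp.2
    refine h3.trans ?_
    rw [← sum_mul]
    apply mul_le_mul_of_nonneg_right _ hR
    refine le_trans ?_ hUs
    rw [psum]
    apply sum_le_sum_of_subset_of_nonneg (filter_subset _ _)
    intro i _ _; positivity
  have hsub : rset Q Y ⊆ next Q Y U ∪ ((rset Q Y).filter (fun m => 1 / 100 < psum m) ∪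
      (rset Q Y).filter (fun m => ¬ Nat.Coprime m U)) := by
    intro m hm
    simp only [next, mem_union, mem_filter, hm, true_and]
    by_contra hcon
    push Not at hcon
    exact absurd (hcon.1 hcon.2.1) (by simp [hcon.2.2])
  have h1 : rsum Q Y ≤ ∑ m ∈ next Q Y U, (1 : ℝ) / m +
      (∑ m ∈ (rset Q Y).filter (fun m => 1 / 100 < psum m), (1 : ℝ) / m +
      ∑ m ∈ (rset Q Y).filter (fun m => ¬ Nat.Coprime m U), (1 : ℝ) / m) := by
    have hpos : ∀ i : ℕ, (0 : ℝ) ≤ 1 / i := fun i => by positivity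
    have un : ∀ A B : Finset ℕ, ∑ m ∈ A ∪ B, (1 : ℝ) / m ≤ ∑ m ∈ A, (1 : ℝ) / m + ∑ m ∈ B, (1 : ℝ) / m := by
      intro A B
      rw [← sum_union_inter]
      have : 0 ≤ ∑ m ∈ A ∩ B, (1 : ℝ) / m := sum_nonneg (fun i _ => hpos i)
      linarith
    rw [rsum]
    refine (sum_le_sum_of_subset_of_nonneg hsub (fun i _ _ => hpos i)).trans ?_
    refine (un _ _).trans ?_
    have := un ((rset Q Y).filter (fun m => 1 / 100 < psum m)) ((rset Q Y).filter (fun m => ¬ Nat.Coprime m U))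
    linarith
  linarith

lemma rsum_ge {Q Y : ℕ} (hQ : 0 < Q) (hY : 0 < Y) : Real.log (Y / Q) / Q ≤ rsum Q Y := by
  have hQr : (0 : ℝ) < Q := by exact_mod_cast hQ
  have h1 : ∑ j ∈ range (Y / Q), (1 : ℝ) / (Q * (j + 1)) ≤ rsum Q Y := by
    calc ∑ j ∈ range (Y / Q), (1 : ℝ) / (Q * (j + 1))
        ≤ ∑ j ∈ range (Y / Q), (1 : ℝ) / ((Q * j + 1 : ℕ) : ℝ) := by
          apply sum_le_sum
          intro j _
          apply one_div_le_one_div_of_le
          · positivity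
          · push_cast
            have : (1 : ℝ) ≤ Q := by exact_mod_cast hQ
            linarith
      _ = ∑ x ∈ (range (Y / Q)).image (fun j => Q * j + 1), (1 : ℝ) / x := by
          rw [sum_image]
          intro a _ b _ h
          simp only at h
          have : Q * a = Q * b := by omega
          exact Nat.eq_of_mul_eq_mul_left hQ this
      _ ≤ rsum Q Y := by
          apply sum_le_sum_of_subset_of_nonneg
          · intro x hx
            rw [mem_image] at hx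
            obtain ⟨j, hj, rfl⟩ := hx
            rw [mem_range] at hj
            rw [mem_rset]
            refine ⟨⟨by omega, ?_⟩, ?_⟩
            · have h2 : Q * (j + 1) ≤ Q * (Y / Q) := Nat.mul_le_mul_left _ hj
              have h3 : Q * (Y / Q) ≤ Y := Nat.mul_div_le _ _
              have h4 : Q * (j + 1) = Q * j + Q := by ring
              omega
            · have : Q * j + 1 ≡ 0 + 1 [MOD Q] := by
                apply Nat.ModEq.add_right
                rw [Nat.modEq_zero_iff_dvd]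
                exact Dvd.intro _ rfl
              rw [zero_add] at this
              exact this
          · intro i _ _; positivity
  refine le_trans ?_ h1
  have h2 : ∑ j ∈ range (Y / Q), (1 : ℝ) / (Q * (j + 1)) = (harmonic (Y / Q) : ℝ) / Q := by
    rw [harmonic]
    push_cast
    rw [sum_div]
    apply sum_congr rfl
    intro j _
    have : (j : ℝ) + 1 ≠ 0 := by positivity
    field_simp
  rw [h2]
  apply div_le_div_of_nonneg_right _ hQr.le
  refine le_trans ?_ (log_add_one_le_harmonic (Y / Q))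
  apply Real.log_le_log
  · positivity
  · rw [div_le_iff₀ hQr]
    have h7 : Y < (Y / Q + 1) * Q := by
      rw [add_mul, one_mul]; exact Nat.lt_div_mul_add hQ
    exact_mod_cast h7.le

/-- the admissible quadruples -/
noncomputable def quads (Q Y : ℕ) : Finset (ℕ × ℕ × ℕ × ℕ) :=
  ((rset Q Y) ×ˢ ((rset Q Y) ×ˢ ((rset Q Y) ×ˢ (rset Q Y)))).filter
    (fun q => Nice Q Y q.1 q.2.1 q.2.2.1 q.2.2.2)

lemma quads_sum {Q Y P : ℕ} (hQ : 0 < Q) (hP : ∀ p : ℕ, p.Prime → p ≤ P → p ∣ Q) (hP0 : 1000 ≤ P) :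
    (1 / 2) * rsum Q Y ^ 4 ≤ ∑ q ∈ quads Q Y, (1 : ℝ) / (q.1 * q.2.1 * q.2.2.1 * q.2.2.2) := by
  have hR := rsum_nonneg Q Y
  set W : ℕ → ℕ → ℕ → ℕ → ℝ := fun u v w z => if Nice Q Y u v w z then (1 : ℝ) / (u * v * w * z) else 0
    with hW
  have hW0 : ∀ u v w z, 0 ≤ W u v w z := by
    intro u v w z
    simp only [hW]
    split_ifs
    · positivity
    · exact le_rfl
  have hns : ∀ U, next Q Y U ⊆ rset Q Y := fun U => filter_subset _ _
  have e0 : ∑ q ∈ quads Q Y, (1 : ℝ) / (q.1 * q.2.1 * q.2.2.1 * q.2.2.2) =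
      ∑ u ∈ rset Q Y, ∑ v ∈ rset Q Y, ∑ w ∈ rset Q Y, ∑ z ∈ rset Q Y, W u v w z := by
    rw [quads, sum_filter, sum_product]
    apply sum_congr rfl; intro u _
    rw [sum_product]
    apply sum_congr rfl; intro v _
    rw [sum_product]
  have e1 : ∑ u ∈ next Q Y 1, ∑ v ∈ next Q Y u, ∑ w ∈ next Q Y (u * v), ∑ z ∈ next Q Y (u * v * w),
      W u v w z ≤ ∑ q ∈ quads Q Y, (1 : ℝ) / (q.1 * q.2.1 * q.2.2.1 * q.2.2.2) := by
    rw [e0]
    refine (sum_le_sum_of_subset_of_nonneg (hns _) (fun u _ _ =>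
      sum_nonneg (fun v _ => sum_nonneg (fun w _ => sum_nonneg (fun z _ => hW0 u v w z))))).trans ?_
    apply sum_le_sum; intro u _
    refine (sum_le_sum_of_subset_of_nonneg (hns _) (fun v _ _ =>
      sum_nonneg (fun w _ => sum_nonneg (fun z _ => hW0 u v w z)))).trans ?_
    apply sum_le_sum; intro v _
    refine (sum_le_sum_of_subset_of_nonneg (hns _) (fun w _ _ =>
      sum_nonneg (fun z _ => hW0 u v w z))).trans ?_
    apply sum_le_sum; intro w _
    exact sum_le_sum_of_subset_of_nonneg (hns _) (fun z _ _ => hW0 u v w z)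
  refine le_trans ?_ e1
  have mem : ∀ {U m : ℕ}, m ∈ next Q Y U → 0 < m ∧ m ≤ Y ∧ m ≡ 1 [MOD Q] ∧ psum m ≤ 1 / 100 ∧
      Nat.Coprime m U := by
    intro U m hm
    rw [next, mem_filter, mem_rset] at hm
    exact ⟨hm.1.1.1, hm.1.1.2, hm.1.2, hm.2.1, hm.2.2⟩
  set c : ℝ := 87 / 100 * rsum Q Y with hc
  have hc0 : 0 ≤ c := by positivity
  have s4 : ∀ u ∈ next Q Y 1, ∀ v ∈ next Q Y u, ∀ w ∈ next Q Y (u * v),
      (1 : ℝ) / u * (1 / v) * (1 / w) * c ≤ ∑ z ∈ next Q Y (u * v * w), W u v w z := by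
    intro u hu v hv w hw
    obtain ⟨u0, u1, u2, u3, u4⟩ := mem hu
    obtain ⟨v0, v1, v2, v3, v4⟩ := mem hv
    obtain ⟨w0, w1, w2, w3, w4⟩ := mem hw
    have h1 : psum (u * v * w) ≤ 3 / 100 := by
      have h2 := psum_mul_le (m := u * v) (n := w) (by positivity) (by positivity)
      have h3 := psum_mul_le (m := u) (n := v) (by positivity) (by positivity)
      linarith
    have h2 := next_sum (Y := Y) hQ hP hP0 (U := u * v * w) (by positivity) h1
    have h3 : ∑ z ∈ next Q Y (u * v * w), W u v w z =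
        (1 : ℝ) / u * (1 / v) * (1 / w) * ∑ z ∈ next Q Y (u * v * w), (1 : ℝ) / z := by
      rw [mul_sum]
      apply sum_congr rfl
      intro z hz
      obtain ⟨z0, z1, z2, z3, z4⟩ := mem hz
      have hnice : Nice Q Y u v w z := by
        have c1 : Nat.Coprime v u := v4
        have c2 : Nat.Coprime w u := Nat.Coprime.coprime_dvd_right (Dvd.intro _ rfl) w4
        have c3 : Nat.Coprime w v := Nat.Coprime.coprime_dvd_right (Dvd.intro_left _ rfl) w4
        have c4 : Nat.Coprime z u :=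
          Nat.Coprime.coprime_dvd_right ⟨v * w, by ring⟩ z4
        have c5 : Nat.Coprime z v :=
          Nat.Coprime.coprime_dvd_right ⟨u * w, by ring⟩ z4
        have c6 : Nat.Coprime z w :=
          Nat.Coprime.coprime_dvd_right ⟨u * v, by ring⟩ z4
        exact ⟨u2, v2, w2, z2, u0, v0, w0, z0, u1, v1, w1, z1, c1.symm, c2.symm, c4.symm, c3.symm, c5.symm,
          c6.symm, u3, v3, w3, z3⟩
      simp only [hW, if_pos hnice]
      rw [one_div_mul_one_div, one_div_mul_one_div, one_div_mul_one_div]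
    rw [h3]
    exact mul_le_mul_of_nonneg_left h2 (by positivity)
  have s3 : ∀ u ∈ next Q Y 1, ∀ v ∈ next Q Y u, (1 : ℝ) / u * (1 / v) * c ^ 2 ≤
      ∑ w ∈ next Q Y (u * v), ∑ z ∈ next Q Y (u * v * w), W u v w z := by
    intro u hu v hv
    obtain ⟨u0, u1, u2, u3, u4⟩ := mem hu
    obtain ⟨v0, v1, v2, v3, v4⟩ := mem hv
    have h1 : psum (u * v) ≤ 3 / 100 := by
      have h3 := psum_mul_le (m := u) (n := v) (by positivity) (by positivity)
      linarith
    have h2 := next_sum (Y := Y) hQ hP hP0 (U := u * v) (by positivity) h1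
    calc (1 : ℝ) / u * (1 / v) * c ^ 2 = (1 : ℝ) / u * (1 / v) * c * c := by ring
      _ ≤ (1 : ℝ) / u * (1 / v) * c * ∑ w ∈ next Q Y (u * v), (1 : ℝ) / w :=
          mul_le_mul_of_nonneg_left h2 (by positivity)
      _ = ∑ w ∈ next Q Y (u * v), (1 : ℝ) / u * (1 / v) * (1 / w) * c := by
          rw [mul_sum]; apply sum_congr rfl; intro w _; ring
      _ ≤ _ := sum_le_sum (fun w hw => s4 u hu v hv w hw)
  have s2 : ∀ u ∈ next Q Y 1, (1 : ℝ) / u * c ^ 3 ≤
      ∑ v ∈ next Q Y u, ∑ w ∈ next Q Y (u * v), ∑ z ∈ next Q Y (u * v * w), W u v w z := by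
    intro u hu
    obtain ⟨u0, u1, u2, u3, u4⟩ := mem hu
    have h2 := next_sum (Y := Y) hQ hP hP0 (U := u) u0 (by linarith)
    calc (1 : ℝ) / u * c ^ 3 = (1 : ℝ) / u * c ^ 2 * c := by ring
      _ ≤ (1 : ℝ) / u * c ^ 2 * ∑ v ∈ next Q Y u, (1 : ℝ) / v :=
          mul_le_mul_of_nonneg_left h2 (by positivity)
      _ = ∑ v ∈ next Q Y u, (1 : ℝ) / u * (1 / v) * c ^ 2 := by
          rw [mul_sum]; apply sum_congr rfl; intro w _; ring
      _ ≤ _ := sum_le_sum (fun v hv => s3 u hu v hv)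
  have s1 : c ^ 4 ≤ ∑ u ∈ next Q Y 1, ∑ v ∈ next Q Y u, ∑ w ∈ next Q Y (u * v),
      ∑ z ∈ next Q Y (u * v * w), W u v w z := by
    have h2 := next_sum (Y := Y) hQ hP hP0 (U := 1) one_pos (by simp [psum]; norm_num)
    calc c ^ 4 = c ^ 3 * c := by ring
      _ ≤ c ^ 3 * ∑ u ∈ next Q Y 1, (1 : ℝ) / u := mul_le_mul_of_nonneg_left h2 (by positivity)
      _ = ∑ u ∈ next Q Y 1, (1 : ℝ) / u * c ^ 3 := by
          rw [mul_sum]; apply sum_congr rfl; intro w _; ring
      _ ≤ _ := sum_le_sum (fun u hu => s2 u hu)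
  refine le_trans ?_ s1
  rw [hc, mul_pow]
  apply mul_le_mul_of_nonneg_right _ (by positivity)
  norm_num

end Pool.Agent.H14.CN
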