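import Pool.Agent.H14.CN.Decomp

set_option autoImplicit false

/-!
# The upper bound
-/

namespace Pool.Agent.H14.CN

open Finset
open scoped Classical

lemma sum_inv_sqrt_le (n : ℕ) : ∑ j ∈ Icc 1 n, 1 / Real.sqrt j ≤ 2 * Real.sqrt n := by
  induction n with
  | zero => simp
  | succ n ih =>
    rw [sum_Icc_succ_top (by omega)]
    have h1 : 0 ≤ Real.sqrt n := Real.sqrt_nonneg _
    have h2 : 0 < Real.sqrt ((n + 1 : ℕ) : ℝ) := Real.sqrt_pos.2 (by positivity)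
    have h3 : Real.sqrt ((n + 1 : ℕ) : ℝ) ^ 2 = (n : ℝ) + 1 := by
      rw [Real.sq_sqrt (by positivity)]; push_cast; ring
    have h4 : Real.sqrt (n : ℝ) ^ 2 = n := Real.sq_sqrt (by positivity)
    have h5 : 1 / Real.sqrt ((n + 1 : ℕ) : ℝ) ≤ 2 * Real.sqrt ((n + 1 : ℕ) : ℝ) - 2 * Real.sqrt n := by
      rw [div_le_iff₀ h2]
      nlinarith [sq_nonneg (Real.sqrt ((n + 1 : ℕ) : ℝ) - Real.sqrt n)]
    linarith

lemma count_aux {G : ℝ} (hG : 0 < G) {m d : ℕ} (hm : 0 < m) (hd : 0 < d) (T : Finset (ℕ × ℕ))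
    (h1 : ∀ p ∈ T, 0 < p.2 ∧ d ^ 2 ∣ p.2 ∧ 2 * p.2 ≤ p.1 ∧ (p.1 : ℝ) ^ 3 * p.2 ≤ G ^ 4)
    (h2 : ∀ p ∈ T, ∀ p' ∈ T, p.2 = p'.2 → p.1 ≡ p'.1 [MOD m ^ 2]) :
    (T.card : ℝ) ≤ 2 * G ^ 2 / ((d : ℝ) * m) ^ 2 + 2 * G := by
  have hmr : (1 : ℝ) ≤ m := by exact_mod_cast hm
  have hdr : (1 : ℝ) ≤ d := by exact_mod_cast hd
  set B := ⌊G / (d : ℝ) ^ 2⌋₊ with hB
  have hBG : (B : ℝ) ≤ G / (d : ℝ) ^ 2 := Nat.floor_le (by positivity)
  -- bounds
  have hb : ∀ p ∈ T, (p.2 : ℝ) ≤ G := by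
    intro p hp
    obtain ⟨q1, q2, q3, q4⟩ := h1 p hp
    have e1 : (2 : ℝ) * p.2 ≤ p.1 := by exact_mod_cast q3
    have e2 : (0 : ℝ) < p.2 := by exact_mod_cast q1
    have e3 : (p.2 : ℝ) ^ 4 ≤ G ^ 4 := by
      refine le_trans ?_ q4
      calc (p.2 : ℝ) ^ 4 = (p.2 : ℝ) ^ 3 * p.2 := by ring
        _ ≤ (p.1 : ℝ) ^ 3 * p.2 := by
          gcongr
          linarith
    exact (pow_le_pow_iff_left₀ (by positivity) hG.le (by norm_num)).1 e3
  have ha : ∀ p ∈ T, (p.1 : ℝ) ^ 2 * p.2 ≤ G ^ 3 := by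
    intro p hp
    obtain ⟨q1, q2, q3, q4⟩ := h1 p hp
    have e1 := hb p hp
    have e2 : ((p.1 : ℝ) ^ 2 * p.2) ^ 3 ≤ (G ^ 3) ^ 3 := by
      calc ((p.1 : ℝ) ^ 2 * p.2) ^ 3 = ((p.1 : ℝ) ^ 3 * p.2) ^ 2 * p.2 := by ring
        _ ≤ (G ^ 4) ^ 2 * G := by gcongr
        _ = (G ^ 3) ^ 3 := by ring
    exact (pow_le_pow_iff_left₀ (by positivity) (by positivity) (by norm_num)).1 e2
  have hmaps : ∀ p ∈ T, p.2 / d ^ 2 ∈ Icc 1 B := by
    intro p hp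
    obtain ⟨q1, q2, q3, q4⟩ := h1 p hp
    rw [mem_Icc]
    refine ⟨Nat.div_pos (Nat.le_of_dvd q1 q2) (by positivity), ?_⟩
    apply Nat.le_floor
    rw [le_div_iff₀ (by positivity)]
    refine le_trans ?_ (hb p hp)
    have : p.2 / d ^ 2 * d ^ 2 ≤ p.2 := Nat.div_mul_le_self _ _
    exact_mod_cast this
  have hcard : (T.card : ℝ) = ∑ j ∈ Icc 1 B, ((T.filter (fun p => p.2 / d ^ 2 = j)).card : ℝ) := by
    rw [card_eq_sum_card_fiberwise hmaps]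
    push_cast
    rfl
  have hfib : ∀ j ∈ Icc 1 B, ((T.filter (fun p => p.2 / d ^ 2 = j)).card : ℝ) ≤
      (G * Real.sqrt G / (d * (m : ℝ) ^ 2)) * (1 / Real.sqrt j) + 2 := by
    intro j hj
    rw [mem_Icc] at hj
    have hjr : (1 : ℝ) ≤ j := by exact_mod_cast hj.1
    set F := T.filter (fun p => p.2 / d ^ 2 = j) with hF
    have hF2 : ∀ p ∈ F, p.2 = d ^ 2 * j := by
      intro p hp
      rw [hF, mem_filter] at hp
      obtain ⟨q1, q2, -⟩ := h1 p hp.1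
      rw [← hp.2]
      exact (Nat.mul_div_cancel' q2).symm
    set A := G * Real.sqrt G / (d * Real.sqrt j) with hA
    have hsj : 0 < Real.sqrt j := Real.sqrt_pos.2 (by linarith)
    have hsG : 0 < Real.sqrt G := Real.sqrt_pos.2 hG
    have hA0 : 0 < A := by positivity
    have hF1 : ∀ p ∈ F, (p.1 : ℝ) ≤ A := by
      intro p hp
      have e1 := hF2 p hp
      have e2 := ha p (mem_filter.1 hp).1
      rw [e1] at e2
      push_cast at e2
      have e3 : (p.1 : ℝ) ^ 2 ≤ A ^ 2 := by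
        rw [hA, div_pow, mul_pow, mul_pow, Real.sq_sqrt hG.le, Real.sq_sqrt (by linarith),
          le_div_iff₀ (by positivity)]
        calc (p.1 : ℝ) ^ 2 * ((d : ℝ) ^ 2 * j) ≤ G ^ 3 := e2
          _ = G ^ 2 * G := by ring
      exact (pow_le_pow_iff_left₀ (by positivity) hA0.le (by norm_num)).1 e3
    have hinj : Set.InjOn Prod.fst (F : Set (ℕ × ℕ)) := by
      intro p hp p' hp' h
      exact Prod.ext h ((hF2 p hp).trans (hF2 p' hp').symm)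
    have hc := card_le_of_modEq (L := ⌊A⌋₊ + 1) (m := m ^ 2) (F.image Prod.fst) (by
      intro t ht
      rw [mem_image] at ht
      obtain ⟨p, hp, rfl⟩ := ht
      have := Nat.le_floor (hF1 p hp)
      omega) (by
      intro t ht t' ht'
      rw [mem_image] at ht ht'
      obtain ⟨p, hp, rfl⟩ := ht
      obtain ⟨p', hp', rfl⟩ := ht'
      exact h2 p (mem_filter.1 hp).1 p' (mem_filter.1 hp').1 ((hF2 p hp).trans (hF2 p' hp').symm))
    rw [card_image_of_injOn hinj] at hc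
    have hc2 : (F.card : ℝ) ≤ (((⌊A⌋₊ + 1) / m ^ 2 : ℕ) : ℝ) + 1 := by exact_mod_cast hc
    have hc3 : (((⌊A⌋₊ + 1) / m ^ 2 : ℕ) : ℝ) ≤ ((⌊A⌋₊ + 1 : ℕ) : ℝ) / ((m ^ 2 : ℕ) : ℝ) := Nat.cast_div_le
    have hfl : (⌊A⌋₊ : ℝ) ≤ A := Nat.floor_le hA0.le
    have hm2 : (1 : ℝ) ≤ (m : ℝ) ^ 2 := one_le_pow₀ hmr
    have hc4 : ((⌊A⌋₊ + 1 : ℕ) : ℝ) / ((m ^ 2 : ℕ) : ℝ) ≤ A / (m : ℝ) ^ 2 + 1 := by
      push_cast
      rw [div_add_one (by positivity), div_le_div_iff_of_pos_right (by positivity)]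
      linarith
    have hc5 : A / (m : ℝ) ^ 2 = (G * Real.sqrt G / (d * (m : ℝ) ^ 2)) * (1 / Real.sqrt j) := by
      rw [hA]
      field_simp
    rw [← hc5]
    linarith
  rw [hcard]
  refine (sum_le_sum hfib).trans ?_
  rw [sum_add_distrib, ← mul_sum, sum_const, Nat.card_Icc, nsmul_eq_mul]
  have hs := sum_inv_sqrt_le B
  have hB1 : Real.sqrt B ≤ Real.sqrt G / d := by
    rw [← Real.sqrt_sq (show (0 : ℝ) ≤ d by linarith), ← Real.sqrt_div hG.le]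
    exact Real.sqrt_le_sqrt hBG
  have hB2 : (B : ℝ) ≤ G := by
    refine hBG.trans ?_
    rw [div_le_iff₀ (by positivity)]
    have : (1 : ℝ) ≤ (d : ℝ) ^ 2 := one_le_pow₀ hdr
    nlinarith
  have hC0 : 0 ≤ G * Real.sqrt G / (d * (m : ℝ) ^ 2) := by positivity
  have e1 : (G * Real.sqrt G / (d * (m : ℝ) ^ 2)) * ∑ j ∈ Icc 1 B, 1 / Real.sqrt j ≤
      (G * Real.sqrt G / (d * (m : ℝ) ^ 2)) * (2 * (Real.sqrt G / d)) := by
    apply mul_le_mul_of_nonneg_left _ hC0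
    linarith
  have e2 : (G * Real.sqrt G / (d * (m : ℝ) ^ 2)) * (2 * (Real.sqrt G / d)) = 2 * G ^ 2 / ((d : ℝ) * m) ^ 2 := by
    have : Real.sqrt G * Real.sqrt G = G := Real.mul_self_sqrt hG.le
    calc (G * Real.sqrt G / (d * (m : ℝ) ^ 2)) * (2 * (Real.sqrt G / d))
        = 2 * G * (Real.sqrt G * Real.sqrt G) / ((d : ℝ) * m) ^ 2 := by
          field_simp
      _ = _ := by rw [this]; ring
  rw [e2] at e1
  have e3 : ((B + 1 - 1 : ℕ) : ℝ) * 2 ≤ 2 * G := by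
    rw [Nat.add_sub_cancel]; linarith
  linarith

/-- the pairs for a quadruple -/
noncomputable def upairs (N u v w z : ℕ) : Finset (ℕ × ℕ) :=
  ((Icc 1 N) ×ˢ (Icc 1 N)).filter (fun p => p.2 < p.1 ∧ Nat.Coprime p.1 p.2 ∧ (p.1 + p.2) % 2 = 1 ∧
    u ^ 2 ∣ p.1 ∧ v ^ 2 ∣ p.2 ∧ w ^ 2 ∣ p.1 - p.2 ∧ z ^ 2 ∣ p.1 + p.2 ∧
    p.1 * p.2 * ((p.1 - p.2) * (p.1 + p.2)) ≤ N)

lemma modEq_of_dvd_all {x y z a b : ℕ} (hxy : Nat.Coprime x y) (hxz : Nat.Coprime x z)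
    (hyz : Nat.Coprime y z) (h1 : a ≡ b [MOD x ^ 2]) (h2 : a ≡ b [MOD y ^ 2]) (h3 : a ≡ b [MOD z ^ 2]) :
    a ≡ b [MOD (x * y * z) ^ 2] := by
  have h4 : a ≡ b [MOD x ^ 2 * y ^ 2] :=
    (Nat.modEq_and_modEq_iff_modEq_mul (Nat.Coprime.pow 2 2 hxy)).1 ⟨h1, h2⟩
  have h5 : a ≡ b [MOD x ^ 2 * y ^ 2 * z ^ 2] :=
    (Nat.modEq_and_modEq_iff_modEq_mul (Nat.Coprime.mul_left (Nat.Coprime.pow 2 2 hxz)
      (Nat.Coprime.pow 2 2 hyz))).1 ⟨h4, h3⟩
  rw [mul_pow, mul_pow]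
  exact h5

lemma card_upairs {X u v w z : ℕ} (hX : 0 < X) (hu : 0 < u) (hv : 0 < v) (hw : 0 < w) (hz : 0 < z) :
    ((upairs (X * (u * v * w * z) ^ 2) u v w z).card : ℝ) ≤
      4 * Real.sqrt (2 * X) * (1 / (u * v * w * z)) +
        4 * Real.sqrt (Real.sqrt (2 * X) * (u * v * w * z)) := by
  set s := u * v * w * z with hs
  have hs0 : 0 < s := by positivity
  have hsr : (0 : ℝ) < s := by exact_mod_cast hs0
  have hXr : (0 : ℝ) < X := by exact_mod_cast hX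
  set R := Real.sqrt (2 * X) with hR
  have hR0 : 0 < R := Real.sqrt_pos.2 (by positivity)
  set G := Real.sqrt (R * s) with hG
  have hG0 : 0 < G := Real.sqrt_pos.2 (by positivity)
  have hG2 : G ^ 2 = R * s := Real.sq_sqrt (by positivity)
  have hG4 : G ^ 4 = 2 * (X * (s : ℝ) ^ 2) := by
    calc G ^ 4 = (G ^ 2) ^ 2 := by ring
      _ = R ^ 2 * (s : ℝ) ^ 2 := by rw [hG2]; ring
      _ = 2 * (X * (s : ℝ) ^ 2) := by rw [hR, Real.sq_sqrt (by positivity)]; ring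
  set PP := upairs (X * s ^ 2) u v w z with hPP
  -- facts on members
  have facts : ∀ p ∈ PP, 0 < p.2 ∧ p.2 < p.1 ∧ Nat.Coprime p.1 p.2 ∧ (p.1 + p.2) % 2 = 1 ∧
      u ^ 2 ∣ p.1 ∧ v ^ 2 ∣ p.2 ∧ w ^ 2 ∣ p.1 - p.2 ∧ z ^ 2 ∣ p.1 + p.2 ∧
      (p.1 : ℝ) * p.2 * (((p.1 - p.2 : ℕ) : ℝ) * (p.1 + p.2)) ≤ X * (s : ℝ) ^ 2 := by
    intro p hp
    rw [hPP, upairs, mem_filter, mem_product, mem_Icc, mem_Icc] at hp
    obtain ⟨⟨-, q2⟩, q3, q4, q5, q6, q7, q8, q9, q10⟩ := hp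
    refine ⟨q2.1, q3, q4, q5, q6, q7, q8, q9, ?_⟩
    exact_mod_cast q10
  have hsplit : PP.card = (PP.filter (fun p => 2 * p.2 ≤ p.1)).card +
      (PP.filter (fun p => ¬ 2 * p.2 ≤ p.1)).card :=
    (card_filter_add_card_filter_not (fun p : ℕ × ℕ => 2 * p.2 ≤ p.1)).symm
  have hdiv : ∀ d m : ℕ, 0 < d → 0 < m → d * m = s → 2 * G ^ 2 / ((d : ℝ) * m) ^ 2 = 2 * R * (1 / s) := by
    intro d m hd hm hdm
    have : (d : ℝ) * m = s := by exact_mod_cast hdm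
    rw [this, hG2]
    field_simp
  -- coprimality of the four numbers
  have cops : ∀ p ∈ PP, Nat.Coprime u v ∧ Nat.Coprime u w ∧ Nat.Coprime u z ∧ Nat.Coprime v w ∧
      Nat.Coprime v z ∧ Nat.Coprime w z ∧ Nat.Coprime 2 z := by
    intro p hp
    obtain ⟨q1, q2, q3, q4, q5, q6, q7, q8, -⟩ := facts p hp
    have du : u ∣ p.1 := (dvd_pow_self u two_ne_zero).trans q5
    have dv : v ∣ p.2 := (dvd_pow_self v two_ne_zero).trans q6
    have dw : w ∣ p.1 - p.2 := (dvd_pow_self w two_ne_zero).trans q7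
    have dz : z ∣ p.1 + p.2 := (dvd_pow_self z two_ne_zero).trans q8
    have c1 : Nat.Coprime p.1 p.2 := q3
    have c2 : Nat.Coprime p.1 (p.1 - p.2) := (Nat.coprime_self_sub_right q2.le).2 q3
    have c3 : Nat.Coprime p.1 (p.1 + p.2) := by
      rw [Nat.coprime_self_add_right]; exact q3
    have c4 : Nat.Coprime p.2 (p.1 - p.2) := ((Nat.coprime_sub_self_left q2.le).2 q3).symm
    have c5 : Nat.Coprime p.2 (p.1 + p.2) := by
      rw [Nat.coprime_add_self_right]; exact q3.symm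
    have c6 : Nat.Coprime (p.1 - p.2) (p.1 + p.2) := by
      apply Nat.coprime_of_dvd
      intro r hr h1 h2
      have h3 : r ∣ (p.1 + p.2) + (p.1 - p.2) := dvd_add h2 h1
      have h4 : r ∣ (p.1 + p.2) - (p.1 - p.2) := Nat.dvd_sub h2 h1
      rw [show (p.1 + p.2) + (p.1 - p.2) = 2 * p.1 by omega] at h3
      rw [show (p.1 + p.2) - (p.1 - p.2) = 2 * p.2 by omega] at h4
      rcases (Nat.Prime.dvd_mul hr).1 h3 with h5 | h5
      · have h6 : r = 2 := (Nat.prime_dvd_prime_iff_eq hr Nat.prime_two).1 h5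
        rw [h6] at h2
        omega
      · rcases (Nat.Prime.dvd_mul hr).1 h4 with h6 | h6
        · have h6 : r = 2 := (Nat.prime_dvd_prime_iff_eq hr Nat.prime_two).1 h6
          rw [h6] at h2
          omega
        · exact Nat.not_coprime_of_dvd_of_dvd hr.one_lt h5 h6 q3
    have c7 : Nat.Coprime 2 (p.1 + p.2) := by
      rw [Nat.coprime_two_left, Nat.odd_iff]; exact q4
    have sub : ∀ {p q r t : ℕ}, p ∣ r → q ∣ t → Nat.Coprime r t → Nat.Coprime p q := fun h1 h2 h3 =>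
      Nat.Coprime.coprime_dvd_left h1 (Nat.Coprime.coprime_dvd_right h2 h3)
    exact ⟨sub du dv c1, sub du dw c2, sub du dz c3, sub dv dw c4, sub dv dz c5, sub dw dz c6,
      sub dvd_rfl dz c7⟩
  -- first case
  have case1 : ((PP.filter (fun p => 2 * p.2 ≤ p.1)).card : ℝ) ≤ 2 * R * (1 / s) + 2 * G := by
    rw [← hdiv v (u * w * z) hv (by positivity) (by rw [hs]; ring)]
    apply count_aux hG0 (by positivity) hv
    · intro p hp
      rw [mem_filter] at hp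
      obtain ⟨q1, q2, q3, q4, q5, q6, q7, q8, q9⟩ := facts p hp.1
      refine ⟨q1, q6, hp.2, ?_⟩
      rw [hG4]
      have e1 : (2 : ℝ) * p.2 ≤ p.1 := by exact_mod_cast hp.2
      have e2 : (0 : ℝ) < p.2 := by exact_mod_cast q1
      have e3 : (p.1 : ℝ) ≤ 2 * ((p.1 - p.2 : ℕ) : ℝ) := by
        rw [Nat.cast_sub q2.le]; linarith
      calc (p.1 : ℝ) ^ 3 * p.2 = (p.1 : ℝ) * p.2 * (p.1 * p.1) := by ring
        _ ≤ (p.1 : ℝ) * p.2 * ((2 * ((p.1 - p.2 : ℕ) : ℝ)) * (p.1 + p.2)) := by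
          gcongr
          linarith
        _ = 2 * ((p.1 : ℝ) * p.2 * (((p.1 - p.2 : ℕ) : ℝ) * (p.1 + p.2))) := by ring
        _ ≤ 2 * (X * (s : ℝ) ^ 2) := by gcongr
    · intro p hp p' hp' h
      rw [mem_filter] at hp hp'
      obtain ⟨q1, q2, q3, q4, q5, q6, q7, q8, q9⟩ := facts p hp.1
      obtain ⟨q1', q2', q3', q4', q5', q6', q7', q8', q9'⟩ := facts p' hp'.1
      obtain ⟨c1, c2, c3, c4, c5, c6, c7⟩ := cops p hp.1
      apply modEq_of_dvd_all c2 c3 c6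
      · exact ((Nat.modEq_zero_iff_dvd).2 q5).trans ((Nat.modEq_zero_iff_dvd).2 q5').symm
      · have h3 : p.2 ≡ p.1 [MOD w ^ 2] := (Nat.modEq_iff_dvd' q2.le).2 q7
        have h4 : p'.2 ≡ p'.1 [MOD w ^ 2] := (Nat.modEq_iff_dvd' q2'.le).2 q7'
        rw [h] at h3
        exact h3.symm.trans h4
      · have h3 : p.1 + p.2 ≡ p'.1 + p'.2 [MOD z ^ 2] :=
          ((Nat.modEq_zero_iff_dvd).2 q8).trans ((Nat.modEq_zero_iff_dvd).2 q8').symm
        rw [h] at h3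
        exact Nat.ModEq.add_right_cancel' _ h3
  -- second case
  have case2 : ((PP.filter (fun p => ¬ 2 * p.2 ≤ p.1)).card : ℝ) ≤ 2 * R * (1 / s) + 2 * G := by
    have hinj : Set.InjOn (fun p : ℕ × ℕ => (p.1, p.1 - p.2))
        ((PP.filter (fun p => ¬ 2 * p.2 ≤ p.1) : Finset (ℕ × ℕ)) : Set (ℕ × ℕ)) := by
      intro p hp p' hp' h
      rw [mem_coe, mem_filter] at hp hp'
      obtain ⟨q1, q2, -⟩ := facts p hp.1
      obtain ⟨q1', q2', -⟩ := facts p' hp'.1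
      simp only [Prod.mk.injEq] at h
      obtain ⟨h3, h4⟩ := h
      apply Prod.ext h3
      omega
    rw [← card_image_of_injOn hinj]
    rw [← hdiv w (u * v * z) hw (by positivity) (by rw [hs]; ring)]
    apply count_aux hG0 (by positivity) hw
    · intro p hp
      rw [mem_image] at hp
      obtain ⟨p', hp', rfl⟩ := hp
      rw [mem_filter] at hp'
      obtain ⟨q1, q2, q3, q4, q5, q6, q7, q8, q9⟩ := facts p' hp'.1
      have hp2 := hp'.2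
      refine ⟨by simp only; omega, q7, by simp only; omega, ?_⟩
      simp only
      rw [hG4]
      have e1 : (p'.1 : ℝ) ≤ 2 * p'.2 := by
        have : p'.1 ≤ 2 * p'.2 := by omega
        exact_mod_cast this
      calc (p'.1 : ℝ) ^ 3 * ((p'.1 - p'.2 : ℕ) : ℝ) = (p'.1 : ℝ) * p'.1 * (((p'.1 - p'.2 : ℕ) : ℝ) * p'.1) := by
            ring
        _ ≤ (p'.1 : ℝ) * (2 * p'.2) * (((p'.1 - p'.2 : ℕ) : ℝ) * (p'.1 + p'.2)) := by
          gcongr
          linarith [show (0 : ℝ) ≤ p'.2 by positivity]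
        _ = 2 * ((p'.1 : ℝ) * p'.2 * (((p'.1 - p'.2 : ℕ) : ℝ) * (p'.1 + p'.2))) := by ring
        _ ≤ 2 * (X * (s : ℝ) ^ 2) := by gcongr
    · intro p hp p' hp' h
      rw [mem_image] at hp hp'
      obtain ⟨r, hr, rfl⟩ := hp
      obtain ⟨r', hr', rfl⟩ := hp'
      rw [mem_filter] at hr hr'
      simp only at h ⊢
      obtain ⟨q1, q2, q3, q4, q5, q6, q7, q8, q9⟩ := facts r hr.1
      obtain ⟨q1', q2', q3', q4', q5', q6', q7', q8', q9'⟩ := facts r' hr'.1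
      obtain ⟨c1, c2, c3, c4, c5, c6, c7⟩ := cops r hr.1
      apply modEq_of_dvd_all c1 c3 c5
      · exact ((Nat.modEq_zero_iff_dvd).2 q5).trans ((Nat.modEq_zero_iff_dvd).2 q5').symm
      · have h3 : (r.1 - r.2) + r.2 ≡ (r.1 - r.2) + 0 [MOD v ^ 2] :=
          Nat.ModEq.add_left _ ((Nat.modEq_zero_iff_dvd).2 q6)
        have h4 : (r'.1 - r'.2) + r'.2 ≡ (r'.1 - r'.2) + 0 [MOD v ^ 2] :=
          Nat.ModEq.add_left _ ((Nat.modEq_zero_iff_dvd).2 q6')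
        rw [Nat.sub_add_cancel q2.le] at h3
        rw [Nat.sub_add_cancel q2'.le] at h4
        rw [h] at h3
        exact h3.trans h4.symm
      · have h3 : (r.1 + r.2) + (r.1 - r.2) ≡ 0 + (r.1 - r.2) [MOD z ^ 2] :=
          Nat.ModEq.add_right _ ((Nat.modEq_zero_iff_dvd).2 q8)
        have h4 : (r'.1 + r'.2) + (r'.1 - r'.2) ≡ 0 + (r'.1 - r'.2) [MOD z ^ 2] :=
          Nat.ModEq.add_right _ ((Nat.modEq_zero_iff_dvd).2 q8')
        rw [show (r.1 + r.2) + (r.1 - r.2) = 2 * r.1 by omega] at h3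
        rw [show (r'.1 + r'.2) + (r'.1 - r'.2) = 2 * r'.1 by omega] at h4
        rw [h] at h3
        have h5 : 2 * r.1 ≡ 2 * r'.1 [MOD z ^ 2] := h3.trans h4.symm
        exact Nat.ModEq.cancel_left_of_coprime (Nat.Coprime.pow_left 2 c7.symm) h5
  have hsr' : (s : ℝ) = u * v * w * z := by rw [hs]; push_cast; ring
  rw [← hsr', ← hG]
  have : (PP.card : ℝ) = ((PP.filter (fun p => 2 * p.2 ≤ p.1)).card : ℝ) +
      ((PP.filter (fun p => ¬ 2 * p.2 ≤ p.1)).card : ℝ) := by exact_mod_cast hsplit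
  rw [this]
  linarith

end Pool.Agent.H14.CN
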