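import Pool.Agent.H14.CN.Upper

set_option autoImplicit false

/-!
# The upper bound, final form
-/

namespace Pool.Agent.H14.CN

open Finset
open scoped Classical

/-- the quadruples with product at most `N` -/
def uquads (N : ℕ) : Finset (ℕ × ℕ × ℕ × ℕ) :=
  ((Icc 1 N) ×ˢ ((Icc 1 N) ×ˢ ((Icc 1 N) ×ˢ (Icc 1 N)))).filter
    (fun q => q.1 * q.2.1 * q.2.2.1 * q.2.2.2 ≤ N)

lemma uquads_sum (N : ℕ) : ∑ q ∈ uquads N, (1 : ℝ) / (q.1 * q.2.1 * q.2.2.1 * q.2.2.2) ≤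
    (1 + Real.log N) ^ 4 := by
  have h0 : ∑ m ∈ Icc 1 N, (1 : ℝ) / m ≤ 1 + Real.log N := by
    have h := harmonic_le_one_add_log N
    rw [harmonic_eq_sum_Icc] at h
    push_cast at h
    simp_rw [one_div]
    exact h
  have h1 : ∑ q ∈ (Icc 1 N) ×ˢ ((Icc 1 N) ×ˢ ((Icc 1 N) ×ˢ (Icc 1 N))),
      (1 : ℝ) / (q.1 * q.2.1 * q.2.2.1 * q.2.2.2) = (∑ m ∈ Icc 1 N, (1 : ℝ) / m) ^ 4 := by
    rw [sum_product]
    have : ∀ u ∈ Icc 1 N, ∑ q ∈ (Icc 1 N) ×ˢ ((Icc 1 N) ×ˢ (Icc 1 N)),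
        (1 : ℝ) / (u * q.1 * q.2.1 * q.2.2) = 1 / u * (∑ m ∈ Icc 1 N, (1 : ℝ) / m) ^ 3 := by
      intro u _
      rw [sum_product]
      have : ∀ v ∈ Icc 1 N, ∑ q ∈ (Icc 1 N) ×ˢ (Icc 1 N),
          (1 : ℝ) / (u * v * q.1 * q.2) = 1 / u * (1 / v * (∑ m ∈ Icc 1 N, (1 : ℝ) / m) ^ 2) := by
        intro v _
        rw [sum_product]
        have : ∀ w ∈ Icc 1 N, ∑ z ∈ Icc 1 N,
            (1 : ℝ) / (u * v * w * z) = 1 / u * (1 / v * (1 / w * ∑ m ∈ Icc 1 N, (1 : ℝ) / m)) := by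
          intro w _
          rw [mul_sum, mul_sum, mul_sum]
          apply sum_congr rfl
          intro z _
          rw [one_div_mul_one_div, one_div_mul_one_div, one_div_mul_one_div]
          congr 1
          ring
        rw [sum_congr rfl this, ← mul_sum, ← mul_sum, ← sum_mul]
        ring
      rw [sum_congr rfl this, ← mul_sum, ← sum_mul]
      ring
    rw [sum_congr rfl this, ← sum_mul]
    ring
  have h2 : ∑ q ∈ uquads N, (1 : ℝ) / (q.1 * q.2.1 * q.2.2.1 * q.2.2.2) ≤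
      ∑ q ∈ (Icc 1 N) ×ˢ ((Icc 1 N) ×ˢ ((Icc 1 N) ×ˢ (Icc 1 N))),
      (1 : ℝ) / (q.1 * q.2.1 * q.2.2.1 * q.2.2.2) := by
    apply sum_le_sum_of_subset_of_nonneg (filter_subset _ _)
    intro q _ _
    positivity
  refine h2.trans ?_
  rw [h1]
  exact pow_le_pow_left₀ (sum_nonneg (fun m _ => by positivity)) h0 4

/-- the upper bound -/
lemma upper_aux {X N : ℕ} (hX : 0 < X) (hN : N ^ 6 ≤ X) (hN0 : 0 < N) {S : ℝ} (hS : S < N + 1) :
    (((Icc 1 X).filter (fun n => Squarefree n ∧ Small S n)).card : ℝ) ≤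
      11 * Real.sqrt X * (1 + Real.log N) ^ 4 := by
  have hXr : (0 : ℝ) < X := by exact_mod_cast hX
  have hNr : (1 : ℝ) ≤ N := by exact_mod_cast hN0
  set P : ℕ × ℕ × ℕ × ℕ → Finset (ℕ × ℕ) := fun q =>
    upairs (X * (q.1 * q.2.1 * q.2.2.1 * q.2.2.2) ^ 2) q.1 q.2.1 q.2.2.1 q.2.2.2 with hP
  have hsub : (Icc 1 X).filter (fun n => Squarefree n ∧ Small S n) ⊆
      (uquads N).biUnion (fun q => (P q).image (fun p =>
        p.1 * p.2 * ((p.1 - p.2) * (p.1 + p.2)) / (q.1 * q.2.1 * q.2.2.1 * q.2.2.2) ^ 2)) := by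
    intro n hn
    rw [mem_filter, mem_Icc] at hn
    obtain ⟨⟨hn1, hn2⟩, hsq, hsm⟩ := hn
    obtain ⟨s, a, b, hs0, hsS, hb0, hba, hab, hpar, heq⟩ := small_pair hsq hsm
    obtain ⟨u, v, w, z, hu, hv, hw, hz, hprod, du, dv, dw, dz⟩ :=
      pair_decomp hsq hs0 hb0 hba hab hpar heq
    have hsN : s ≤ N := by
      have : (s : ℝ) < N + 1 := lt_of_le_of_lt hsS hS
      have : s < N + 1 := by exact_mod_cast this
      omega
    have hb1 : u ≤ u * v * w * z := by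
      calc u = u * 1 * 1 * 1 := by ring
        _ ≤ u * v * w * z := by gcongr <;> omega
    have hb2 : v ≤ u * v * w * z := by
      calc v = 1 * v * 1 * 1 := by ring
        _ ≤ u * v * w * z := by gcongr <;> omega
    have hb3 : w ≤ u * v * w * z := by
      calc w = 1 * 1 * w * 1 := by ring
        _ ≤ u * v * w * z := by gcongr <;> omega
    have hb4 : z ≤ u * v * w * z := by
      calc z = 1 * 1 * 1 * z := by ring
        _ ≤ u * v * w * z := by gcongr <;> omega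
    have hle : n * s ^ 2 ≤ X * s ^ 2 := Nat.mul_le_mul_right _ hn2
    have hns : 0 < n * s ^ 2 := by positivity
    have hab0 : 0 < a - b := by omega
    have ha0 : 0 < a := by omega
    have ha1 : a ≤ n * s ^ 2 := by
      rw [heq]
      calc a = a * 1 * (1 * 1) := by ring
        _ ≤ a * b * ((a - b) * (a + b)) := by gcongr <;> omega
    have hb1' : b ≤ n * s ^ 2 := hba.le.trans ha1
    rw [mem_biUnion]
    refine ⟨(u, v, w, z), ?_, ?_⟩
    · rw [uquads, mem_filter, mem_product, mem_product, mem_product, mem_Icc, mem_Icc, mem_Icc, mem_Icc]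
      simp only
      refine ⟨⟨⟨hu, by omega⟩, ⟨hv, by omega⟩, ⟨hw, by omega⟩, ⟨hz, by omega⟩⟩, by omega⟩
    · rw [mem_image]
      refine ⟨(a, b), ?_, ?_⟩
      · simp only [hP]
        rw [upairs, mem_filter, mem_product, mem_Icc, mem_Icc, hprod]
        refine ⟨⟨⟨ha0, ha1.trans hle⟩, ⟨hb0, hb1'.trans hle⟩⟩, hba, hab, hpar, du, dv, dw, dz, ?_⟩
        simp only
        rw [← heq]
        exact hle
      · simp only
        rw [← heq, hprod]
        exact Nat.mul_div_cancel _ (by positivity)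
  have h1 : (((Icc 1 X).filter (fun n => Squarefree n ∧ Small S n)).card : ℝ) ≤
      ∑ q ∈ uquads N, ((P q).card : ℝ) := by
    have h2 := (card_le_card hsub).trans card_biUnion_le
    have h3 : ∑ q ∈ uquads N, ((P q).image (fun p : ℕ × ℕ =>
        p.1 * p.2 * ((p.1 - p.2) * (p.1 + p.2)) / (q.1 * q.2.1 * q.2.2.1 * q.2.2.2) ^ 2)).card ≤
        ∑ q ∈ uquads N, (P q).card := sum_le_sum (fun q _ => card_image_le)
    exact_mod_cast h2.trans h3
  refine h1.trans ?_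
  set R := Real.sqrt (2 * X) with hR
  have hR0 : 0 ≤ R := Real.sqrt_nonneg _
  have h4 : ∀ q ∈ uquads N, ((P q).card : ℝ) ≤
      (4 * R + 4 * (Real.sqrt (R * N) * N)) * (1 / (q.1 * q.2.1 * q.2.2.1 * q.2.2.2)) := by
    intro q hq
    rw [uquads, mem_filter, mem_product, mem_product, mem_product, mem_Icc, mem_Icc, mem_Icc, mem_Icc] at hq
    obtain ⟨⟨⟨h5, -⟩, ⟨h6, -⟩, ⟨h7, -⟩, ⟨h8, -⟩⟩, h9⟩ := hq
    have h10 := card_upairs (X := X) hX h5 h6 h7 h8
    have h11 : ((q.1 : ℝ) * q.2.1 * q.2.2.1 * q.2.2.2) ≤ N := by exact_mod_cast h9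
    have h12 : (0 : ℝ) < (q.1 : ℝ) * q.2.1 * q.2.2.1 * q.2.2.2 := by
      have : 0 < q.1 * q.2.1 * q.2.2.1 * q.2.2.2 := by positivity
      exact_mod_cast this
    have h13 : Real.sqrt (R * ((q.1 : ℝ) * q.2.1 * q.2.2.1 * q.2.2.2)) ≤ Real.sqrt (R * N) :=
      Real.sqrt_le_sqrt (mul_le_mul_of_nonneg_left h11 hR0)
    have h14 : (1 : ℝ) ≤ N * (1 / ((q.1 : ℝ) * q.2.1 * q.2.2.1 * q.2.2.2)) := by
      rw [mul_one_div, le_div_iff₀ h12]; linarith
    have h15 : Real.sqrt (R * N) ≤ Real.sqrt (R * N) * (N * (1 / ((q.1 : ℝ) * q.2.1 * q.2.2.1 * q.2.2.2))) :=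
      le_mul_of_one_le_right (Real.sqrt_nonneg _) h14
    calc ((P q).card : ℝ) ≤ 4 * R * (1 / ((q.1 : ℝ) * q.2.1 * q.2.2.1 * q.2.2.2)) +
          4 * Real.sqrt (R * ((q.1 : ℝ) * q.2.1 * q.2.2.1 * q.2.2.2)) := h10
      _ ≤ 4 * R * (1 / ((q.1 : ℝ) * q.2.1 * q.2.2.1 * q.2.2.2)) +
          4 * (Real.sqrt (R * N) * (N * (1 / ((q.1 : ℝ) * q.2.1 * q.2.2.1 * q.2.2.2)))) := by linarith
      _ = _ := by ring
  refine (sum_le_sum h4).trans ?_
  rw [← mul_sum]
  have h5 := uquads_sum N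
  have hlog : 0 ≤ Real.log N := Real.log_nonneg hNr
  have h6 : 4 * R + 4 * (Real.sqrt (R * N) * N) ≤ 11 * Real.sqrt X := by
    have e1 : R ≤ 3 / 2 * Real.sqrt X := by
      rw [hR, Real.sqrt_mul (by norm_num)]
      apply mul_le_mul_of_nonneg_right _ (Real.sqrt_nonneg _)
      rw [Real.sqrt_le_left (by norm_num)]
      norm_num
    have e2 : Real.sqrt (R * N) * N ≤ 5 / 4 * Real.sqrt X := by
      have e3 : (Real.sqrt (R * N) * N) ^ 2 ≤ (5 / 4 * Real.sqrt X) ^ 2 := by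
        rw [mul_pow, Real.sq_sqrt (by positivity), mul_pow, Real.sq_sqrt hXr.le]
        have e4 : (N : ℝ) ^ 3 ≤ Real.sqrt X := by
          apply Real.le_sqrt_of_sq_le
          calc ((N : ℝ) ^ 3) ^ 2 = (N : ℝ) ^ 6 := by ring
            _ ≤ (X : ℝ) := by exact_mod_cast hN
        calc R * N * (N : ℝ) ^ 2 = R * (N : ℝ) ^ 3 := by ring
          _ ≤ (3 / 2 * Real.sqrt X) * Real.sqrt X := by gcongr
          _ = 3 / 2 * X := by rw [mul_assoc, Real.mul_self_sqrt hXr.le]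
          _ ≤ (5 / 4) ^ 2 * X := by nlinarith
      exact (sq_le_sq₀ (by positivity) (by positivity)).1 e3
    linarith
  exact mul_le_mul h6 h5 (sum_nonneg (fun q _ => by positivity)) (by positivity)

theorem upper {X : ℕ} {S : ℝ} (hS3 : 3 ≤ S) (hSX : S ^ 6 ≤ X) :
    (((Icc 1 X).filter (fun n => Squarefree n ∧ Small S n)).card : ℝ) ≤
      176 * (Real.sqrt X * Real.log S ^ 4) := by
  have hX : 0 < X := by
    have : (0 : ℝ) < X := lt_of_lt_of_le (by positivity) hSX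
    exact_mod_cast this
  set N := ⌊S⌋₊ with hN
  have hN0 : 0 < N := by
    rw [hN]; exact Nat.floor_pos.2 (by linarith)
  have h2 : (N : ℝ) ≤ S := Nat.floor_le (by linarith)
  have h3 : S < N + 1 := Nat.lt_floor_add_one _
  have h5 : N ^ 6 ≤ X := by
    have h6 : (N : ℝ) ^ 6 ≤ X := by
      refine le_trans ?_ hSX
      gcongr
    exact_mod_cast h6
  have h6 := upper_aux (X := X) (N := N) hX h5 hN0 h3
  refine h6.trans ?_
  have hlog1 : 1 ≤ Real.log S := by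
    have h7 : Real.exp 1 ≤ S := by
      have := Real.exp_one_lt_d9
      linarith
    exact (Real.le_log_iff_exp_le (by linarith)).2 h7
  have hNr : (1 : ℝ) ≤ N := by exact_mod_cast hN0
  have hlogN : Real.log N ≤ Real.log S := Real.log_le_log (by linarith) h2
  have hlogN0 : 0 ≤ Real.log N := Real.log_nonneg hNr
  have h8 : (1 + Real.log N) ^ 4 ≤ (2 * Real.log S) ^ 4 := by
    apply pow_le_pow_left₀ (by linarith)
    linarith
  calc 11 * Real.sqrt X * (1 + Real.log N) ^ 4 ≤ 11 * Real.sqrt X * (2 * Real.log S) ^ 4 := by gcongr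
    _ = 176 * (Real.sqrt X * Real.log S ^ 4) := by ring

end Pool.Agent.H14.CN
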